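import Pool.Agent.Lib.MP_f20cd2_co.AS.Defs

/-!
The index set of the atoms, the assignment of small parts and numerical facts.
-/

set_option autoImplicit false
set_option linter.unusedSectionVars false

namespace Pool.Agent.Lib.MP_f20cd2_co.AS

open Finset
open scoped Classical

/-- The atoms: `N b` atoms of size `b` for `1 ≤ b ≤ K`. -/
abbrev At (K : ℕ) (N : ℕ → ℕ) : Type := Σ b : Fin K, Fin (N (b + 1))

/-- The size of an atom. -/
def At.w {K : ℕ} {N : ℕ → ℕ} (p : At K N) : ℕ := p.1 + 1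

/-- The group of an atom. -/
def At.grp {K : ℕ} {N : ℕ → ℕ} (g : ℕ) (p : At K N) : ℕ × ℕ := (p.w, p.2 / g)

variable {K : ℕ} {N : ℕ → ℕ}

theorem At.w_mem (p : At K N) : p.w ∈ Icc 1 K := by
  have := p.1.2
  simp only [At.w, mem_Icc]
  omega

theorem At.ext' {p q : At K N} (h1 : p.w = q.w) (h2 : (p.2 : ℕ) = q.2) : p = q := by
  obtain ⟨b, x⟩ := p
  obtain ⟨c, y⟩ := q
  have : b = c := Fin.ext (by simpa [At.w] using h1)
  subst this
  have : x = y := Fin.ext h2
  subst this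
  rfl

theorem At.lt (p : At K N) : (p.2 : ℕ) < N p.w := p.2.2

theorem At.card_w {b : ℕ} (hb : b ∈ Icc 1 K) :
    ((univ : Finset (At K N)).filter fun p => p.w = b).card = N b := by
  rw [mem_Icc] at hb
  obtain ⟨c, rfl⟩ : ∃ c, b = c + 1 := ⟨b - 1, by omega⟩
  rw [← card_range (N (c + 1))]
  refine card_bij (fun p _ => (p.2 : ℕ)) (fun p hp => ?_) (fun p hp q hq h => ?_) fun x hx => ?_
  · have := p.lt
    rw [(mem_filter.1 hp).2] at this
    exact mem_range.2 this
  · exact At.ext' ((mem_filter.1 hp).2.trans (mem_filter.1 hq).2.symm) h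
  · exact ⟨⟨⟨c, by omega⟩, ⟨x, mem_range.1 hx⟩⟩, mem_filter.2 ⟨mem_univ _, rfl⟩, rfl⟩

theorem At.sum_w (S : Finset (At K N)) :
    ∑ p ∈ S, p.w = ∑ b ∈ Icc 1 K, b * (S.filter fun p => p.w = b).card := by
  rw [← sum_fiberwise_of_maps_to (g := At.w) fun p _ => p.w_mem]
  refine sum_congr rfl fun b _ => ?_
  rw [sum_congr rfl fun p hp => (mem_filter.1 hp).2, sum_const, smul_eq_mul, mul_comm]

theorem At.card_grp {g : ℕ} (hg : 0 < g) (y : ℕ × ℕ) :
    ((univ : Finset (At K N)).filter fun p => p.grp g = y).card ≤ g := by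
  refine le_trans (card_le_card_of_injOn (t := range g) (fun p => (p.2 : ℕ) % g)
    (fun p _ => ?_) fun p hp q hq h => ?_) (card_range g).le
  · exact mem_coe.2 (mem_range.2 (Nat.mod_lt _ hg))
  · have e : p.grp g = q.grp g :=
      (mem_filter.1 (mem_coe.1 hp)).2.trans (mem_filter.1 (mem_coe.1 hq)).2.symm
    simp only [At.grp, Prod.mk.injEq] at e
    refine At.ext' e.1 ?_
    have h' : (p.2 : ℕ) % g = (q.2 : ℕ) % g := h
    rw [← Nat.div_add_mod p.2 g, ← Nat.div_add_mod q.2 g, e.2, h']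

theorem At.used {g Q : ℕ} (D : Finset (At K N))
    (h : ∀ y, (D.filter fun p => p.grp g = y).card ≤ Q) (b : ℕ) :
    g * (D.filter fun p => p.w = b).card ≤ Q * (N b + g) := by
  have h1 : (D.filter fun p => p.w = b).card ≤ (N b / g + 1) * Q := by
    have hs : (D.filter fun p => p.w = b) ⊆
        (range (N b / g + 1)).biUnion fun y => D.filter fun p => p.grp g = (b, y) := by
      intro p hp
      obtain ⟨hp1, hp2⟩ := mem_filter.1 hp
      refine mem_biUnion.2 ⟨p.2 / g, mem_range.2 (Nat.lt_succ_of_le ?_), mem_filter.2 ⟨hp1, ?_⟩⟩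
      · have := p.lt
        rw [hp2] at this
        exact Nat.div_le_div_right this.le
      · simp [At.grp, hp2]
    refine le_trans (card_le_card hs) ?_
    refine le_trans (card_biUnion_le_card_mul _ _ Q fun y _ => h _) ?_
    rw [card_range]
  have h2 : g * (N b / g) ≤ N b := Nat.mul_div_le _ _
  calc g * (D.filter fun p => p.w = b).card ≤ g * ((N b / g + 1) * Q) := Nat.mul_le_mul_left _ h1
    _ = Q * (g * (N b / g) + g) := by ring
    _ ≤ Q * (N b + g) := Nat.mul_le_mul_left _ (by omega)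

theorem assign {ι W : Type} [Nonempty W] (S : Finset ι) (a : ι → ℕ) (A : Finset W) (w : W → ℕ)
    (h : ∀ i ∈ S, (S.filter fun j => a j = a i).card ≤ (A.filter fun p => w p = a i).card) :
    ∃ σ : ι → W, (∀ i ∈ S, σ i ∈ A ∧ w (σ i) = a i) ∧ Set.InjOn σ S := by
  have key : ∀ b, ∃ f : ι → W, (∃ i ∈ S, a i = b) →
      (∀ i ∈ S, a i = b → f i ∈ A ∧ w (f i) = b) ∧
        ∀ i ∈ S, ∀ j ∈ S, a i = b → a j = b → f i = f j → i = j := by
    intro b
    by_cases hb : ∃ i ∈ S, a i = b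
    · obtain ⟨i, hi, rfl⟩ := hb
      have h1 := h i hi
      rw [← Fintype.card_coe] at h1
      obtain ⟨e, he⟩ := Function.Embedding.exists_of_card_le_finset h1
      refine ⟨fun j => if hj : j ∈ S.filter fun j => a j = a i then e ⟨j, hj⟩
        else Classical.arbitrary W, fun _ => ⟨fun j hj e1 => ?_, fun j hj l hl e1 e2 e3 => ?_⟩⟩
      · have hj' : j ∈ S.filter fun j => a j = a i := mem_filter.2 ⟨hj, e1⟩
        simp only [dif_pos hj']
        exact mem_filter.1 (mem_coe.1 (he ⟨_, rfl⟩))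
      · have hj' : j ∈ S.filter fun j => a j = a i := mem_filter.2 ⟨hj, e1⟩
        have hl' : l ∈ S.filter fun j => a j = a i := mem_filter.2 ⟨hl, e2⟩
        simp only [dif_pos hj', dif_pos hl'] at e3
        exact congrArg Subtype.val (e.injective e3)
    · exact ⟨fun _ => Classical.arbitrary W, fun hb' => absurd hb' hb⟩
  choose f hf using key
  refine ⟨fun i => f (a i) i, fun i hi => (hf (a i) ⟨i, hi, rfl⟩).1 i hi rfl, ?_⟩
  intro i hi j hj e
  have e' : f (a i) i = f (a j) j := e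
  have h1 := ((hf (a i) ⟨i, hi, rfl⟩).1 i hi rfl).2
  have h2 := ((hf (a j) ⟨j, hj, rfl⟩).1 j hj rfl).2
  have e2 : a j = a i := by rw [← h1, ← h2, e']
  rw [e2] at e'
  exact (hf (a i) ⟨i, hi, rfl⟩).2 i hi j hj rfl e2 e'

theorem used_le {g Q u n c : ℕ} (hQ : 0 < Q) (h1 : c * Q ≤ g) (h2 : g * u ≤ Q * (n + g)) :
    c * u ≤ n + c * Q := by
  rcases le_total u Q with h | h
  · exact le_trans (Nat.mul_le_mul_left _ h) (Nat.le_add_left _ _)
  · obtain ⟨d, rfl⟩ := Nat.exists_eq_add_of_le h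
    have h3 : g * d ≤ Q * n := by nlinarith
    have h4 : Q * (c * d) ≤ Q * n := by nlinarith
    have h5 := Nat.le_of_mul_le_mul_left h4 hQ
    nlinarith

theorem spare_ok {m Q u q : ℕ} (hm : 1 ≤ m)
    (h : 68 * m * u ≤ q + (q / (32 * m) + 2 * Q + 1) + 68 * m * Q) :
    u ≤ q / (32 * m) + 2 * Q + 1 := by
  have h1 : q < 32 * m * (q / (32 * m) + 1) := Nat.lt_mul_div_succ q (by omega)
  generalize q / (32 * m) = z at *
  by_contra hc
  have h2 : 68 * m * (z + 2 * Q + 2) ≤ 68 * m * u := Nat.mul_le_mul_left _ (by omega)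
  nlinarith [Nat.mul_le_mul_right z hm, Nat.mul_le_mul_right Q hm]

theorem pow_seven {m : ℕ} (hm : 100 ≤ m) : 2 ^ 39 * m ^ 7 ≤ 2 ^ m := by
  induction m, hm using Nat.le_induction with
  | base => norm_num
  | succ m hm ih =>
    have h1 : (100 * (m + 1)) ^ 7 ≤ (101 * m) ^ 7 := Nat.pow_le_pow_left (by omega) 7
    rw [mul_pow, mul_pow] at h1
    rw [pow_succ 2 m]
    generalize (m + 1) ^ 7 = x at *
    generalize m ^ 7 = y at *
    generalize 2 ^ m = z at *
    norm_num at *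
    omega

theorem lll_num {m : ℕ} (hm : 100 ≤ m) :
    3 * (6 * (10000 * m ^ 2 * m) * (72 * m) + 1) * (10000 * m ^ 2 * m + 1) ≤ 2 ^ m := by
  refine le_trans ?_ (pow_seven hm)
  have h1 : 1 ≤ m ^ 4 := Nat.one_le_pow _ _ (by omega)
  have h2 : 1 ≤ m ^ 3 := Nat.one_le_pow _ _ (by omega)
  have h3 : 6 * (10000 * m ^ 2 * m) * (72 * m) + 1 ≤ 4320001 * m ^ 4 := by nlinarith
  have h4 : 10000 * m ^ 2 * m + 1 ≤ 10001 * m ^ 3 := by nlinarith
  calc _ ≤ 3 * (4320001 * m ^ 4) * (10001 * m ^ 3) :=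
        Nat.mul_le_mul (Nat.mul_le_mul_left _ h3) h4
    _ = 129612990003 * m ^ 7 := by ring
    _ ≤ _ := Nat.mul_le_mul_right _ (by norm_num)

theorem cst_num {m g : ℕ} (hg : 100 ≤ g) :
    2 * (72 * m) * Cst (6 * g) (19 * g) ≤ 300000 * m * g ^ 2 := by
  have h1 : Cst (6 * g) (19 * g) ≤ 2000 * g ^ 2 := by
    unfold Cst
    nlinarith
  calc _ ≤ 2 * (72 * m) * (2000 * g ^ 2) := Nat.mul_le_mul_left _ h1
    _ = 288000 * (m * g ^ 2) := by ring
    _ ≤ 300000 * (m * g ^ 2) := Nat.mul_le_mul_right _ (by norm_num)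
    _ = _ := by ring

end Pool.Agent.Lib.MP_f20cd2_co.AS
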