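import Pool.Agent.Lib.MP_f20cd2_co.AS.Defs

/-!
The two kinds of bad events, and the options of a vertex.
-/

set_option autoImplicit false
set_option linter.unusedSectionVars false

namespace Pool.Agent.Lib.MP_f20cd2_co.AS

open Finset
open Pool.Agent.Lib.MP_f20cd2_co.H83 (Conn Cells)
open Pool.Agent.Lib.MP_f20cd2_co.PL
open scoped Classical

variable {V : Type} [Fintype V] [DecidableEq V] {G : SimpleGraph V}

namespace EvAux

theorem sum_pat (M : ℕ) (X : Finset V) (g : ℕ → ℕ) :
    ∑ f ∈ pat M X, ∏ v ∈ X, g (f v) = (∑ c ∈ range M, g c) ^ X.card := by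
  have h := prod_univ_sum (fun v : V => if v ∈ X then range M else {0})
    (fun v c => if v ∈ X then g c else 1)
  simp only [prod_ite_mem, univ_inter] at h
  rw [pat, ← h, ← prod_const, ← prod_subset (subset_univ X) fun v _ hv => by simp [hv]]
  exact prod_congr rfl fun v hv => by simp [hv]

theorem markov (M a : ℕ) (X : Finset V) (g : ℕ → ℕ) (p : (V → ℕ) → Prop) [DecidablePred p]
    (h : ∀ f, p f → a ≤ ∏ v ∈ X, g (f v)) :
    a * ((pat M X).filter p).card ≤ (∑ c ∈ range M, g c) ^ X.card := by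
  rw [← sum_pat, mul_comm, ← smul_eq_mul]
  exact (card_nsmul_le_sum _ _ _ fun f hf => h f (mem_filter.1 hf).2).trans
    (sum_le_sum_of_subset (filter_subset _ _))

theorem bern (m n : ℕ) : m ^ (n + 1) + (n + 1) * m ^ n ≤ (m + 1) ^ (n + 1) := by
  induction n with
  | zero => simp
  | succ n ih =>
    calc m ^ (n + 2) + (n + 2) * m ^ (n + 1)
        ≤ (m ^ (n + 1) + (n + 1) * m ^ n) * (m + 1) := by
          have : (m ^ (n + 1) + (n + 1) * m ^ n) * (m + 1) =
            m ^ (n + 2) + (n + 2) * m ^ (n + 1) + (n + 1) * m ^ n := by ring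
          omega
      _ ≤ (m + 1) ^ (n + 1) * (m + 1) := Nat.mul_le_mul_right _ ih
      _ = _ := (pow_succ _ _).symm

theorem add_pow_le (M L r n : ℕ) (hM : 0 < M) (hn : n ≤ M * L) : (M + r) ^ n ≤ M ^ n * 4 ^ (r * L) := by
  have hM' : (0 : ℝ) < M := by exact_mod_cast hM
  have hn' : (n : ℝ) ≤ M * L := by exact_mod_cast hn
  have h1 : ((M : ℝ) + r) ≤ M * Real.exp (r / M) := by
    have := mul_le_mul_of_nonneg_left (Real.add_one_le_exp (r / M)) hM'.le
    rw [mul_add, mul_div_cancel₀ _ hM'.ne'] at this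
    linarith
  have h2 : Real.exp (r / M) ^ n ≤ 4 ^ (r * L) := by
    rw [← Real.exp_nat_mul]
    refine le_trans (Real.exp_le_exp.2 (show (n : ℝ) * (r / M) ≤ (r * L : ℕ) * 1 from ?_)) ?_
    · rw [mul_one, ← mul_div_assoc, div_le_iff₀ hM']
      push_cast
      nlinarith [mul_le_mul_of_nonneg_left hn' (Nat.cast_nonneg (α := ℝ) r)]
    · rw [Real.exp_nat_mul]
      exact pow_le_pow_left₀ (Real.exp_pos _).le (by linarith [Real.exp_one_lt_d9]) _
  have h3 : ((M : ℝ) + r) ^ n ≤ M ^ n * 4 ^ (r * L) :=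
    (pow_le_pow_left₀ (by positivity) h1 n).trans (by
      rw [mul_pow]
      exact mul_le_mul_of_nonneg_left h2 (by positivity))
  exact_mod_cast h3

theorem max_ind (A : Finset V) : ∃ I ⊆ A, Ind G I ∧ ∀ u ∈ A, u ∈ I ∨ u ∈ nbr G I := by
  obtain ⟨I, hI, hmax⟩ := exists_max_image (A.powerset.filter fun I => Ind G I) card
    ⟨∅, mem_filter.2 ⟨empty_mem_powerset A, fun u hu => absurd hu (notMem_empty u)⟩⟩
  obtain ⟨hI1, hI2⟩ := mem_filter.1 hI
  refine ⟨I, mem_powerset.1 hI1, hI2, fun u hu => ?_⟩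
  by_contra hc
  rw [not_or] at hc
  have h1 : Ind G (insert u I) := by
    intro a ha b hb hab
    rcases mem_insert.1 ha with rfl | ha' <;> rcases mem_insert.1 hb with rfl | hb'
    · exact G.irrefl hab
    · exact hc.2 (mem_nbr.2 ⟨b, hb', hab.symm⟩)
    · exact hc.2 (mem_nbr.2 ⟨a, ha', hab⟩)
    · exact hI2 a ha' b hb' hab
  have h2 := hmax (insert u I)
    (mem_filter.2 ⟨mem_powerset.2 (insert_subset hu (mem_powerset.1 hI1)), h1⟩)
  rw [card_insert_of_notMem hc.1] at h2
  omega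

theorem hall {s k : ℕ} (hE : Expd G ((2 * s : ℕ) : ℝ)) (hk : k < s) (opt : ℕ → V → V)
    (X Y : Finset V) (hY' : ∀ u ∈ X, ∀ w, G.Adj u w → w ∉ Y → ∃ i < k, opt i u = w) :
    X.card ≤ Y.card * 2 := by
  obtain ⟨I, hI, hind, hmax⟩ := max_ind (G := G) (X \ Y)
  have h3 : nbr G I \ Y ⊆ I.biUnion fun u => (range k).image fun i => opt i u := fun w hw => by
    obtain ⟨u, hu, h⟩ := mem_nbr.1 (mem_sdiff.1 hw).1
    obtain ⟨i, hi, e⟩ := hY' u (mem_sdiff.1 (hI hu)).1 w h (mem_sdiff.1 hw).2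
    exact mem_biUnion.2 ⟨u, hu, mem_image.2 ⟨i, mem_range.2 hi, e⟩⟩
  have h4 : (nbr G I \ Y).card ≤ I.card * k := (card_le_card h3).trans
    (card_biUnion_le_card_mul _ _ _ fun u _ => card_image_le.trans (card_range k).le)
  have h5 : (X \ Y).card ≤ I.card + (nbr G I \ Y).card := by
    refine (card_le_card fun u hu => ?_).trans (card_union_le _ _)
    exact mem_union.2 ((hmax u hu).imp id fun h => mem_sdiff.2 ⟨h, (mem_sdiff.1 hu).2⟩)
  have h6 : 2 * s * I.card ≤ (nbr G I).card := by exact_mod_cast hE I hind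
  have h7 := le_card_sdiff Y (nbr G I)
  have h8 := le_card_sdiff Y X
  have h9 : I.card * (k + 1) ≤ I.card * s := Nat.mul_le_mul_left _ hk
  have h10 : 2 * s * I.card = 2 * (I.card * s) := by ring
  rw [mul_add] at h9
  omega

theorem step [Nonempty V] {s k : ℕ} (hE : Expd G ((2 * s : ℕ) : ℝ)) (hk : k < s)
    (opt : ℕ → V → V) : ∃ ψ : V → V, (∀ u, G.Adj u (ψ u) ∧ ∀ i < k, opt i u ≠ ψ u) ∧
      ∀ w, (univ.filter fun u => ψ u = w).card ≤ 2 := by
  obtain ⟨ψ, h1, h2⟩ := hall_cap (univ : Finset V) (univ : Finset V) (fun _ => 2)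
    (fun u w => G.Adj u w ∧ ∀ i < k, opt i u ≠ w) fun X _ => by
      rw [sum_const, smul_eq_mul]
      refine hall hE hk opt X _ fun u hu w h hw => ?_
      by_contra hc
      refine hw ?_
      simp only [mem_filter, mem_univ, true_and]
      exact ⟨u, hu, h, fun i hi e => hc ⟨i, hi, e⟩⟩
  exact ⟨ψ, fun u => (h1 u (mem_univ u)).2, fun w =>
    (card_le_card fun u hu => by simpa only [mem_filter] using hu).trans (h2 w)⟩

end EvAux

open EvAux

theorem ev_miss (M L j : ℕ) (hj : j < M) (X : Finset V) (hX : X.card = M * L) :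
    2 ^ L * ((pat M X).filter fun f => ∀ v ∈ X, f v ≠ j).card ≤ M ^ X.card := by
  obtain ⟨m, rfl⟩ : ∃ m, M = m + 1 := ⟨M - 1, by omega⟩
  have h1 := markov (m + 1) 1 X (fun c => if c = j then 0 else 1) (fun f => ∀ v ∈ X, f v ≠ j)
    fun f hf => (prod_eq_one fun v hv => if_neg (hf v hv)).ge
  have h2 : ∑ c ∈ range (m + 1), (if c = j then 0 else 1) = m := by
    have h3 : ∑ c ∈ range (m + 1), ((if c = j then 0 else 1) + if c = j then 1 else 0) =
        ∑ c ∈ range (m + 1), 1 := sum_congr rfl fun c _ => by split_ifs <;> rfl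
    rw [sum_add_distrib, sum_ite_eq', if_pos (mem_range.2 hj), sum_const, card_range] at h3
    simpa using h3
  rw [h2, one_mul] at h1
  have h4 : 2 * m ^ (m + 1) ≤ (m + 1) ^ (m + 1) := by
    have h5 := bern m m
    rw [add_mul, ← pow_succ'] at h5
    omega
  refine (Nat.mul_le_mul_left _ h1).trans ?_
  rw [hX, pow_mul, pow_mul, ← mul_pow]
  exact Nat.pow_le_pow_left h4 L

theorem ev_many (M L r : ℕ) (hr : r < M) (X : Finset V) (hX : X.card ≤ M * L) :
    2 ^ L * ((pat M X).filter fun f =>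
      (2 * r + 1) * L < (X.filter fun v => 1 ≤ f v ∧ f v ≤ r).card).card ≤ M ^ X.card := by
  have h1 := markov M (2 ^ ((2 * r + 1) * L)) X (fun c => if 1 ≤ c ∧ c ≤ r then 2 else 1)
    (fun f => (2 * r + 1) * L < (X.filter fun v => 1 ≤ f v ∧ f v ≤ r).card) fun f hf => by
      rw [prod_ite, prod_const, prod_const_one, mul_one]
      exact Nat.pow_le_pow_right two_pos hf.le
  have h2 : ∑ c ∈ range M, (if 1 ≤ c ∧ c ≤ r then 2 else 1) = M + r := by
    have h3 : ∑ c ∈ range M, (if 1 ≤ c ∧ c ≤ r then 2 else 1) =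
        ∑ c ∈ range M, (1 + if 1 ≤ c ∧ c ≤ r then 1 else 0) :=
      sum_congr rfl fun c _ => by split_ifs <;> rfl
    have h4 : (range M).filter (fun c => 1 ≤ c ∧ c ≤ r) = Icc 1 r := by
      ext c
      simp only [mem_filter, mem_range, mem_Icc]
      omega
    rw [h3, sum_add_distrib, ← card_filter, h4]
    simp
  rw [h2] at h1
  have h5 := h1.trans (EvAux.add_pow_le M L r X.card (by omega) hX)
  have h6 : 2 ^ ((2 * r + 1) * L) = 4 ^ (r * L) * 2 ^ L := by
    rw [show (4 : ℕ) = 2 ^ 2 from rfl, ← pow_mul, ← pow_add]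
    congr 1
    ring
  rw [h6, mul_assoc, mul_comm (M ^ X.card)] at h5
  exact Nat.le_of_mul_le_mul_left h5 (by positivity)

theorem options (s : ℕ) (hE : Expd G ((2 * s : ℕ) : ℝ)) :
    ∃ opt : ℕ → V → V, (∀ i < s, ∀ u, G.Adj u (opt i u)) ∧
      (∀ i < s, ∀ i' < s, ∀ u, opt i u = opt i' u → i = i') ∧
      ∀ i < s, ∀ w, (univ.filter fun u => opt i u = w).card ≤ 2 := by
  rcases isEmpty_or_nonempty V with hV | hV
  · exact ⟨fun _ u => u, fun _ _ u => isEmptyElim u, fun _ _ _ _ u => isEmptyElim u,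
      fun _ _ u => isEmptyElim u⟩
  suffices h : ∀ k ≤ s, ∃ opt : ℕ → V → V, (∀ i < k, ∀ u, G.Adj u (opt i u)) ∧
      (∀ i < k, ∀ i' < k, ∀ u, opt i u = opt i' u → i = i') ∧
      ∀ i < k, ∀ w, (univ.filter fun u => opt i u = w).card ≤ 2 from h s le_rfl
  intro k
  induction k with
  | zero => exact fun _ => ⟨fun _ u => u, by simp, by simp, by simp⟩
  | succ k ih =>
    intro hk
    obtain ⟨opt, h1, h2, h3⟩ := ih (by omega)
    obtain ⟨ψ, h4, h5⟩ := step hE (show k < s by omega) opt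
    refine ⟨Function.update opt k ψ, fun i hi u => ?_, fun i hi i' hi' u => ?_, fun i hi w => ?_⟩
    · rcases eq_or_ne i k with rfl | h
      · rw [Function.update_self]; exact (h4 u).1
      · rw [Function.update_of_ne h]; exact h1 i (by omega) u
    · rcases eq_or_ne i k with h | h <;> rcases eq_or_ne i' k with h' | h'
      · exact fun _ => h.trans h'.symm
      · rw [h, Function.update_self, Function.update_of_ne h']
        exact fun e => ((h4 u).2 i' (by omega) e.symm).elim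
      · rw [h', Function.update_self, Function.update_of_ne h]
        exact fun e => ((h4 u).2 i (by omega) e).elim
      · rw [Function.update_of_ne h, Function.update_of_ne h']
        exact h2 i (by omega) i' (by omega) u
    · rcases eq_or_ne i k with rfl | h
      · rw [Function.update_self]; exact h5 w
      · rw [Function.update_of_ne h]; exact h3 i (by omega) w

end Pool.Agent.Lib.MP_f20cd2_co.AS
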