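import Pool.Agent.Lib.MP_f20cd2_co.AS.LLL
import Pool.Agent.Lib.MP_f20cd2_co.AS.Ev

/-!
The base colouring.
-/

set_option autoImplicit false
set_option linter.unusedSectionVars false

namespace Pool.Agent.Lib.MP_f20cd2_co.AS

open Finset
open Pool.Agent.Lib.MP_f20cd2_co.H83 (Conn Cells)
open Pool.Agent.Lib.MP_f20cd2_co.PL
open scoped Classical

variable {V : Type} [Fintype V] [DecidableEq V] {G : SimpleGraph V}

namespace BaseAux

/-- The block `b` of options of `u`. -/
def blk (opt : ℕ → V → V) (g b : ℕ) (u : V) : Finset V :=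
  (range g).image fun i => opt (b * g + i) u

lemma idx_lt {g b i : ℕ} (hb : b < 3) (hi : i < g) : b * g + i < 3 * g := by
  have : (b + 1) * g ≤ 3 * g := Nat.mul_le_mul_right g hb
  rw [add_mul, one_mul] at this
  omega

lemma idx_inj {g b b' i i' : ℕ} (hi : i < g) (hi' : i' < g) (h : b * g + i = b' * g + i') :
    b = b' := by
  have hg : 0 < g := by omega
  have h1 : (b * g + i) / g = b := by
    rw [add_comm, Nat.add_mul_div_right _ _ hg, Nat.div_eq_of_lt hi, zero_add]
  have h2 : (b' * g + i') / g = b' := by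
    rw [add_comm, Nat.add_mul_div_right _ _ hg, Nat.div_eq_of_lt hi', zero_add]
  rw [← h1, h, h2]

lemma card_blk {opt : ℕ → V → V} {g b : ℕ}
    (hi : ∀ i < 3 * g, ∀ i' < 3 * g, ∀ u, opt i u = opt i' u → i = i') (hb : b < 3) (u : V) :
    (blk opt g b u).card = g := by
  unfold blk
  rw [card_image_of_injOn, card_range]
  intro i h i' h' e
  have := hi _ (idx_lt hb (mem_range.1 (mem_coe.1 h))) _ (idx_lt hb (mem_range.1 (mem_coe.1 h'))) u e
  omega

/-- The vertices that have `w` as an option. -/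
noncomputable def own (opt : ℕ → V → V) (s : ℕ) (w : V) : Finset V :=
  (range s).biUnion fun i => univ.filter fun u => opt i u = w

lemma card_own {opt : ℕ → V → V} {s : ℕ}
    (hl : ∀ i < s, ∀ w, (univ.filter fun u => opt i u = w).card ≤ 2) (w : V) :
    (own opt s w).card ≤ s * 2 := by
  have := card_biUnion_le_card_mul (range s) (fun i => univ.filter fun u => opt i u = w) 2
    fun i hi => hl i (mem_range.1 hi) w
  rwa [card_range] at this

/-- The colouring given by the local lemma. -/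
lemma colour {κ : Type} [DecidableEq κ] (M L r : ℕ) (hr : r < M) (hL : 0 < L)
    (hP : 3 * (6 * (M * L) * r + 1) * (M * L + 1) ≤ 2 ^ L) (grp : V → κ)
    (hg : ∀ y, (univ.filter fun v => grp v = y).card ≤ M * L) (opt : ℕ → V → V)
    (hi : ∀ i < 3 * (M * L), ∀ i' < 3 * (M * L), ∀ u, opt i u = opt i' u → i = i')
    (hl : ∀ i < 3 * (M * L), ∀ w, (univ.filter fun u => opt i u = w).card ≤ 2) :
    ∃ f : V → ℕ, (∀ j u b, 1 ≤ j → j ≤ r → b < 3 →
        ∃ i, i < M * L ∧ f (opt (b * (M * L) + i) u) = j) ∧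
      ∀ v, ((univ.filter fun w => grp w = grp v).filter fun w => 1 ≤ f w ∧ f w ≤ r).card ≤
        (2 * r + 1) * L := by
  let I : Finset ((V × ℕ × ℕ) ⊕ κ) :=
    ((univ : Finset V) ×ˢ range 3 ×ˢ Icc 1 r).disjSum (univ.image grp)
  let S : (V × ℕ × ℕ) ⊕ κ → Finset V :=
    Sum.elim (fun p => blk opt (M * L) p.2.1 p.1) fun y => univ.filter fun v => grp v = y
  let bad : (V × ℕ × ℕ) ⊕ κ → (V → ℕ) → Prop :=
    Sum.elim (fun p f => ∀ v ∈ blk opt (M * L) p.2.1 p.1, f v ≠ p.2.2) fun y f =>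
      (2 * r + 1) * L <
        ((univ.filter fun v => grp v = y).filter fun v => 1 ≤ f v ∧ f v ≤ r).card
  have hI : ∀ p : V × ℕ × ℕ, Sum.inl p ∈ I ↔ p.2.1 < 3 ∧ 1 ≤ p.2.2 ∧ p.2.2 ≤ r := by
    intro p
    simp only [I, inl_mem_disjSum, mem_product, mem_univ, true_and, mem_range, mem_Icc]
  obtain ⟨f, -, hf⟩ := lll M (M * L) (6 * (M * L) * r + 1) (2 ^ L) (by omega) I S bad
    (by
      rintro (p | y) - f f' e hb
      · intro v hv
        rw [← e v hv]
        exact hb v hv
      · have : ((univ.filter fun v => grp v = y).filter fun v => 1 ≤ f v ∧ f v ≤ r) =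
            ((univ.filter fun v => grp v = y).filter fun v => 1 ≤ f' v ∧ f' v ≤ r) :=
          filter_congr fun v hv => by rw [e v hv]
        change (2 * r + 1) * L < _ at hb ⊢
        rw [← this]
        exact hb)
    (by
      rintro (p | y) hp
      · exact (card_blk hi ((hI p).1 hp).1 p.1).le
      · exact hg y)
    (by
      intro v
      let T : Finset (V × ℕ × ℕ) := (range 3 ×ˢ range (M * L)).biUnion fun q =>
        (univ.filter fun u => opt (q.1 * (M * L) + q.2) u = v) ×ˢ {q.1} ×ˢ Icc 1 r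
      have hT : T.card ≤ 6 * (M * L) * r := by
        have := card_biUnion_le_card_mul (range 3 ×ˢ range (M * L)) (fun q : ℕ × ℕ =>
          (univ.filter fun u => opt (q.1 * (M * L) + q.2) u = v) ×ˢ {q.1} ×ˢ Icc 1 r) (2 * r)
          fun q hq => by
            rw [mem_product, mem_range, mem_range] at hq
            rw [card_product, card_product, card_singleton, Nat.card_Icc, one_mul,
              Nat.add_sub_cancel]
            exact Nat.mul_le_mul_right r (hl _ (idx_lt hq.1 hq.2) v)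
        rw [card_product, card_range, card_range] at this
        calc T.card ≤ 3 * (M * L) * (2 * r) := this
          _ = 6 * (M * L) * r := by ring
      calc _ ≤ (T.disjSum {grp v}).card := card_le_card ?_
        _ ≤ 6 * (M * L) * r + 1 := by
          rw [card_disjSum, card_singleton]
          omega
      rintro (p | y) hp
      · rw [mem_filter] at hp
        obtain ⟨h1, h2, h3⟩ := (hI p).1 hp.1
        obtain ⟨i, hi1, hi2⟩ := mem_image.1 (show v ∈ blk opt (M * L) p.2.1 p.1 from hp.2)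
        rw [inl_mem_disjSum]
        refine mem_biUnion.2 ⟨(p.2.1, i), mem_product.2 ⟨mem_range.2 h1, hi1⟩, ?_⟩
        exact mem_product.2 ⟨mem_filter.2 ⟨mem_univ _, hi2⟩,
          mem_product.2 ⟨mem_singleton.2 rfl, mem_Icc.2 ⟨h2, h3⟩⟩⟩
      · rw [mem_filter] at hp
        rw [inr_mem_disjSum, mem_singleton]
        exact (mem_filter.1 (show v ∈ univ.filter fun v => grp v = y from hp.2)).2.symm)
    (by
      rintro (p | y) hp
      · obtain ⟨h1, h2, h3⟩ := (hI p).1 hp
        have := ev_miss M L p.2.2 (by omega) (blk opt (M * L) p.2.1 p.1) (card_blk hi h1 p.1)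
        refine le_trans (Nat.mul_le_mul_left _ (card_le_card fun f hf => ?_)) this
        rw [mem_filter] at hf ⊢
        exact hf
      · have := ev_many M L r hr (univ.filter fun v => grp v = y) (hg y)
        refine le_trans (Nat.mul_le_mul_left _ (card_le_card fun f hf => ?_)) this
        rw [mem_filter] at hf ⊢
        exact hf)
    (by
      calc 2 = 2 ^ 1 := rfl
        _ ≤ 2 ^ L := Nat.pow_le_pow_right (by norm_num) hL)
    hP
  refine ⟨f, fun j u b h1 h2 h3 => ?_, fun v => ?_⟩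
  · have := hf (Sum.inl (u, b, j)) ((hI _).2 ⟨h3, h1, h2⟩)
    by_contra hc
    refine this fun v hv e => hc ?_
    obtain ⟨i, hi1, hi2⟩ := mem_image.1 (show v ∈ blk opt (M * L) b u from hv)
    exact ⟨i, mem_range.1 hi1, by rw [hi2]; exact e⟩
  · have := hf (Sum.inr (grp v)) (inr_mem_disjSum.2 (mem_image_of_mem _ (mem_univ v)))
    exact not_lt.1 this

end BaseAux

theorem base {κ : Type} [DecidableEq κ] (M L r : ℕ) (hr : r < M) (hL : 0 < L)
    (hP : 3 * (6 * (M * L) * r + 1) * (M * L + 1) ≤ 2 ^ L) (grp : V → κ)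
    (hg : ∀ y, (univ.filter fun v => grp v = y).card ≤ M * L)
    (hE : Expd G ((2 * (3 * (M * L)) : ℕ) : ℝ)) :
    ∃ b : Base V, b.r = r ∧ b.Ok G (6 * (M * L)) (19 * (M * L)) ∧
      ∀ v, (univ.filter fun w => grp w = grp v) ∈ b.K ∧
        (univ.filter fun w => grp w = grp v ∧ b.c0 w ≠ 0).card ≤ (2 * r + 1) * L := by
  obtain ⟨opt, ha, hi, hl⟩ := options (3 * (M * L)) hE
  obtain ⟨f, h1, h2⟩ := BaseAux.colour M L r hr hL hP grp hg opt hi hl
  choose! ix hx1 hx2 using h1
  let c0 : V → ℕ := fun v => if 1 ≤ f v ∧ f v ≤ r then f v else 0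
  let O : ℕ → V → Finset V := fun j u =>
    (range 3).image fun b => opt (b * (M * L) + ix j u b) u
  let K : Finset (Finset V) := ((Icc 1 r ×ˢ (univ : Finset V)).image fun p => O p.1 p.2) ∪
    univ.image fun v => univ.filter fun w => grp w = grp v
  have hO : ∀ j, 1 ≤ j → j ≤ r → ∀ u, ∀ w ∈ O j u,
      G.Adj u w ∧ c0 w = j ∧ u ∈ BaseAux.own opt (3 * (M * L)) w := by
    intro j j1 j2 u w hw
    obtain ⟨b, hb, rfl⟩ := mem_image.1 hw
    have hb' := mem_range.1 hb
    have hlt := BaseAux.idx_lt hb' (hx1 j u b j1 j2 hb')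
    refine ⟨ha _ hlt u, ?_, mem_biUnion.2 ⟨_, mem_range.2 hlt, mem_filter.2 ⟨mem_univ _, rfl⟩⟩⟩
    simp only [c0, hx2 j u b j1 j2 hb', j1, j2, and_self, if_true]
  have hO3 : ∀ j u, (O j u).card ≤ 3 := fun j u => card_image_le.trans (card_range 3).le
  refine ⟨⟨r, c0, O, K⟩, rfl, ⟨?_, ?_, ?_, ?_, ?_, ?_⟩, fun v => ⟨?_, ?_⟩⟩
  · intro v
    change (if 1 ≤ f v ∧ f v ≤ r then f v else 0) ≤ r
    split_ifs with h
    · exact h.2
    · exact Nat.zero_le _
  · intro j j1 j2 u
    exact mem_union_left _ (mem_image.2 ⟨(j, u), mem_product.2 ⟨mem_Icc.2 ⟨j1, j2⟩, mem_univ _⟩, rfl⟩)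
  · intro j j1 j2 u
    change 3 ≤ ((range 3).image fun b => opt (b * (M * L) + ix j u b) u).card
    rw [card_image_of_injOn, card_range]
    intro b hb b' hb' e
    have h3 := mem_range.1 (mem_coe.1 hb)
    have h3' := mem_range.1 (mem_coe.1 hb')
    have a := hx1 j u b j1 j2 h3
    have a' := hx1 j u b' j1 j2 h3'
    exact BaseAux.idx_inj a a' (hi _ (BaseAux.idx_lt h3 a) _ (BaseAux.idx_lt h3' a') u e)
  · intro j j1 j2 u w hw
    exact ⟨(hO j j1 j2 u w hw).1, (hO j j1 j2 u w hw).2.1⟩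
  · intro w
    calc _ ≤ (BaseAux.own opt (3 * (M * L)) w).card := card_le_card ?_
      _ ≤ 3 * (M * L) * 2 := BaseAux.card_own hl w
      _ = 6 * (M * L) := by ring
    intro u hu
    obtain ⟨j, j1, j2, hw⟩ := (mem_filter.1 hu).2
    exact (hO j j1 j2 u w hw).2.2
  · intro w
    have hb := card_biUnion_le_card_mul (BaseAux.own opt (3 * (M * L)) w) (fun u => O (c0 w) u) 3
      fun u _ => hO3 _ u
    have hc := BaseAux.card_own hl w
    have hw := hg (grp w)
    calc _ ≤ (((BaseAux.own opt (3 * (M * L)) w).biUnion fun u => O (c0 w) u) ∪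
          univ.filter fun v => grp v = grp w).card := card_le_card ?_
      _ ≤ _ := card_union_le _ _
      _ ≤ 19 * (M * L) := by omega
    intro w' hw'
    obtain ⟨Q, hQ, hq, hq'⟩ := (mem_filter.1 hw').2
    rcases mem_union.1 hQ with hQ | hQ
    · obtain ⟨p, hp, rfl⟩ := mem_image.1 hQ
      obtain ⟨j1, j2⟩ := mem_Icc.1 (mem_product.1 hp).1
      obtain ⟨-, e, hu⟩ := hO p.1 j1 j2 p.2 w hq
      exact mem_union_left _ (mem_biUnion.2 ⟨p.2, hu, by rw [e]; exact hq'⟩)
    · obtain ⟨v, -, rfl⟩ := mem_image.1 hQ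
      exact mem_union_right _ (mem_filter.2 ⟨mem_univ _,
        (mem_filter.1 hq').2.trans (mem_filter.1 hq).2.symm⟩)
  · exact mem_union_right _ (mem_image.2 ⟨v, mem_univ _, rfl⟩)
  · refine le_trans (card_le_card fun w hw => ?_) (h2 v)
    obtain ⟨-, e, hc⟩ := mem_filter.1 hw
    refine mem_filter.2 ⟨mem_filter.2 ⟨mem_univ _, e⟩, ?_⟩
    by_contra hn
    exact hc (if_neg hn)

end Pool.Agent.Lib.MP_f20cd2_co.AS
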