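import Pool.Agent.Lib.MP_f20cd2_co.AS.GrowA

/-!
Simple facts on levels; enlarging the blocker set.
-/

set_option autoImplicit false
set_option linter.unusedSectionVars false

namespace Pool.Agent.Lib.MP_f20cd2_co.AS

open Finset
open Pool.Agent.Lib.MP_f20cd2_co.H83 (Conn Cells)
open Pool.Agent.Lib.MP_f20cd2_co.PL
open scoped Classical

variable {V : Type} [Fintype V] [DecidableEq V] {G : SimpleGraph V}

variable {b : Base V} {nu : ℕ} {χ : V → ℕ} {H : SimpleGraph V}

theorem LV.beta_card {B P : Finset V} {L : Lv V} (h : LV G b nu χ H B P L) : L.β.card ≤ 2 := by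
  rcases h.bet with e | ⟨x, -, e | ⟨-, -, e⟩⟩ | ⟨-, e⟩
  · simp [e]
  · simp [e]
  · rw [e]; exact card_le_two
  · exact (card_le_card e).trans card_le_two

theorem LV.beta_disj {B P : Finset V} {L : Lv V} (h : LV G b nu χ H B P L) : Disjoint L.β B := by
  refine disjoint_left.2 fun y hy hB => ?_
  rcases h.bet with e | ⟨x, hx, e | ⟨hc, -, e⟩⟩ | ⟨hT, e⟩
  · rw [e] at hy; exact notMem_empty _ hy
  · rw [e, mem_singleton] at hy
    exact (h.far x hx.1).1 (hy ▸ hB)
  · rw [e, mem_insert, mem_singleton] at hy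
    rcases hy with hy | hy
    · exact (h.far x hx.1).1 (hy ▸ hB)
    · exact (h.att x hx.1 hc).2.2.2 (hy ▸ hB)
  · have h1 := e hy
    rw [mem_insert, mem_singleton] at h1
    rcases h.ends y h1 with h2 | h2
    · rw [hT] at h2; exact notMem_empty _ h2
    · exact h2.2 hB

theorem LV.st_mem {B P : Finset V} {L : Lv V} (_h : LV G b nu χ H B P L) {w : V}
    (hw : w = L.u ∨ w = L.v) : L.st w ∈ L.prot := by
  unfold Lv.st Lv.prot
  split_ifs with h
  · exact mem_union_left _ (mem_union_right _ (mem_image_of_mem _ h))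
  · exact mem_union_right _ (by rw [mem_insert, mem_singleton]; exact hw)

theorem LV.prot_card {B P : Finset V} {L : Lv V} (h : LV G b nu χ H B P L) :
    L.prot.card ≤ 4 * nu + 6 := by
  have h1 := card_union_le (L.T ∪ L.T.image L.a) {L.u, L.v}
  have h2 := card_union_le L.T (L.T.image L.a)
  have h3 : (L.T.image L.a).card ≤ L.T.card := card_image_le
  have h4 : ({L.u, L.v} : Finset V).card ≤ 2 := card_le_two
  have h5 := h.card
  unfold Lv.prot
  omega

theorem Val.Bs_card {i : ℕ} {F : ℕ → Lv V} (h : Val G b nu χ H i F) : (Bs F i).card ≤ 2 * i := by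
  have := card_biUnion_le_card_mul (range i) (fun k => (F k).β) 2
    fun k hk => (h.lv k (mem_range.1 hk)).beta_card
  rwa [card_range, mul_comm] at this

theorem Val.Ps_card {i : ℕ} {F : ℕ → Lv V} (h : Val G b nu χ H i F) :
    (Ps F i).card ≤ (4 * nu + 6) * i := by
  have := card_biUnion_le_card_mul (range i) (fun k => (F k).prot) (4 * nu + 6)
    fun k hk => (h.lv k (mem_range.1 hk)).prot_card
  rwa [card_range, mul_comm] at this

/-- A level stays valid when the colours of its protected vertices are kept, no new deviating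
vertex is near them, no new edge meets the blockers and reachability does not grow. -/
theorem LV.keep {B P : Finset V} {L : Lv V} (h : LV G b nu χ H B P L) {χ' : V → ℕ}
    {H' : SimpleGraph V} (h1 : ∀ w ∈ L.prot, χ' w = χ w)
    (h2 : ∀ z, χ' z ≠ b.c0 z → χ z ≠ b.c0 z ∨ ∀ p ∈ L.prot, ¬ b.Near z p)
    (h3 : ∀ y ∈ B, ∀ w, H'.Adj w y → H.Adj w y) (h4 : ∀ y ∈ L.β, dg H' y ≤ dg H y)
    (h5 : ¬ Rch H' (univ \ B) (L.st L.u) (L.st L.v)) : LV G b nu χ' H' B P L := by
  have pT : ∀ w ∈ L.T, w ∈ L.prot := fun w hw => mem_union_left _ (mem_union_left _ hw)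
  have pa : ∀ w ∈ L.T, L.a w ∈ L.prot := fun w hw =>
    mem_union_left _ (mem_union_right _ (mem_image_of_mem _ hw))
  have pe : ∀ w, w = L.u ∨ w = L.v → w ∈ L.prot := fun w hw =>
    mem_union_right _ (by rw [mem_insert, mem_singleton]; exact hw)
  refine ⟨h.adj, h.j1, h.jr, fun w hw => ?_, fun w hw hc => ?_, fun w hw => ?_, h.nnear,
    fun w hw => ?_, fun w hw he z hz hd => ?_, h5, ?_, h.card⟩
  · rw [h1 w (pT w hw)]; exact h.ne w hw
  · rw [h1 _ (pa w hw)]; exact h.att w hw hc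
  · exact ⟨(h.far w hw).1, (h.far w hw).2.1, fun y hy ha => (h.far w hw).2.2 y hy (h3 y hy w ha)⟩
  · rw [h1 w (pe w hw)]; exact h.ends w hw
  · rcases h2 z hd with h6 | h6
    · exact h.dev w hw he z hz h6
    · exact (h6 w (pT w hw) hz.symm).elim
  · rcases h.bet with e | ⟨x, hx, e | ⟨hc, hd, e⟩⟩ | e
    · exact Or.inl e
    · exact Or.inr (Or.inl ⟨x, hx, Or.inl e⟩)
    · exact Or.inr (Or.inl ⟨x, hx, Or.inr
        ⟨hc, (h4 x (by rw [e]; exact mem_insert_self _ _)).trans hd, e⟩⟩)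
    · exact Or.inr (Or.inr e)

theorem beta_step {i : ℕ} {F : ℕ → Lv V} (h : Val G b nu χ H i F) {m : ℕ} (hm : m < i)
    {β : Finset V} (h1 : (F m).β ⊂ β) (h2 : (F m).Bet b H β) (h3 : β.card ≤ 2) :
    Imp G b nu χ H i F := by
  have hl := h.lv m hm
  have hF : ∀ k < m, Function.update F m { F m with β := β } k = F k := fun k hk =>
    Function.update_of_ne hk.ne _ _
  refine ⟨χ, H, m + 1, Function.update F m { F m with β := β }, hm, ⟨h.si, fun k hk => ?_⟩,
    Or.inr ⟨le_rfl, m, Nat.lt_succ_self m, hm.le, fun k hk => by rw [hF k hk], fun _ => ?_⟩⟩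
  · have hk' : k ≤ m := Nat.lt_succ_iff.1 hk
    rw [Bs_congr fun k' h' => hF k' (h'.trans_le hk'), Ps_congr fun k' h' => hF k' (h'.trans_le hk')]
    rcases hk'.lt_or_eq with hk' | rfl
    · rw [hF k hk']; exact h.lv k (hk'.trans hm)
    · rw [Function.update_self]
      exact ⟨hl.adj, hl.j1, hl.jr, hl.ne, hl.att, hl.far, hl.nnear, hl.ends, hl.dev, hl.sep, h2,
        hl.card⟩
  · rw [Function.update_self]
    have h4 := card_lt_card h1
    have h5 : ∑ x ∈ β, dg H x ≤ β.card * 7 :=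
      sum_le_card_nsmul β (dg H) 7 fun x _ => h.si.deg x
    simp only [Lv.phi]
    omega

end Pool.Agent.Lib.MP_f20cd2_co.AS
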