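import Pool.Agent.Lib.MP_f20cd2_co.AS.Forest
import Pool.Agent.Lib.MP_f20cd2_co.AS.Lev

/-!
Many components when all levels are blocked.
-/

set_option autoImplicit false
set_option linter.unusedSectionVars false

namespace Pool.Agent.Lib.MP_f20cd2_co.AS

open Finset
open Pool.Agent.Lib.MP_f20cd2_co.H83 (Conn Cells)
open Pool.Agent.Lib.MP_f20cd2_co.PL
open scoped Classical

variable {V : Type} [Fintype V] [DecidableEq V] {G : SimpleGraph V}

variable {b : Base V} {lam nu : ℕ} {χ : V → ℕ} {H : SimpleGraph V}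

namespace CountAux

lemma Bs_succ (F : ℕ → Lv V) (i : ℕ) : Bs F (i + 1) = Bs F i ∪ (F i).β := by
  ext x
  simp only [mem_Bs, mem_union]
  constructor
  · rintro ⟨k, hk, hx⟩
    rcases Nat.lt_succ_iff_lt_or_eq.1 hk with h | h
    · exact Or.inl ⟨k, h, hx⟩
    · exact Or.inr (h ▸ hx)
  · rintro (⟨k, hk, hx⟩ | hx)
    · exact ⟨k, by omega, hx⟩
    · exact ⟨i, by omega, hx⟩

lemma e2_le (hH : H.IsAcyclic) (S : Finset V) : e2 H S ≤ 2 * S.card := by
  rcases S.eq_empty_or_nonempty with h | h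
  · subst h
    simp [e2]
  · have := e2_acyclic hH h
    omega

lemma e2_ind {X : Finset V} (h : ∀ x ∈ X, ∀ y ∈ X, ¬ H.Adj x y) : e2 H X = 0 := by
  unfold e2
  refine sum_eq_zero fun x hx => ?_
  rw [card_eq_zero, filter_eq_empty_iff]
  intro y hy
  exact h x hx y hy

lemma dg_zero (hs : SI G b χ H) {x : V} (hx : χ x = 0) : dg H x = 0 := by
  unfold dg
  rw [card_eq_zero, filter_eq_empty_iff]
  intro y _ hy
  exact (hs.mono x y hy).2 hx

/-- The two inequalities for one colour. -/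
lemma one [Nonempty V] (hb : b.Ok G lam nu) (hs : SI G b χ H) {B X : Finset V}
    (h1 : X ⊆ B) (h4 : ∀ x ∈ X, 2 ≤ dg H x)
    (h5 : ∀ x ∈ X, ∀ y ∈ X, ¬ H.Adj x y) {j : ℕ} (hj1 : 1 ≤ j) (hj2 : j ≤ b.r) :
    1 + ∑ x ∈ B.filter (fun x => χ x = j), dg H x ≤
        nc χ H B j + 2 * (B.filter fun x => χ x = j).card ∧
      1 + 2 * (X.filter fun x => χ x = j).card ≤
        nc χ H B j + (B.filter fun x => χ x = j).card := by
  obtain ⟨D, hD⟩ : ∃ D : Finset V, D = univ.filter fun x => χ x = j := ⟨_, rfl⟩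
  obtain ⟨Bj, hBj⟩ : ∃ Bj : Finset V, Bj = B.filter fun x => χ x = j := ⟨_, rfl⟩
  obtain ⟨Xj, hXj⟩ : ∃ Xj : Finset V, Xj = X.filter fun x => χ x = j := ⟨_, rfl⟩
  have mD : ∀ x, x ∈ D ↔ χ x = j := fun x => by simp [hD]
  have mB : ∀ x, x ∈ Bj ↔ x ∈ B ∧ χ x = j := fun x => by simp [hBj]
  have mX : ∀ x, x ∈ Xj ↔ x ∈ X ∧ χ x = j := fun x => by simp [hXj]
  have hnc : nc χ H B j = ((D \ B).image (cmp H (univ \ B))).card := by
    rw [hD]; rfl
  have hcl : ∀ x ∈ D, ∀ y, H.Adj x y → y ∈ D := fun x hx y hxy =>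
    (mD y).2 ((hs.mono x y hxy).1.symm.trans ((mD x).1 hx))
  have hne : D.Nonempty := by
    obtain ⟨w, -, -, hw, -⟩ := SI.anchor hb hs hj1 hj2 (Classical.arbitrary V)
    exact ⟨w, (mD w).2 hw⟩
  have hBD : Bj ⊆ D := fun x hx => (mD x).2 ((mB x).1 hx).2
  have hXD : Xj ⊆ D := fun x hx => (mD x).2 ((mX x).1 hx).2
  have hsd : D \ B = D \ Bj := by
    ext x
    simp only [mem_sdiff, mB, mD]
    tauto
  have k1 : 2 * (D \ B).card ≤ 2 * ((D \ B).image (cmp H (univ \ B))).card + e2 H (D \ B) := by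
    refine card_le_cmp H (sdiff_subset_sdiff (subset_univ _) Subset.rfl) ?_
    intro x hx y hy hxy
    exact mem_sdiff.2 ⟨hcl x (mem_sdiff.1 hx).1 y hxy, (mem_sdiff.1 hy).2⟩
  have k2 : (D \ B).card + Bj.card = D.card := by
    rw [hsd]
    exact card_sdiff_add_card_eq_card hBD
  have k3 := e2_sdiff H hBD hcl
  have k4 := e2_sdiff H hXD hcl
  have k5 := e2_acyclic hs.acy hne
  have k6 := e2_le hs.acy Bj
  have k7 : e2 H Xj = 0 :=
    e2_ind fun x hx y hy => h5 x ((mX x).1 hx).1 y ((mX y).1 hy).1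
  have k8 : e2 H (D \ B) ≤ e2 H (D \ Xj) := by
    refine e2_mono H (sdiff_subset_sdiff Subset.rfl ?_)
    intro x hx
    exact h1 ((mX x).1 hx).1
  have k9 : 2 * Xj.card ≤ ∑ x ∈ Xj, dg H x := by
    have : Xj.card • 2 ≤ ∑ x ∈ Xj, dg H x :=
      card_nsmul_le_sum Xj (fun x => dg H x) 2 fun x hx => h4 x ((mX x).1 hx).1
    rw [smul_eq_mul] at this
    omega
  rw [← hsd] at k3
  rw [← hBj, ← hXj, hnc]
  omega

/-- Sums over the colour classes. -/
lemma sum_cls (hs : SI G b χ H) (S : Finset V) (f : V → ℕ) (hf : ∀ x ∈ S, χ x = 0 → f x = 0) :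
    ∑ j ∈ Icc 1 b.r, ∑ x ∈ S.filter (fun x => χ x = j), f x = ∑ x ∈ S, f x := by
  simp only [sum_filter]
  rw [sum_comm]
  refine sum_congr rfl fun x hx => ?_
  rw [sum_ite_eq]
  by_cases h : χ x = 0
  · rw [hf x hx h]
    simp
  · rw [if_pos]
    have := hs.rng x
    exact mem_Icc.2 ⟨by omega, this⟩

lemma sum_cls_le (S : Finset V) (r : ℕ) :
    ∑ j ∈ Icc 1 r, (S.filter fun x => χ x = j).card ≤ S.card := by
  simp only [card_eq_sum_ones, sum_filter]
  rw [sum_comm]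
  refine sum_le_sum fun x _ => ?_
  rw [sum_ite_eq]
  split_ifs <;> omega

end CountAux

/-- The blockers of the first kind. -/
theorem blk_split {i : ℕ} {F : ℕ → Lv V} (h : Val G b nu χ H i F) (hB : ∀ m < i, (F m).Blk H) :
    ∃ (X : Finset V) (s : ℕ), X ⊆ Bs F i ∧ X.card + s = i ∧ (Bs F i).card ≤ X.card + 2 * s ∧
      i ≤ (Bs F i).card ∧ (∀ x ∈ X, 2 ≤ dg H x) ∧ (∀ x ∈ X, ∀ y ∈ X, ¬ H.Adj x y) ∧
      2 * X.card + 7 * s ≤ ∑ x ∈ Bs F i, dg H x := by
  induction i with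
  | zero => exact ⟨∅, 0, by simp [Bs]⟩
  | succ i ih =>
    obtain ⟨X, s, a1, a2, a3, a4, a5, a6, a7⟩ :=
      ih ⟨h.si, fun m hm => h.lv m (by omega)⟩ fun m hm => hB m (by omega)
    have hL := h.lv i (by omega)
    have hd : Disjoint (Bs F i) (F i).β := hL.beta_disj.symm
    have hc := hL.beta_card
    rw [CountAux.Bs_succ, card_union_of_disjoint hd, sum_union hd]
    rcases hB i (by omega) with ⟨x, hx, hβ, hdx⟩ | ⟨y, hy, hdy⟩
    · obtain ⟨f1, -, f3⟩ := hL.far x hx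
      have hxX : x ∉ X := fun hh => f1 (a1 hh)
      refine ⟨insert x X, s, ?_, ?_, ?_, ?_, ?_, ?_, ?_⟩
      · intro z hz
        rcases mem_insert.1 hz with e | e
        · rw [hβ, e]
          simp
        · exact mem_union_left _ (a1 e)
      · rw [card_insert_of_notMem hxX]
        omega
      · rw [card_insert_of_notMem hxX, hβ, card_singleton]
        omega
      · rw [hβ, card_singleton]
        omega
      · intro z hz
        rcases mem_insert.1 hz with e | e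
        · rw [e]
          exact hdx
        · exact a5 z e
      · intro z hz w hw
        rcases mem_insert.1 hz with e | e <;> rcases mem_insert.1 hw with e' | e'
        · rw [e, e']
          exact H.irrefl
        · rw [e]
          exact f3 w (a1 e')
        · rw [e']
          exact fun hh => f3 z (a1 e) hh.symm
        · exact a6 z e w e'
      · rw [card_insert_of_notMem hxX, hβ, sum_singleton]
        omega
    · have c1 : 0 < (F i).β.card := card_pos.2 ⟨y, hy⟩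
      have c2 : dg H y ≤ ∑ x ∈ (F i).β, dg H x :=
        single_le_sum (f := dg H) (fun _ _ => Nat.zero_le _) hy
      exact ⟨X, s + 1, fun z hz => mem_union_left _ (a1 hz), by omega, by omega, by omega, a5, a6,
        by omega⟩

theorem many [Nonempty V] (hb : b.Ok G lam nu) (hs : SI G b χ H) {B X : Finset V} {s i : ℕ}
    (h1 : X ⊆ B) (h2 : X.card + s = i) (h3 : B.card ≤ X.card + 2 * s) (h4 : ∀ x ∈ X, 2 ≤ dg H x)
    (h5 : ∀ x ∈ X, ∀ y ∈ X, ¬ H.Adj x y) (h6 : 2 * X.card + 7 * s ≤ ∑ x ∈ B, dg H x)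
    (hi : 0 < i) : ∃ j, 1 ≤ j ∧ j ≤ b.r ∧ 2 ≤ nc χ H B j ∧ i ≤ 2 * b.r * nc χ H B j := by
  have s1 : ∑ j ∈ Icc 1 b.r, (1 + ∑ x ∈ B.filter (fun x => χ x = j), dg H x) ≤
      ∑ j ∈ Icc 1 b.r, (nc χ H B j + 2 * (B.filter fun x => χ x = j).card) :=
    sum_le_sum fun j hj =>
      (CountAux.one hb hs h1 h4 h5 (mem_Icc.1 hj).1 (mem_Icc.1 hj).2).1
  have s2 : ∑ j ∈ Icc 1 b.r, (1 + 2 * (X.filter fun x => χ x = j).card) ≤
      ∑ j ∈ Icc 1 b.r, (nc χ H B j + (B.filter fun x => χ x = j).card) :=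
    sum_le_sum fun j hj =>
      (CountAux.one hb hs h1 h4 h5 (mem_Icc.1 hj).1 (mem_Icc.1 hj).2).2
  have e1 := CountAux.sum_cls hs B (dg H) fun x _ hx => CountAux.dg_zero hs hx
  have e2' : ∑ j ∈ Icc 1 b.r, (X.filter fun x => χ x = j).card = X.card := by
    have := CountAux.sum_cls hs X (fun _ => 1) fun x hx h0 => by
      have a := CountAux.dg_zero hs h0
      have c := h4 x hx
      omega
    simpa only [card_eq_sum_ones] using this
  have e3 := CountAux.sum_cls_le (χ := χ) B b.r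
  have e4 : ∑ _j ∈ Icc 1 b.r, 1 = b.r := by simp
  rw [sum_add_distrib, sum_add_distrib, ← mul_sum, e1, e4] at s1
  rw [sum_add_distrib, sum_add_distrib, ← mul_sum, e2', e4] at s2
  have key : 2 * b.r + i ≤ 2 * ∑ j ∈ Icc 1 b.r, nc χ H B j := by omega
  have hne : (Icc 1 b.r).Nonempty := by
    rw [nonempty_iff_ne_empty]
    intro h0
    rw [h0, sum_empty] at key
    omega
  obtain ⟨j, hj, hmax⟩ := exists_max_image (Icc 1 b.r) (nc χ H B) hne
  have hle : ∑ k ∈ Icc 1 b.r, nc χ H B k ≤ b.r * nc χ H B j := by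
    have := sum_le_card_nsmul (Icc 1 b.r) (nc χ H B) (nc χ H B j) hmax
    simpa using this
  refine ⟨j, (mem_Icc.1 hj).1, (mem_Icc.1 hj).2, ?_, ?_⟩
  · by_contra hc
    have : b.r * nc χ H B j ≤ b.r * 1 := Nat.mul_le_mul_left _ (by omega)
    omega
  · rw [mul_assoc]
    omega

end Pool.Agent.Lib.MP_f20cd2_co.AS
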