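import Pool.Agent.Lib.MP_f20cd2_co.PL.Carve
import Pool.Agent.Lib.MP_f20cd2_co.PL.Tree
import Pool.Agent.Lib.MP_f20cd2_co.PL.Small
import Pool.Agent.Lib.MP_f20cd2_co.PL.Hall

/-!
Definitions for the partition theorem at constant toughness.
-/

set_option autoImplicit false
set_option linter.unusedSectionVars false

namespace Pool.Agent.Lib.MP_f20cd2_co.AS

open Finset
open Pool.Agent.Lib.MP_f20cd2_co.H83 (Conn Cells)
open Pool.Agent.Lib.MP_f20cd2_co.PL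
open scoped Classical

variable {V : Type} [Fintype V] [DecidableEq V]

/-- The degree of a vertex. -/
noncomputable def dg (H : SimpleGraph V) (v : V) : ℕ := (univ.filter fun u => H.Adj v u).card

/-- The degree sum inside `S`. -/
noncomputable def e2 (H : SimpleGraph V) (S : Finset V) : ℕ :=
  ∑ v ∈ S, (S.filter fun u => H.Adj v u).card

/-- The colourings of `X` with `M` colours, extended by zero. -/
def pat (M : ℕ) (X : Finset V) : Finset (V → ℕ) :=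
  Fintype.piFinset fun v => if v ∈ X then range M else {0}

/-- The base colouring, the dominating triples and the control sets. -/
structure Base (V : Type) where
  r : ℕ
  c0 : V → ℕ
  O : ℕ → V → Finset V
  K : Finset (Finset V)

/-- Two vertices lie in a common control set. -/
def Base.Near (b : Base V) (w w' : V) : Prop := ∃ Q ∈ b.K, w ∈ Q ∧ w' ∈ Q

lemma Base.Near.symm {b : Base V} {w w' : V} (h : b.Near w w') : b.Near w' w :=
  let ⟨Q, h1, h2, h3⟩ := h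
  ⟨Q, h1, h3, h2⟩

/-- The properties of the base. -/
structure Base.Ok (G : SimpleGraph V) (b : Base V) (lam nu : ℕ) : Prop where
  le : ∀ v, b.c0 v ≤ b.r
  mem : ∀ j, 1 ≤ j → j ≤ b.r → ∀ u, b.O j u ∈ b.K
  three : ∀ j, 1 ≤ j → j ≤ b.r → ∀ u, 3 ≤ (b.O j u).card
  adj : ∀ j, 1 ≤ j → j ≤ b.r → ∀ u, ∀ w ∈ b.O j u, G.Adj u w ∧ b.c0 w = j
  load : ∀ w, (univ.filter fun u => ∃ j, 1 ≤ j ∧ j ≤ b.r ∧ w ∈ b.O j u).card ≤ lam
  near : ∀ w, (univ.filter fun w' => b.Near w w').card ≤ nu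

/-- The invariant of a state. -/
structure SI (G : SimpleGraph V) (b : Base V) (χ : V → ℕ) (H : SimpleGraph V) : Prop where
  le : H ≤ G
  mono : ∀ x y, H.Adj x y → χ x = χ y ∧ χ x ≠ 0
  acy : H.IsAcyclic
  deg : ∀ x, dg H x ≤ 7
  rng : ∀ x, χ x ≤ b.r
  ctl : ∀ Q ∈ b.K, (Q.filter fun x => χ x ≠ b.c0 x).card ≤ 2

/-- Every dominating triple keeps a member with its base colour. -/
lemma SI.anchor {G : SimpleGraph V} {b : Base V} {lam nu : ℕ} {χ : V → ℕ} {H : SimpleGraph V}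
    (hb : b.Ok G lam nu) (h : SI G b χ H) {j : ℕ} (h1 : 1 ≤ j) (h2 : j ≤ b.r) (u : V) :
    ∃ w ∈ b.O j u, G.Adj u w ∧ χ w = j ∧ b.c0 w = j := by
  by_contra hc
  have h3 := h.ctl _ (hb.mem j h1 h2 u)
  have h4 := hb.three j h1 h2 u
  rw [filter_true_of_mem] at h3
  · omega
  · intro w hw e
    obtain ⟨h5, h6⟩ := hb.adj j h1 h2 u w hw
    exact hc ⟨w, hw, h5, e.trans h6, h6⟩

/-- A level: the wanted edge `u v` of colour `j`, the vertices `T` still to be recoloured, their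
attachments `a` and the blockers `β`. -/
structure Lv (V : Type) where
  j : ℕ
  u : V
  v : V
  T : Finset V
  a : V → V
  β : Finset V

/-- The wanted colour. -/
def Lv.c (b : Base V) (L : Lv V) (w : V) : ℕ := if w = L.u ∨ w = L.v then L.j else b.c0 w

/-- The representative of an end. -/
def Lv.st (L : Lv V) (w : V) : V := if w ∈ L.T then L.a w else w

/-- The protected vertices. -/
def Lv.prot (L : Lv V) : Finset V := L.T ∪ L.T.image L.a ∪ {L.u, L.v}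

/-- The vertices that may be recoloured next. -/
def Lv.adm (L : Lv V) (x : V) : Prop :=
  x ∈ L.T ∧ (x = L.u ∨ x = L.v → ∀ w ∈ L.T, w = L.u ∨ w = L.v)

/-- The admissible shapes of the blocker set. -/
def Lv.Bet (b : Base V) (H : SimpleGraph V) (L : Lv V) (β : Finset V) : Prop :=
  β = ∅ ∨ (∃ x, L.adm x ∧ (β = {x} ∨ (L.c b x ≠ 0 ∧ dg H x ≤ 1 ∧ β = {x, L.a x}))) ∨
    (L.T = ∅ ∧ β ⊆ {L.u, L.v})

/-- Validity of a level above the blockers `B` and the protected vertices `P`. -/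
structure LV (G : SimpleGraph V) (b : Base V) (nu : ℕ) (χ : V → ℕ) (H : SimpleGraph V)
    (B P : Finset V) (L : Lv V) : Prop where
  adj : G.Adj L.u L.v
  j1 : 1 ≤ L.j
  jr : L.j ≤ b.r
  ne : ∀ w ∈ L.T, χ w ≠ L.c b w
  att : ∀ w ∈ L.T, L.c b w ≠ 0 →
    G.Adj w (L.a w) ∧ χ (L.a w) = L.c b w ∧ b.c0 (L.a w) = L.c b w ∧ L.a w ∉ B
  far : ∀ w ∈ L.T, w ∉ B ∧ w ∉ P ∧ ∀ y ∈ B, ¬ H.Adj w y
  nnear : ∀ w ∈ L.T, w = L.u ∨ w = L.v → ∀ p ∈ P, ¬ b.Near w p
  ends : ∀ w, w = L.u ∨ w = L.v → w ∈ L.T ∨ (χ w = L.j ∧ w ∉ B)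
  dev : ∀ w ∈ L.T, w = L.u ∨ w = L.v → ∀ z, b.Near w z → χ z ≠ b.c0 z →
    z ∈ L.T ∨ z = L.u ∨ z = L.v
  sep : ¬ Rch H (univ \ B) (L.st L.u) (L.st L.v)
  bet : L.Bet b H L.β
  card : L.T.card ≤ 2 * nu + 2

/-- The blockers of the levels below `m`. -/
def Bs (F : ℕ → Lv V) (m : ℕ) : Finset V := (range m).biUnion fun k => (F k).β

/-- The protected vertices of the levels below `m`. -/
def Ps (F : ℕ → Lv V) (m : ℕ) : Finset V := (range m).biUnion fun k => (F k).prot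

lemma mem_Bs {F : ℕ → Lv V} {m : ℕ} {x : V} : x ∈ Bs F m ↔ ∃ k < m, x ∈ (F k).β := by
  simp [Bs]

lemma mem_Ps {F : ℕ → Lv V} {m : ℕ} {x : V} : x ∈ Ps F m ↔ ∃ k < m, x ∈ (F k).prot := by
  simp [Ps]

lemma Bs_congr {F F' : ℕ → Lv V} {m : ℕ} (h : ∀ k < m, F' k = F k) : Bs F' m = Bs F m :=
  biUnion_congr rfl fun k hk => by rw [h k (mem_range.1 hk)]

lemma Ps_congr {F F' : ℕ → Lv V} {m : ℕ} (h : ∀ k < m, F' k = F k) : Ps F' m = Ps F m :=
  biUnion_congr rfl fun k hk => by rw [h k (mem_range.1 hk)]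

/-- The potential of a state. -/
noncomputable def Psi (χ : V → ℕ) (H : SimpleGraph V) : ℕ :=
  2 * (univ.filter fun x => χ x ≠ 0).card + ∑ x, (7 - dg H x)

/-- The potential of a level. -/
noncomputable def Lv.phi (H : SimpleGraph V) (L : Lv V) : ℕ :=
  (3 * L.T.card + (2 - L.β.card)) * 15 + ∑ x ∈ L.β, dg H x

/-- A blocked level. -/
def Lv.Blk (H : SimpleGraph V) (L : Lv V) : Prop :=
  (∃ x ∈ L.T, L.β = {x} ∧ 2 ≤ dg H x) ∨ ∃ y ∈ L.β, dg H y = 7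

/-- A valid state with `i` valid levels. -/
structure Val (G : SimpleGraph V) (b : Base V) (nu : ℕ) (χ : V → ℕ) (H : SimpleGraph V) (i : ℕ)
    (F : ℕ → Lv V) : Prop where
  si : SI G b χ H
  lv : ∀ m < i, LV G b nu χ H (Bs F m) (Ps F m) (F m)

/-- The first configuration is better than the second one. -/
def Better (χ' : V → ℕ) (H' : SimpleGraph V) (i' : ℕ) (F' : ℕ → Lv V) (χ : V → ℕ)
    (H : SimpleGraph V) (i : ℕ) (F : ℕ → Lv V) : Prop :=
  Psi χ' H' < Psi χ H ∨ (Psi χ' H' ≤ Psi χ H ∧ ∃ k, k < i' ∧ k ≤ i ∧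
    (∀ m < k, (F' m).phi H' ≤ (F m).phi H) ∧ (k < i → (F' k).phi H' < (F k).phi H))

/-- There is a better valid configuration with at most `i` levels. -/
def Imp (G : SimpleGraph V) (b : Base V) (nu : ℕ) (χ : V → ℕ) (H : SimpleGraph V) (i : ℕ)
    (F : ℕ → Lv V) : Prop :=
  ∃ (χ' : V → ℕ) (H' : SimpleGraph V) (i' : ℕ) (F' : ℕ → Lv V),
    i' ≤ i ∧ Val G b nu χ' H' i' F' ∧ Better χ' H' i' F' χ H i F

/-- The number of components of colour `j` outside `B`. -/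
noncomputable def nc (χ : V → ℕ) (H : SimpleGraph V) (B : Finset V) (j : ℕ) : ℕ :=
  (((univ.filter fun x => χ x = j) \ B).image (cmp H (univ \ B))).card

/-- The size of the cover per level. -/
def Cst (lam nu : ℕ) : ℕ := (nu + 1) * (24 + 4 * nu + 2 * lam)

/-- Delete the edges at `x` and, if `p` holds, join `x` to `y`. -/
def grow (H : SimpleGraph V) (x y : V) (p : Prop) : SimpleGraph V where
  Adj a b := (H.Adj a b ∧ a ≠ x ∧ b ≠ x) ∨ (p ∧ x ≠ y ∧ ((a = x ∧ b = y) ∨ (a = y ∧ b = x)))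
  symm := ⟨fun a b h => by
    rcases h with ⟨h1, h2, h3⟩ | ⟨h1, h2, h3⟩
    · exact Or.inl ⟨h1.symm, h3, h2⟩
    · exact Or.inr ⟨h1, h2, by tauto⟩⟩
  loopless := ⟨fun a h => by
    rcases h with ⟨h1, -, -⟩ | ⟨-, h2, ⟨h3, h4⟩ | ⟨h3, h4⟩⟩
    · exact h1.ne rfl
    · exact h2 (h3.symm.trans h4)
    · exact h2 (h4.symm.trans h3)⟩

lemma grow_adj {H : SimpleGraph V} {x y : V} {p : Prop} {a b : V} : (grow H x y p).Adj a b ↔
    (H.Adj a b ∧ a ≠ x ∧ b ≠ x) ∨ (p ∧ x ≠ y ∧ ((a = x ∧ b = y) ∨ (a = y ∧ b = x))) := Iff.rfl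

/-- Disjoint connected dominating sets with trees of small degree. -/
structure Lanes (G : SimpleGraph V) (r lam : ℕ) (D : ℕ → Finset V) (π : ℕ → V → V) : Prop where
  disj : ∀ j < r, ∀ j' < r, j ≠ j' → Disjoint (D j) (D j')
  tree : ∀ j < r, ∃ (ρ : V) (par : V → V) (rk : V → ℕ),
    RTree (D j) ρ par rk 7 ∧ ∀ v ∈ D j, v ≠ ρ → G.Adj v (par v)
  dom : ∀ j < r, ∀ u, π j u ∈ D j ∧ G.Adj u (π j u)
  load : ∀ j < r, ∀ w, (univ.filter fun u => π j u = w).card ≤ lam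

/-- Disjoint connected subsets of `A` with prescribed weights. -/
def WPack {ι : Type} (G : SimpleGraph V) (w : V → ℕ) (A : Finset V) (I : Finset ι) (a : ι → ℕ)
    (p : ι → Finset V) : Prop :=
  (∀ i ∈ I, p i ⊆ A ∧ ∑ v ∈ p i, w v = a i ∧ Conn G (p i)) ∧
    ∀ i ∈ I, ∀ j ∈ I, i ≠ j → Disjoint (p i) (p j)

/-- The quotient of a graph along a map. -/
def quo {W : Type} (G : SimpleGraph V) (φ : V → W) : SimpleGraph W where
  Adj p q := p ≠ q ∧ ∃ x y, φ x = p ∧ φ y = q ∧ G.Adj x y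
  symm := ⟨fun _ _ ⟨h, x, y, h1, h2, h3⟩ => ⟨h.symm, y, x, h2, h1, h3.symm⟩⟩
  loopless := ⟨fun _ h => h.1 rfl⟩

lemma quo_adj {W : Type} {G : SimpleGraph V} {φ : V → W} {p q : W} :
    (quo G φ).Adj p q ↔ p ≠ q ∧ ∃ x y, φ x = p ∧ φ y = q ∧ G.Adj x y := Iff.rfl

end Pool.Agent.Lib.MP_f20cd2_co.AS
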