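import Pool.Agent.Lib.MP_f20cd2_co.AS.Lev

/-!
A new level.
-/

set_option autoImplicit false
set_option linter.unusedSectionVars false

namespace Pool.Agent.Lib.MP_f20cd2_co.AS

open Finset
open Pool.Agent.Lib.MP_f20cd2_co.H83 (Conn Cells)
open Pool.Agent.Lib.MP_f20cd2_co.PL
open scoped Classical

variable {V : Type} [Fintype V] [DecidableEq V] {G : SimpleGraph V}

variable {b : Base V} {lam nu : ℕ} {χ : V → ℕ} {H : SimpleGraph V}

/-- A small set outside which every vertex may be recoloured. -/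
theorem bad_set (hb : b.Ok G lam nu) (hs : SI G b χ H) {B P : Finset V} {i : ℕ}
    (hB : B.card ≤ 2 * i) (hP : P.card ≤ (4 * nu + 6) * i) :
    ∃ Z1 Z : Finset V, Z1 ⊆ Z ∧ (Z ∪ B).card ≤ Cst lam nu * i ∧
      (∀ w, w ∉ Z1 → w ∉ B ∧ w ∉ P ∧ (∀ y ∈ B, ¬ H.Adj w y) ∧
        ∀ j, 1 ≤ j → j ≤ b.r → ∀ y ∈ b.O j w, y ∉ B) ∧
      P ⊆ Z1 ∧ ∀ w, w ∉ Z → ∀ z ∈ Z1, ¬ b.Near w z := by
  set N1 : Finset V := B.biUnion fun y => univ.filter fun u => H.Adj y u with hN1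
  set N2 : Finset V :=
    B.biUnion fun y => univ.filter fun u => ∃ j, 1 ≤ j ∧ j ≤ b.r ∧ y ∈ b.O j u with hN2
  set Z1 : Finset V := B ∪ N1 ∪ P ∪ N2 with hZ1
  set N3 : Finset V := Z1.biUnion fun z => univ.filter fun w => b.Near z w with hN3
  have c1 : N1.card ≤ B.card * 7 := card_biUnion_le_card_mul _ _ _ fun y _ => hs.deg y
  have c2 : N2.card ≤ B.card * lam := card_biUnion_le_card_mul _ _ _ fun y _ => hb.load y
  have c3 : N3.card ≤ Z1.card * nu := card_biUnion_le_card_mul _ _ _ fun y _ => hb.near y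
  have c4 : Z1.card ≤ B.card + N1.card + P.card + N2.card :=
    (card_union_le _ _).trans (Nat.add_le_add_right ((card_union_le _ _).trans
      (Nat.add_le_add_right (card_union_le _ _) _)) _)
  have c5 : B.card * lam ≤ 2 * i * lam := Nat.mul_le_mul_right _ hB
  have c6 : Z1.card ≤ (24 + 4 * nu + 2 * lam) * i := by
    have e : (24 + 4 * nu + 2 * lam) * i = 18 * i + (4 * nu + 6) * i + 2 * i * lam := by ring
    omega
  have hBZ : B ⊆ Z1 := fun y hy =>
    mem_union_left _ (mem_union_left _ (mem_union_left _ hy))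
  refine ⟨Z1, Z1 ∪ N3, subset_union_left, ?_, fun w hw => ⟨fun h => hw (hBZ h), fun h => hw ?_,
    fun y hy h => hw ?_, fun j h1 h2 y hy h => hw ?_⟩, fun p hp => ?_, fun w hw z hz h => hw ?_⟩
  · have e : Z1 ∪ N3 ∪ B = Z1 ∪ N3 := union_eq_left.2 (hBZ.trans subset_union_left)
    rw [e]
    calc (Z1 ∪ N3).card ≤ Z1.card + Z1.card * nu := (card_union_le _ _).trans (by omega)
      _ = (nu + 1) * Z1.card := by ring
      _ ≤ (nu + 1) * ((24 + 4 * nu + 2 * lam) * i) := Nat.mul_le_mul_left _ c6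
      _ = Cst lam nu * i := by rw [Cst, mul_assoc]
  · exact mem_union_left _ (mem_union_right _ h)
  · exact mem_union_left _ (mem_union_left _ (mem_union_right _
      (mem_biUnion.2 ⟨y, hy, mem_filter.2 ⟨mem_univ _, h.symm⟩⟩)))
  · exact mem_union_right _ (mem_biUnion.2 ⟨y, h, mem_filter.2 ⟨mem_univ _, j, h1, h2, hy⟩⟩)
  · exact mem_union_left _ (mem_union_right _ hp)
  · exact mem_union_right _ (mem_biUnion.2 ⟨z, hz, mem_filter.2 ⟨mem_univ _, h.symm⟩⟩)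

namespace ExtAux

/-- An edge outside a small cover whose ends have representatives in different components. -/
theorem two_labels {B C : Finset V} {t : ℝ} (hT : RT G univ t) {j : ℕ} {K : ℕ}
    (ht : (K : ℝ) < t) (h3 : 2 ≤ nc χ H B j) (hC : C.card ≤ K * nc χ H B j)
    (hCj : ∀ x, χ x = j → x ∉ B → x ∉ C) (rep : V → V) (hrep : ∀ x, χ x = j → rep x = x) :
    ∃ u v, u ∉ C ∧ v ∉ C ∧ G.Adj u v ∧ ¬ Rch H (univ \ B) (rep u) (rep v) := by
  by_contra hc
  have h5 : ∀ u ∈ univ \ C, ∀ v ∈ univ \ C, G.Adj u v →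
      cmp H (univ \ B) (rep u) = cmp H (univ \ B) (rep v) := by
    intro u hu v hv huv
    rw [cmp_eq_iff]
    by_contra hn
    exact hc ⟨u, v, (mem_sdiff.1 hu).2, (mem_sdiff.1 hv).2, huv, hn⟩
  have h6 : nc χ H B j ≤ ((univ \ C).image fun w => cmp H (univ \ B) (rep w)).card := by
    refine card_le_card fun S hS => ?_
    obtain ⟨x, hx, rfl⟩ := mem_image.1 hS
    obtain ⟨h7, h8⟩ := mem_sdiff.1 hx
    have h9 : χ x = j := (mem_filter.1 h7).2
    exact mem_image.2 ⟨x, mem_sdiff.2 ⟨mem_univ _, hCj x h9 h8⟩, by rw [hrep x h9]⟩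
  have h7 := hT (univ \ C) _
    (BasicAux.cells (univ \ C) (fun w => cmp H (univ \ B) (rep w)) h5 _ h6) h3
  have e : (univ \ (univ \ C) : Finset V) = C := by
    ext x
    simp
  rw [e] at h7
  have h8 : (C.card : ℝ) ≤ K * (nc χ H B j : ℝ) := by exact_mod_cast hC
  have h9 : (0 : ℝ) < nc χ H B j := by exact_mod_cast (by omega : 0 < nc χ H B j)
  have h10 := mul_lt_mul_of_pos_right ht h9
  linarith

end ExtAux

theorem new_level (hb : b.Ok G lam nu) (hs : SI G b χ H) {B P : Finset V} {i : ℕ}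
    (hB : B.card ≤ 2 * i) (hP : P.card ≤ (4 * nu + 6) * i) {t : ℝ} (hT : RT G univ t)
    (ht : ((2 * b.r * Cst lam nu : ℕ) : ℝ) < t) {j : ℕ} (h1 : 1 ≤ j) (h2 : j ≤ b.r)
    (h3 : 2 ≤ nc χ H B j) (h4 : i ≤ 2 * b.r * nc χ H B j) : ∃ L, LV G b nu χ H B P L := by
  obtain ⟨Z1, Z, hZ, hc, hout, hPZ, hnear⟩ := bad_set hb hs hB hP
  have hch : ∀ (k : ℕ) (w : V), ∃ y, 1 ≤ k → k ≤ b.r →
      y ∈ b.O k w ∧ G.Adj w y ∧ χ y = k ∧ b.c0 y = k := by
    intro k w
    by_cases hk : 1 ≤ k ∧ k ≤ b.r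
    · obtain ⟨y, hy⟩ := hs.anchor hb hk.1 hk.2 w
      exact ⟨y, fun _ _ => hy⟩
    · exact ⟨w, fun a c => absurd ⟨a, c⟩ hk⟩
  choose an han using hch
  have hC : ((Z.filter fun x => χ x ≠ j) ∪ B).card ≤ (2 * b.r * Cst lam nu) * nc χ H B j :=
    calc ((Z.filter fun x => χ x ≠ j) ∪ B).card ≤ (Z ∪ B).card :=
          card_le_card (union_subset_union (filter_subset _ _) (Subset.refl _))
      _ ≤ Cst lam nu * i := hc
      _ ≤ Cst lam nu * (2 * b.r * nc χ H B j) := Nat.mul_le_mul_left _ h4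
      _ = (2 * b.r * Cst lam nu) * nc χ H B j := by ring
  obtain ⟨u, v, hu, hv, huv, hsep⟩ := ExtAux.two_labels hT ht h3 hC
    (fun x hx hxB h => (mem_union.1 h).elim (fun h' => (mem_filter.1 h').2 hx) hxB)
    (fun w => if χ w = j then w else an j w) fun x hx => if_pos hx
  have hend : ∀ w, w = u ∨ w = v → w ∉ B ∧ (χ w ≠ j → w ∉ Z) := by
    have key : ∀ w, w ∉ (Z.filter fun x => χ x ≠ j) ∪ B → w ∉ B ∧ (χ w ≠ j → w ∉ Z) :=
      fun w hw => ⟨fun h => hw (mem_union_right _ h),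
        fun h h' => hw (mem_union_left _ (mem_filter.2 ⟨h', h⟩))⟩
    rintro w (rfl | rfl)
    · exact key _ hu
    · exact key _ hv
  set T : Finset V := univ.filter fun z => ((z = u ∨ z = v) ∧ χ z ≠ j) ∨
    (¬ (z = u ∨ z = v) ∧ χ z ≠ b.c0 z ∧ ∃ w, (w = u ∨ w = v) ∧ χ w ≠ j ∧ b.Near w z) with hTd
  have hmem : ∀ z, z ∈ T ↔ ((z = u ∨ z = v) ∧ χ z ≠ j) ∨
      (¬ (z = u ∨ z = v) ∧ χ z ≠ b.c0 z ∧ ∃ w, (w = u ∨ w = v) ∧ χ w ≠ j ∧ b.Near w z) := by
    intro z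
    rw [hTd, mem_filter]
    exact ⟨fun h => h.2, fun h => ⟨mem_univ _, h⟩⟩
  have hE : ∀ z, z = u ∨ z = v → (z ∈ T ↔ χ z ≠ j) := fun z hz =>
    ⟨fun h => ((hmem z).1 h).elim (fun h' => h'.2) fun h' => absurd hz h'.1,
      fun h => (hmem z).2 (Or.inl ⟨hz, h⟩)⟩
  have hT1 : ∀ z ∈ T, z ∉ Z1 := by
    intro z hz h
    rcases (hmem z).1 hz with ⟨h5, h6⟩ | ⟨-, -, w, h5, h6, h7⟩
    · exact (hend z h5).2 h6 (hZ h)
    · exact hnear w ((hend w h5).2 h6) z h h7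
  let L : Lv V := ⟨j, u, v, T, fun w => an (if w = u ∨ w = v then j else b.c0 w) w, ∅⟩
  have hcL : ∀ w, L.c b w = if w = u ∨ w = v then j else b.c0 w := fun w => rfl
  have haL : ∀ w, L.a w = an (L.c b w) w := fun w => rfl
  have hst : ∀ w, w = u ∨ w = v → L.st w = if χ w = j then w else an j w := by
    intro w hw
    have e : L.st w = if w ∈ T then an (if w = u ∨ w = v then j else b.c0 w) w else w := rfl
    rw [e, if_pos hw]
    by_cases h : χ w = j
    · rw [if_pos h, if_neg fun h' => (hE w hw).1 h' h]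
    · rw [if_neg h, if_pos ((hE w hw).2 h)]
  refine ⟨L, huv, h1, h2, fun w hw => ?_, fun w hw h0 => ?_, fun w hw => ?_,
    fun w hw hw' p hp => ?_, fun w hw => ?_, fun w hw hw' z hz hz' => ?_, ?_, Or.inl rfl, ?_⟩
  · rw [hcL]
    rcases (hmem w).1 hw with ⟨h5, h6⟩ | ⟨h5, h6, -⟩
    · rwa [if_pos h5]
    · rwa [if_neg h5]
  · have h5 : L.c b w ≤ b.r := by
      rw [hcL]
      split_ifs
      · exact h2
      · exact hb.le w
    have h6 : 1 ≤ L.c b w := Nat.one_le_iff_ne_zero.2 h0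
    obtain ⟨h7, h8, h9, h10⟩ := han (L.c b w) w h6 h5
    rw [haL]
    exact ⟨h8, h9, h10, (hout w (hT1 w hw)).2.2.2 _ h6 h5 _ h7⟩
  · obtain ⟨h5, h6, h7, -⟩ := hout w (hT1 w hw)
    exact ⟨h5, h6, h7⟩
  · exact hnear w ((hend w hw').2 ((hE w hw').1 hw)) p (hPZ hp)
  · by_cases h : χ w = j
    · exact Or.inr ⟨h, (hend w hw).1⟩
    · exact Or.inl ((hE w hw).2 h)
  · by_cases h : z = u ∨ z = v
    · exact Or.inr h
    · exact Or.inl ((hmem z).2 (Or.inr ⟨h, hz', w, hw', (hE w hw').1 hw, hz⟩))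
  · rw [hst L.u (Or.inl rfl), hst L.v (Or.inr rfl)]
    exact hsep
  · have h5 : T ⊆ {u, v} ∪ ((univ.filter fun z => b.Near u z) ∪
        (univ.filter fun z => b.Near v z)) := by
      intro z hz
      rcases (hmem z).1 hz with ⟨h6, -⟩ | ⟨-, -, w, h6 | h6, -, h7⟩
      · exact mem_union_left _ (by simpa using h6)
      · exact mem_union_right _ (mem_union_left _ (mem_filter.2 ⟨mem_univ _, h6 ▸ h7⟩))
      · exact mem_union_right _ (mem_union_right _ (mem_filter.2 ⟨mem_univ _, h6 ▸ h7⟩))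
    have h6 := (card_le_card h5).trans ((card_union_le _ _).trans
      (Nat.add_le_add card_le_two ((card_union_le _ _).trans
        (Nat.add_le_add (hb.near u) (hb.near v)))))
    show T.card ≤ 2 * nu + 2
    omega

end Pool.Agent.Lib.MP_f20cd2_co.AS
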