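import Pool.Agent.Lib.MP_f20cd2_co.AS.Lev

/-!
The step that adds the wanted edge.
-/

set_option autoImplicit false
set_option linter.unusedSectionVars false

namespace Pool.Agent.Lib.MP_f20cd2_co.AS

open Finset
open Pool.Agent.Lib.MP_f20cd2_co.H83 (Conn Cells)
open Pool.Agent.Lib.MP_f20cd2_co.PL
open scoped Classical

variable {V : Type} [Fintype V] [DecidableEq V] {G : SimpleGraph V}

variable {b : Base V} {nu : ℕ} {χ : V → ℕ} {H : SimpleGraph V}

namespace SolidAux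

theorem dg_mono {H0 H1 : SimpleGraph V} (h : H0 ≤ H1) (w : V) : dg H0 w ≤ dg H1 w := by
  unfold dg
  refine card_le_card fun x hx => ?_
  simp only [mem_filter] at hx ⊢
  exact ⟨hx.1, h hx.2⟩

theorem sum_two {u v : V} (huv : u ≠ v) : (∑ w, if w = u ∨ w = v then 1 else 0 : ℕ) = 2 := by
  have h1 : ∀ w : V, (if w = u ∨ w = v then 1 else 0 : ℕ) =
      (if w = u then 1 else 0) + (if w = v then 1 else 0) := by
    intro w
    by_cases h2 : w = u
    · have h3 : ¬ w = v := fun h4 => huv (h2.symm.trans h4)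
      rw [if_pos (Or.inl h2), if_pos h2, if_neg h3]
    · by_cases h3 : w = v
      · rw [if_pos (Or.inr h3), if_neg h2, if_pos h3]
      · rw [if_neg (fun h4 => h4.elim h2 h3), if_neg h2, if_neg h3]
  rw [sum_congr rfl fun w _ => h1 w, sum_add_distrib]
  simp

theorem edge_sum (H0 : SimpleGraph V) {u v : V} (huv : u ≠ v) (hn : ¬ H0.Adj u v) :
    ∑ w, dg (H0 ⊔ SimpleGraph.edge u v) w = ∑ w, dg H0 w + 2 := by
  rw [sum_congr rfl fun w _ => edge_dg H0 huv hn w, sum_add_distrib, sum_two huv]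

theorem del_sum (H0 : SimpleGraph V) {u v : V} (h : H0.Adj u v) :
    ∑ w, dg (H0.deleteEdges {s(u, v)}) w + 2 = ∑ w, dg H0 w := by
  rw [← sum_congr rfl fun w _ => del_dg H0 h w, sum_add_distrib, sum_two h.ne]

theorem adj_sup {H0 : SimpleGraph V} (hle : H0 ≤ H) {u v x y : V}
    (h : (H0 ⊔ SimpleGraph.edge u v).Adj x y) :
    H.Adj x y ∨ (x = u ∧ y = v) ∨ (x = v ∧ y = u) := by
  rw [SimpleGraph.sup_adj, SimpleGraph.edge_adj] at h
  rcases h with h | h
  · exact Or.inl (hle h)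
  · exact Or.inr h.1

/-- Joining two components of a subforest by an edge of the right colour. -/
theorem si_edge (hs : SI G b χ H) {H0 : SimpleGraph V} (hle : H0 ≤ H) {u v : V}
    (hG : G.Adj u v) (hc : χ u = χ v) (h0 : χ u ≠ 0) (hr : ¬ H0.Reachable u v)
    (hu : dg H u < 7) (hv : dg H v < 7) : SI G b χ (H0 ⊔ SimpleGraph.edge u v) where
  le := fun x y hxy => by
    rcases adj_sup hle hxy with h1 | ⟨rfl, rfl⟩ | ⟨rfl, rfl⟩
    · exact hs.le h1
    · exact hG
    · exact hG.symm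
  mono := fun x y hxy => by
    rcases adj_sup hle hxy with h1 | ⟨rfl, rfl⟩ | ⟨rfl, rfl⟩
    · exact hs.mono _ _ h1
    · exact ⟨hc, h0⟩
    · exact ⟨hc.symm, hc ▸ h0⟩
  acy := (hs.acy.anti hle).sup_edge_of_not_reachable hr
  deg := fun x => by
    rw [edge_dg H0 hG.ne (fun h1 => hr h1.reachable) x]
    have h1 := dg_mono hle x
    have h2 := hs.deg x
    split_ifs with h3
    · rcases h3 with rfl | rfl <;> omega
    · omega
  rng := hs.rng
  ctl := hs.ctl

theorem cross {P : ℕ → Prop} (h0 : P 0) {m : ℕ} (hm : ¬ P m) : ∃ k < m, P k ∧ ¬ P (k + 1) := by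
  induction m with
  | zero => exact absurd h0 hm
  | succ n ih =>
    by_cases h : P n
    · exact ⟨n, Nat.lt_succ_self n, h, hm⟩
    · obtain ⟨k, h1, h2⟩ := ih h
      exact ⟨k, by omega, h2⟩

theorem Bs_mono (F : ℕ → Lv V) {k m : ℕ} (h : k ≤ m) : Bs F k ⊆ Bs F m := fun x hx => by
  obtain ⟨n, h1, h2⟩ := mem_Bs.1 hx
  exact mem_Bs.2 ⟨n, by omega, h2⟩

theorem Bs_succ (F : ℕ → Lv V) (k : ℕ) : univ \ Bs F (k + 1) = (univ \ Bs F k) \ (F k).β := by
  ext x
  simp only [mem_sdiff, mem_univ, true_and, mem_Bs]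
  constructor
  · intro h
    exact ⟨fun ⟨n, h1, h2⟩ => h ⟨n, by omega, h2⟩, fun h2 => h ⟨k, by omega, h2⟩⟩
  · rintro ⟨h1, h2⟩ ⟨n, h3, h4⟩
    rcases Nat.lt_succ_iff_lt_or_eq.1 h3 with h5 | rfl
    · exact h1 ⟨n, h5, h4⟩
    · exact h2 h4

end SolidAux

open SolidAux in
theorem solid_step {i : ℕ} {F : ℕ → Lv V} (h : Val G b nu χ H i F) {m : ℕ} (hm : m < i)
    (hT : (F m).T = ∅) (hu : dg H (F m).u < 7) (hv : dg H (F m).v < 7) :
    Imp G b nu χ H i F := by
  have hL := h.lv m hm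
  have hst : ∀ w, (F m).st w = w := fun w => by
    unfold Lv.st
    rw [hT, if_neg (notMem_empty w)]
  have hend : ∀ w, w = (F m).u ∨ w = (F m).v → χ w = (F m).j ∧ w ∉ Bs F m := fun w hw =>
    (hL.ends w hw).resolve_left (by rw [hT]; exact notMem_empty w)
  have hsep := hL.sep
  rw [hst, hst] at hsep
  have hG := hL.adj
  have hj := hL.j1
  obtain ⟨hcu, hBu⟩ := hend _ (Or.inl rfl)
  obtain ⟨hcv, hBv⟩ := hend _ (Or.inr rfl)
  generalize (F m).u = u at hu hsep hG hcu hBu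
  generalize (F m).v = v at hv hsep hG hcv hBv
  have hc : χ u = χ v := hcu.trans hcv.symm
  have h0 : χ u ≠ 0 := by omega
  have hpsi := psi_eq (χ := χ) h.si.deg
  by_cases hr : H.Reachable u v
  · have hP0 : Rch H (univ \ Bs F 0) u v :=
      rch_mono le_rfl (fun x _ => mem_sdiff.2 ⟨mem_univ x, fun hx => by
        obtain ⟨n, h1, -⟩ := mem_Bs.1 hx
        omega⟩) (rch_univ.2 hr)
    obtain ⟨k, hkm, hPk, hPk1⟩ := cross (P := fun k => Rch H (univ \ Bs F k) u v) hP0 hsep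
    rw [Bs_succ] at hPk1
    obtain ⟨w, hw, w', hww, hr0⟩ := cut_path h.si.acy hPk hPk1
    have hle : H.deleteEdges {s(w, w')} ≤ H := SimpleGraph.deleteEdges_le _
    have hn0 : ¬ (H.deleteEdges {s(w, w')}).Adj u v := fun h1 => hr0 h1.reachable
    have hsi := si_edge h.si hle hG hc h0 hr0 hu hv
    have hB : ∀ y ∈ Bs F m, ¬ (y = u ∨ y = v) := by
      rintro y hy (rfl | rfl)
      · exact hBu hy
      · exact hBv hy
    have hdg : ∀ y ∈ Bs F m, dg (H.deleteEdges {s(w, w')} ⊔ SimpleGraph.edge u v) y =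
        dg (H.deleteEdges {s(w, w')}) y := fun y hy => by
      rw [edge_dg _ hG.ne hn0 y, if_neg (hB y hy), add_zero]
    have hdg2 : ∀ n < m, ∀ y ∈ (F n).β,
        dg (H.deleteEdges {s(w, w')} ⊔ SimpleGraph.edge u v) y ≤ dg H y := fun n hn y hy => by
      rw [hdg y (mem_Bs.2 ⟨n, hn, hy⟩)]
      exact dg_mono hle y
    refine ⟨χ, _, k + 1, F, by omega, ⟨hsi, fun n hn => ?_⟩, Or.inr ⟨?_, k, by omega, by omega,
      fun n hn => ?_, fun _ => ?_⟩⟩
    · have hLn := h.lv n (by omega)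
      refine hLn.keep (fun _ _ => rfl) (fun _ hz => Or.inl hz) (fun y hy x hxy => ?_)
        (hdg2 n (by omega)) (fun h5 => hLn.sep ?_)
      · have h1 := hB y (Bs_mono F (by omega) hy)
        rcases adj_sup hle hxy with h2 | h2 | h2
        · exact h2
        · exact absurd (Or.inr h2.2) h1
        · exact absurd (Or.inl h2.2) h1
      · exact rch_edge (fun x y hxy => adj_sup hle hxy)
          (rch_mono le_rfl (sdiff_subset_sdiff Subset.rfl (Bs_mono F (by omega))) hPk) h5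
    · have h1 := psi_eq (χ := χ) hsi.deg
      have h2 := edge_sum _ hG.ne hn0
      have h3 := del_sum H hww
      omega
    · unfold Lv.phi
      exact Nat.add_le_add_left (sum_le_sum (hdg2 n (by omega))) _
    · unfold Lv.phi
      refine Nat.add_lt_add_left (sum_lt_sum (hdg2 k hkm) ⟨w, hw, ?_⟩) _
      rw [hdg w (mem_Bs.2 ⟨k, hkm, hw⟩)]
      have h1 := del_dg H hww w
      rw [if_pos (Or.inl rfl)] at h1
      omega
  · have hsi := si_edge h.si le_rfl hG hc h0 hr hu hv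
    refine ⟨χ, _, 0, F, Nat.zero_le _, ⟨hsi, fun n hn => absurd hn (Nat.not_lt_zero n)⟩,
      Or.inl ?_⟩
    have h1 := psi_eq (χ := χ) hsi.deg
    have h2 := edge_sum H hG.ne fun h3 => hr h3.reachable
    omega

end Pool.Agent.Lib.MP_f20cd2_co.AS
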