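import Pool.Agent.Lib.MP_f20cd2_co.AS.GrowC
import Pool.Agent.Lib.MP_f20cd2_co.AS.Solid
import Pool.Agent.Lib.MP_f20cd2_co.AS.Count
import Pool.Agent.Lib.MP_f20cd2_co.AS.Ext

/-!
The exchange lemma.
-/

set_option autoImplicit false
set_option linter.unusedSectionVars false

namespace Pool.Agent.Lib.MP_f20cd2_co.AS

open Finset
open Pool.Agent.Lib.MP_f20cd2_co.H83 (Conn Cells)
open Pool.Agent.Lib.MP_f20cd2_co.PL
open scoped Classical

variable {V : Type} [Fintype V] [DecidableEq V] {G : SimpleGraph V}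

variable {b : Base V} {lam nu : ℕ}

namespace ExchAux

/-- A level with a vertex to recolour has an admissible one. -/
lemma exists_adm (L : Lv V) (hT : L.T.Nonempty) : ∃ x, L.adm x := by
  by_cases h : ∀ w ∈ L.T, w = L.u ∨ w = L.v
  · obtain ⟨x, hx⟩ := hT
    exact ⟨x, hx, fun _ => h⟩
  · simp only [not_forall] at h
    obtain ⟨w, hw, hn⟩ := h
    exact ⟨w, hw, fun e => absurd e hn⟩

/-- The entries of the measure of a configuration. -/
noncomputable def ent (χ : V → ℕ) (H : SimpleGraph V) (i : ℕ) (F : ℕ → Lv V) (p : ℕ) : ℕ∞ :=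
  if p = 0 then (Psi χ H : ℕ∞) else if p - 1 < i then (((F (p - 1)).phi H : ℕ) : ℕ∞) else ⊤

lemma ent_zero (χ : V → ℕ) (H : SimpleGraph V) (i : ℕ) (F : ℕ → Lv V) :
    ent χ H i F 0 = (Psi χ H : ℕ∞) := by
  simp [ent]

lemma ent_lt (χ : V → ℕ) (H : SimpleGraph V) {i : ℕ} (F : ℕ → Lv V) {m : ℕ} (h : m < i) :
    ent χ H i F (m + 1) = (((F m).phi H : ℕ) : ℕ∞) := by
  simp [ent, h]

lemma ent_ge (χ : V → ℕ) (H : SimpleGraph V) {i : ℕ} (F : ℕ → Lv V) {m : ℕ} (h : ¬ m < i) :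
    ent χ H i F (m + 1) = ⊤ := by
  simp [ent, h]

/-- The measure of a configuration. -/
noncomputable def mes (N : ℕ) (c : (V → ℕ) × SimpleGraph V × ℕ × (ℕ → Lv V)) :
    Lex (Fin (N + 1) → ℕ∞) :=
  toLex fun p => ent c.1 c.2.1 c.2.2.1 c.2.2.2 p.val

lemma lex_lt {N : ℕ} {f g : ℕ → ℕ∞} {K : ℕ} (hK : K ≤ N) (h1 : ∀ m < K, f m ≤ g m)
    (h2 : f K < g K) :
    (toLex fun p : Fin (N + 1) => f p.val) < toLex fun p : Fin (N + 1) => g p.val := by
  have hex : ∃ k, f k ≠ g k := ⟨K, h2.ne⟩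
  have hk : Nat.find hex ≤ K := Nat.find_min' hex h2.ne
  refine ⟨⟨Nat.find hex, by omega⟩, fun j hj => ?_, ?_⟩
  · have := Nat.find_min hex (m := j.val) hj
    simpa using this
  · change f (Nat.find hex) < g (Nat.find hex)
    rcases hk.lt_or_eq with e | e
    · exact lt_of_le_of_ne (h1 _ e) (Nat.find_spec hex)
    · rw [e]; exact h2

lemma mes_lt {N : ℕ} {χ' χ : V → ℕ} {H' H : SimpleGraph V} {i' i : ℕ} {F' F : ℕ → Lv V}
    (hi : i' ≤ N) (h : Better χ' H' i' F' χ H i F) :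
    mes N (χ', H', i', F') < mes N (χ, H, i, F) := by
  rcases h with h | ⟨h0, k, h1, h2, h3, h4⟩
  · refine lex_lt (K := 0) (Nat.zero_le _) (fun m hm => absurd hm (Nat.not_lt_zero _)) ?_
    rw [ent_zero, ent_zero]
    exact_mod_cast h
  · refine lex_lt (K := k + 1) (by omega) (fun m hm => ?_) ?_
    · rcases m with _ | m
      · rw [ent_zero, ent_zero]
        exact_mod_cast h0
      · rw [ent_lt _ _ _ (show m < i' by omega), ent_lt _ _ _ (show m < i by omega)]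
        exact_mod_cast h3 m (by omega)
    · rw [ent_lt _ _ _ h1]
      by_cases hk : k < i
      · rw [ent_lt _ _ _ hk]
        exact_mod_cast h4 hk
      · rw [ent_ge _ _ _ hk]
        exact ENat.natCast_lt_top _

/-- The starting state. -/
lemma start (hb : b.Ok G lam nu) : SI G b b.c0 ⊥ where
  le := bot_le
  mono := fun _ _ h => absurd h (by simp)
  acy := SimpleGraph.isAcyclic_bot
  deg := fun x => by simp [dg]
  rng := hb.le
  ctl := fun Q _ => by simp

/-- A new level on top of the old ones. -/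
lemma val_succ {χ : V → ℕ} {H : SimpleGraph V} {i : ℕ} {F : ℕ → Lv V} (h : Val G b nu χ H i F)
    {L : Lv V} (hL : LV G b nu χ H (Bs F i) (Ps F i) L) :
    Val G b nu χ H (i + 1) (Function.update F i L) := by
  refine ⟨h.si, fun m hm => ?_⟩
  have hF : ∀ k < m, Function.update F i L k = F k := fun k hk =>
    Function.update_of_ne (by omega) _ _
  rw [Bs_congr hF, Ps_congr hF]
  rcases (Nat.lt_succ_iff.1 hm).lt_or_eq with e | e
  · rw [Function.update_of_ne e.ne]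
    exact h.lv m e
  · rw [e, Function.update_self]
    exact hL

lemma better_succ (χ : V → ℕ) (H : SimpleGraph V) (i : ℕ) (F : ℕ → Lv V) (L : Lv V) :
    Better χ H (i + 1) (Function.update F i L) χ H i F :=
  Or.inr ⟨le_rfl, i, Nat.lt_succ_self i, le_rfl, fun m hm => by
    rw [Function.update_of_ne hm.ne], fun e => absurd e (lt_irrefl i)⟩

end ExchAux

theorem unblocked {χ : V → ℕ} {H : SimpleGraph V} {i : ℕ} {F : ℕ → Lv V} (h : Val G b nu χ H i F)
    {m : ℕ} (hm : m < i) (hn : ¬ (F m).Blk H) : Imp G b nu χ H i F := by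
  have hL := h.lv m hm
  have h7 : ∀ y ∈ (F m).β, dg H y < 7 := fun y hy =>
    lt_of_le_of_ne (h.si.deg y) fun e => hn (Or.inr ⟨y, hy, e⟩)
  have htwo : ∀ p q : V, ({p, q} : Finset V).card ≤ 2 := fun p q => card_le_two
  have hlast : (F m).T = ∅ → (F m).β ⊆ {(F m).u, (F m).v} → Imp G b nu χ H i F := by
    intro hT hβ
    rcases hβ.eq_or_ssubset with e | e
    · exact solid_step h hm hT (h7 _ (by rw [e]; simp)) (h7 _ (by rw [e]; simp))
    · exact beta_step h hm e (Or.inr (Or.inr ⟨hT, Subset.refl _⟩)) (htwo _ _)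
  rcases hL.bet with h0 | ⟨x, hx, h1 | ⟨hc, hd, h2⟩⟩ | ⟨hT, hβ⟩
  · rcases (F m).T.eq_empty_or_nonempty with hT | hT
    · exact hlast hT (by rw [h0]; exact empty_subset _)
    · obtain ⟨x, hx⟩ := ExchAux.exists_adm (F m) hT
      refine beta_step h hm (β := {x}) ?_ (Or.inr (Or.inl ⟨x, hx, Or.inl rfl⟩)) (by simp)
      rw [h0]
      exact (singleton_nonempty x).empty_ssubset
  · have hd : dg H x ≤ 1 := by
      by_contra hc
      exact hn (Or.inl ⟨x, hx.1, h1, by omega⟩)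
    by_cases hc : (F m).c b x = 0
    · exact grow_step h hm hx hd fun e => absurd hc e
    · refine beta_step h hm (β := {x, (F m).a x}) ?_
        (Or.inr (Or.inl ⟨x, hx, Or.inr ⟨hc, hd, rfl⟩⟩)) (htwo _ _)
      have hne : x ≠ (F m).a x := (hL.att x hx.1 hc).1.ne
      rw [h1]
      refine (ssubset_iff_of_subset (by simp)).2 ⟨(F m).a x, by simp, ?_⟩
      rw [mem_singleton]
      exact hne.symm
  · exact grow_step h hm hx hd fun _ => h7 _ (by rw [h2]; simp)
  · exact hlast hT hβ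

theorem exch [Nonempty V] (hb : b.Ok G lam nu) {t : ℝ} (hT : RT G univ t)
    (ht : ((2 * b.r * Cst lam nu : ℕ) : ℝ) < t) :
    ∃ (χ : V → ℕ) (H : SimpleGraph V), SI G b χ H ∧
      ∀ j, 1 ≤ j → j ≤ b.r → Conn H (univ.filter fun x => χ x = j) := by
  obtain ⟨v0⟩ := ‹Nonempty V›
  obtain ⟨⟨χ, H, i, F⟩, ⟨hN, hV⟩, hmin⟩ :=
    (InvImage.wf (ExchAux.mes (V := V) (Fintype.card V + 1)) wellFounded_lt).has_min
      {c | c.2.2.1 ≤ Fintype.card V + 1 ∧ Val G b nu c.1 c.2.1 c.2.2.1 c.2.2.2}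
      ⟨(b.c0, ⊥, 0, fun _ => ⟨0, v0, v0, ∅, id, ∅⟩), Nat.zero_le _,
        ⟨ExchAux.start hb, fun m hm => absurd hm (Nat.not_lt_zero _)⟩⟩
  change i ≤ Fintype.card V + 1 at hN
  change Val G b nu χ H i F at hV
  have hno : ∀ (χ' : V → ℕ) (H' : SimpleGraph V) (i' : ℕ) (F' : ℕ → Lv V),
      i' ≤ Fintype.card V + 1 → Val G b nu χ' H' i' F' → ¬ Better χ' H' i' F' χ H i F :=
    fun χ' H' i' F' h1 h2 h3 => hmin (χ', H', i', F') ⟨h1, h2⟩ (ExchAux.mes_lt h1 h3)
  have hB : ∀ m < i, (F m).Blk H := by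
    intro m hm
    by_contra hn
    obtain ⟨χ', H', i', F', h1, h2, h3⟩ := unblocked hV hm hn
    exact hno χ' H' i' F' (h1.trans hN) h2 h3
  obtain ⟨X, s, x1, x2, x3, x4, x5, x6, x7⟩ := blk_split hV hB
  have hi : i ≤ Fintype.card V := x4.trans (card_le_univ _)
  have hnew : ∀ j, 1 ≤ j → j ≤ b.r → 2 ≤ nc χ H (Bs F i) j →
      i ≤ 2 * b.r * nc χ H (Bs F i) j → False := by
    intro j h1 h2 h3 h4
    obtain ⟨L, hL⟩ := new_level hb hV.si hV.Bs_card hV.Ps_card hT ht h1 h2 h3 h4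
    exact hno χ H (i + 1) _ (by omega) (ExchAux.val_succ hV hL) (ExchAux.better_succ χ H i F L)
  refine ⟨χ, H, hV.si, fun j h1 h2 => ?_⟩
  rcases Nat.eq_zero_or_pos i with h0 | h0
  · by_contra hc
    refine hnew j h1 h2 ?_ (by omega)
    have hE : Bs F i = ∅ := by rw [h0]; simp [Bs]
    by_contra h3
    refine hc (conn_of_cmp ?_ ?_ ?_)
    · obtain ⟨w, -, -, hw, -⟩ := hV.si.anchor hb h1 h2 v0
      exact ⟨w, by simp [hw]⟩
    · intro x hx y hxy
      rw [mem_filter] at hx ⊢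
      exact ⟨mem_univ _, (hV.si.mono x y hxy).1.symm.trans hx.2⟩
    · rw [hE, nc, sdiff_empty, sdiff_empty] at h3
      omega
  · have : Nonempty V := ⟨v0⟩
    obtain ⟨j', h3, h4, h5, h6⟩ := many hb hV.si x1 x2 x3 x5 x6 x7 h0
    exact (hnew j' h3 h4 h5 h6).elim

end Pool.Agent.Lib.MP_f20cd2_co.AS
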