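import Pool.Agent.Lib.MP_f20cd2_co.AS.Med

/-!
All parts that are not small.
-/

set_option autoImplicit false
set_option linter.unusedSectionVars false

namespace Pool.Agent.Lib.MP_f20cd2_co.AS

open Finset
open Pool.Agent.Lib.MP_f20cd2_co.H83 (Conn Cells)
open Pool.Agent.Lib.MP_f20cd2_co.PL
open scoped Classical

variable {V : Type} [Fintype V] [DecidableEq V] {G : SimpleGraph V}

namespace FinAux

variable {ι : Type} [DecidableEq ι]

/-- Disjoint subsets with prescribed sizes. -/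
lemma deal (b : ι → ℕ) (J : Finset ι) : ∀ F : Finset V, ∑ i ∈ J, b i ≤ F.card →
    ∃ Q : ι → Finset V, (∀ i ∈ J, Q i ⊆ F ∧ (Q i).card = b i) ∧
      ∀ i ∈ J, ∀ j ∈ J, i ≠ j → Disjoint (Q i) (Q j) := by
  induction J using Finset.induction_on with
  | empty => exact fun F _ => ⟨fun _ => ∅, by simp, by simp⟩
  | insert x J hx ih =>
    intro F hF
    rw [sum_insert hx] at hF
    obtain ⟨R, hR, hRc⟩ := exists_subset_card_eq (s := F) (n := b x) (by omega)
    obtain ⟨Q, hQ, hQd⟩ := ih (F \ R) (by rw [card_sdiff_of_subset hR]; omega)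
    have hne : ∀ i ∈ J, i ≠ x := fun i hi e => hx (e ▸ hi)
    refine ⟨Function.update Q x R, fun i hi => ?_, fun i hi j hj hij => ?_⟩
    · rcases mem_insert.1 hi with rfl | hi
      · rw [Function.update_self]
        exact ⟨hR, hRc⟩
      · rw [Function.update_of_ne (hne i hi)]
        exact ⟨(hQ i hi).1.trans sdiff_subset, (hQ i hi).2⟩
    · rcases mem_insert.1 hi with rfl | hi'
      · rcases mem_insert.1 hj with rfl | hj'
        · exact absurd rfl hij
        · rw [Function.update_self, Function.update_of_ne (hne j hj')]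
          exact Disjoint.mono_right (hQ j hj').1 disjoint_sdiff
      · rcases mem_insert.1 hj with rfl | hj'
        · rw [Function.update_self, Function.update_of_ne (hne i hi')]
          exact (Disjoint.mono_right (hQ i hi').1 disjoint_sdiff).symm
        · rw [Function.update_of_ne (hne i hi'), Function.update_of_ne (hne j hj')]
          exact hQd i hi' j hj' hij

lemma pow_bound (m : ℕ) : 8 * m * 8 ^ (64 * m) ≤ 9 ^ (64 * m) := by
  have h1 : 8 * m ≤ 16 ^ m := by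
    induction m with
    | zero => simp
    | succ m ih =>
      have : 1 ≤ 16 ^ m := Nat.one_le_pow _ _ (by norm_num)
      rw [pow_succ]
      omega
  have h2 : 16 * 8 ^ 64 ≤ 9 ^ 64 := by norm_num
  calc 8 * m * 8 ^ (64 * m) ≤ 16 ^ m * 8 ^ (64 * m) := Nat.mul_le_mul_right _ h1
    _ = (16 * 8 ^ 64) ^ m := by rw [mul_pow, pow_mul]
    _ ≤ (9 ^ 64) ^ m := Nat.pow_le_pow_left h2 m
    _ = 9 ^ (64 * m) := by rw [pow_mul]

lemma index (J : Finset ι) (c n : ℕ) (h : J.card ≤ n) :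
    ∃ e : ι → ℕ, (∀ i ∈ J, c ≤ e i ∧ e i < c + n) ∧ ∀ i ∈ J, ∀ j ∈ J, i ≠ j → e i ≠ e j := by
  refine ⟨fun i => if hi : i ∈ J then c + (J.equivFin ⟨i, hi⟩ : ℕ) else 0, fun i hi => ?_,
    fun i hi j hj hij e => ?_⟩
  · simp only [dif_pos hi]
    have := (J.equivFin ⟨i, hi⟩).2
    omega
  · simp only [dif_pos hi, dif_pos hj] at e
    have h1 : J.equivFin ⟨i, hi⟩ = J.equivFin ⟨j, hj⟩ := Fin.ext (by omega)
    exact hij (congrArg Subtype.val (J.equivFin.injective h1))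

lemma lane_conn {r lam : ℕ} {D : ℕ → Finset V} {π : ℕ → V → V} (hL : Lanes G r lam D π) {j : ℕ}
    (hj : j < r) (Q : Finset V) : Conn G (D j ∪ Q) := by
  obtain ⟨ρ, par, rk, hT, hadj⟩ := hL.tree j hj
  refine conn_attach (conn_of_rank _ ρ hT.root rk fun v hv hne => ?_) Q fun u _ => ?_
  · exact ⟨par v, hT.mem v hv hne, hadj v hv hne, hT.lt v hv hne⟩
  · exact ⟨π j u, hL.dom j hj u⟩

end FinAux

theorem fin_pack {ι : Type} [DecidableEq ι] {m lam : ℕ} {D : ℕ → Finset V} {π : ℕ → V → V}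
    (hL : Lanes G (72 * m) lam D π) (w : V → ℕ) (K s θ : ℕ) (hlam : lam ≤ K) (hw : ∀ v, w v ≤ K)
    (U F : Finset V) (hFU : F ⊆ U) (hDU : ∀ j < 72 * m, D j ⊆ U) (hF : ∀ v ∈ F, w v = 1)
    (hFD : ∀ j < 72 * m, Disjoint F (D j)) (Im Ih : Finset ι) (hI : Disjoint Im Ih) (a : ι → ℕ)
    (ha : ∀ i ∈ Im, K < a i ∧ a i ≤ s) (hh : ∀ i ∈ Ih, θ ≤ a i) (hc : Ih.card ≤ 8 * m) {i0 : ι}
    (h0 : i0 ∈ Ih) (hpos : 0 < a i0) (hsum : ∑ v ∈ U, w v = ∑ i ∈ Im, a i + ∑ i ∈ Ih, a i)
    (hθ : ∑ v ∈ U, w v ≤ F.card + θ) (h1 : F.card ≤ m * a i0) (h2 : 8 * s ≤ a i0)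
    (h3 : 8 * θ ≤ a i0) : ∃ p, WPack G w U (Im ∪ Ih) a p := by
  have hrest : ∀ X ⊆ U, Disjoint F X → ∑ v ∈ X, w v ≤ θ := by
    intro X hX hd
    have e1 : ∑ v ∈ F ∪ X, w v ≤ ∑ v ∈ U, w v := sum_le_sum_of_subset (union_subset hFU hX)
    rw [sum_union hd, MedAux.wcard hF] at e1
    omega
  have hk : 64 * m ≤ 72 * m := by omega
  have hlt : ∀ j ∈ range (64 * m), j < 72 * m := fun j hj => (mem_range.1 hj).trans_le hk
  have hAU : (range (64 * m)).biUnion D ⊆ U := biUnion_subset.2 fun j hj => hDU j (hlt j hj)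
  have hAF : Disjoint F ((range (64 * m)).biUnion D) :=
    (disjoint_biUnion_right _ _ _).2 fun j hj => hFD j (hlt j hj)
  obtain ⟨I', hI', p, hp, hor⟩ := med hL w K s hlam hw F hF hFD Im a ha (64 * m) hk
  have hpU : WPack G w U I' a p := MedAux.mono hp (union_subset hAU hFU)
  have hleft : ∑ i ∈ Ih, a i ≤ (F \ I'.biUnion p).card + θ := by
    have e1 := sum_sdiff (f := w) (MedAux.usub hpU)
    rw [MedAux.wsum hpU] at e1
    have e2 : ∑ i ∈ I', a i ≤ ∑ i ∈ Im, a i := sum_le_sum_of_subset hI'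
    have e3 : ∑ v ∈ U \ I'.biUnion p, w v ≤ ∑ v ∈ F \ I'.biUnion p ∪ U \ F, w v := by
      refine sum_le_sum_of_subset fun v hv => ?_
      rw [mem_sdiff] at hv
      by_cases hvF : v ∈ F
      · exact mem_union_left _ (mem_sdiff.2 ⟨hvF, hv.2⟩)
      · exact mem_union_right _ (mem_sdiff.2 ⟨hv.1, hvF⟩)
    have e4 := sum_union_inter (s₁ := F \ I'.biUnion p) (s₂ := U \ F) (f := w)
    have e5 : ∑ v ∈ F \ I'.biUnion p, w v = (F \ I'.biUnion p).card :=
      MedAux.wcard fun v hv => hF v (mem_sdiff.1 hv).1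
    have e6 := hrest (U \ F) sdiff_subset disjoint_sdiff
    omega
  have hsplit := add_sum_erase Ih a h0
  have hIm : I' = Im := by
    refine hor.resolve_right fun hor => ?_
    have e1 := hrest _ hAU hAF
    have e2 := FinAux.pow_bound m
    have e3 : 0 < 9 ^ (64 * m) := by positivity
    have e4 : 8 * (8 ^ (64 * m) * F.card) ≤ 9 ^ (64 * m) * a i0 :=
      calc 8 * (8 ^ (64 * m) * F.card) ≤ 8 * (8 ^ (64 * m) * (m * a i0)) := by gcongr
        _ = 8 * m * 8 ^ (64 * m) * a i0 := by ring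
        _ ≤ 9 ^ (64 * m) * a i0 := Nat.mul_le_mul_right _ e2
    have e5 : 9 ^ (64 * m) * (8 * (F \ I'.biUnion p).card) ≤
        9 ^ (64 * m) * (a i0 + 8 * (2 * ∑ v ∈ (range (64 * m)).biUnion D, w v + s)) := by
      rw [mul_add, mul_left_comm, mul_left_comm (9 ^ (64 * m)) 8]
      omega
    have e6 := Nat.le_of_mul_le_mul_left e5 e3
    omega
  subst hIm
  obtain ⟨e, he, hinj⟩ := FinAux.index Ih (64 * m) (8 * m) hc
  have her : ∀ i ∈ Ih, e i < 72 * m := fun i hi => by have := (he i hi).2; omega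
  have hwD : ∀ i ∈ Ih, ∑ v ∈ D (e i), w v ≤ a i := fun i hi =>
    (hrest _ (hDU _ (her i hi)) (hFD _ (her i hi))).trans (hh i hi)
  obtain ⟨Q, hQ, hQd⟩ := FinAux.deal (fun i => a i - ∑ v ∈ D (e i), w v) (Ih.erase i0)
    (F \ I'.biUnion p) (by
      have e1 : ∑ i ∈ Ih.erase i0, (a i - ∑ v ∈ D (e i), w v) ≤ ∑ i ∈ Ih.erase i0, a i :=
        sum_le_sum fun i _ => Nat.sub_le _ _
      omega)
  have hQF : ∀ i ∈ Ih.erase i0, Q i ⊆ F := fun i hi => (hQ i hi).1.trans sdiff_subset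
  have hQD : ∀ i ∈ Ih.erase i0, ∀ j ∈ Ih, Disjoint (Q i) (D (e j)) := fun i hi j hj =>
    Disjoint.mono_left (hQF i hi) (hFD _ (her j hj))
  have hDD : ∀ i ∈ Ih, ∀ j ∈ Ih, i ≠ j → Disjoint (D (e i)) (D (e j)) := fun i hi j hj hij =>
    hL.disj _ (her i hi) _ (her j hj) (hinj i hi j hj hij)
  have hpD : ∀ i ∈ I', ∀ j ∈ Ih, Disjoint (p i) (D (e j)) := fun i hi j hj =>
    Disjoint.mono_left (hp.1 i hi).1 (disjoint_union_left.2
      ⟨MedAux.lane_disj hL (he j hj).1 (her j hj), hFD _ (her j hj)⟩)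
  have hq : WPack G w U (Ih.erase i0) a fun i => D (e i) ∪ Q i := by
    refine ⟨fun i hi => ⟨?_, ?_, ?_⟩, fun i hi j hj hij => ?_⟩
    · exact union_subset (hDU _ (her i (mem_of_mem_erase hi))) ((hQF i hi).trans hFU)
    · rw [sum_union (hQD i hi i (mem_of_mem_erase hi)).symm,
        MedAux.wcard fun v hv => hF v (hQF i hi hv), (hQ i hi).2]
      have := hwD i (mem_of_mem_erase hi)
      omega
    · exact FinAux.lane_conn hL (her i (mem_of_mem_erase hi)) _
    · refine disjoint_union_left.2 ⟨disjoint_union_right.2 ⟨?_, ?_⟩, disjoint_union_right.2 ⟨?_, ?_⟩⟩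
      · exact hDD i (mem_of_mem_erase hi) j (mem_of_mem_erase hj) hij
      · exact (hQD j hj i (mem_of_mem_erase hi)).symm
      · exact hQD i hi j (mem_of_mem_erase hj)
      · exact hQd i hi j hj hij
  have hI2 : Disjoint I' (Ih.erase i0) := Disjoint.mono_right (erase_subset _ _) hI
  have hpq := MedAux.merge hpU hq fun i hi j hj _ => disjoint_union_right.2
    ⟨hpD i hi j (mem_of_mem_erase hj),
      Disjoint.mono (subset_biUnion_of_mem p hi) (hQ j hj).1 disjoint_sdiff⟩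
  set p' : ι → Finset V := fun i => if i ∈ I' then p i else D (e i) ∪ Q i with hp'
  have hD0 : D (e i0) ⊆ U \ (I' ∪ Ih.erase i0).biUnion p' := by
    refine subset_sdiff.2 ⟨hDU _ (her i0 h0), ?_⟩
    rw [hp', MedAux.merge_union hI2, disjoint_union_right, disjoint_biUnion_right,
      disjoint_biUnion_right]
    refine ⟨fun i hi => (hpD i hi i0 h0).symm, fun i hi => disjoint_union_right.2 ⟨?_, ?_⟩⟩
    · exact hDD i0 h0 i (mem_of_mem_erase hi) (ne_of_mem_erase hi).symm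
    · exact (hQD i hi i0 h0).symm
  have hlast : WPack G w U {i0} a fun _ => U \ (I' ∪ Ih.erase i0).biUnion p' := by
    refine ⟨fun i hi => ⟨sdiff_subset, ?_, ?_⟩, fun i hi j hj hij => ?_⟩
    · have e1 := sum_sdiff (f := w) (MedAux.usub hpq)
      rw [MedAux.wsum hpq, sum_union hI2] at e1
      rw [mem_singleton.1 hi]
      show ∑ v ∈ U \ (I' ∪ Ih.erase i0).biUnion p', w v = a i0
      omega
    · rw [← union_eq_right.2 hD0]
      exact FinAux.lane_conn hL (her i0 h0) _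
    · exact absurd ((mem_singleton.1 hi).trans (mem_singleton.1 hj).symm) hij
  have hfin := MedAux.merge hpq hlast fun i hi j _ _ =>
    Disjoint.mono_left (subset_biUnion_of_mem p' hi) disjoint_sdiff
  have hall : I' ∪ Ih.erase i0 ∪ {i0} = I' ∪ Ih := by
    rw [union_assoc, union_comm (Ih.erase i0), ← insert_eq, insert_erase h0]
  rw [hall] at hfin
  exact ⟨_, hfin⟩

end Pool.Agent.Lib.MP_f20cd2_co.AS
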