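import Pool.Agent.Lib.MP_f20cd2_co.AS.Rch

/-!
Counting edges and components.
-/

set_option autoImplicit false
set_option linter.unusedSectionVars false

namespace Pool.Agent.Lib.MP_f20cd2_co.AS

open Finset
open Pool.Agent.Lib.MP_f20cd2_co.H83 (Conn Cells)
open Pool.Agent.Lib.MP_f20cd2_co.PL
open scoped Classical

variable {V : Type} [Fintype V] [DecidableEq V] {G : SimpleGraph V}

namespace ForestAux

theorem e2_eq (H : SimpleGraph V) (S : Finset V) :
    e2 H S = ∑ v ∈ S, ∑ u ∈ S, if H.Adj v u then 1 else 0 := by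
  simp only [e2, card_filter]

theorem swap (H : SimpleGraph V) (A B : Finset V) :
    (∑ v ∈ A, ∑ u ∈ B, if H.Adj v u then 1 else 0) =
      ∑ v ∈ B, ∑ u ∈ A, if H.Adj v u then 1 else 0 := by
  rw [sum_comm]
  exact sum_congr rfl fun _ _ => sum_congr rfl fun _ _ => if_congr (H.adj_comm _ _) rfl rfl

theorem e2_split (H : SimpleGraph V) {S X : Finset V} (hX : X ⊆ S) :
    e2 H S = e2 H (S \ X) + 2 * (∑ v ∈ X, ∑ u ∈ S \ X, if H.Adj v u then 1 else 0) + e2 H X := by
  simp only [e2_eq, ← sum_sdiff hX, sum_add_distrib]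
  rw [swap H (S \ X) X]
  ring

end ForestAux

theorem e2_acyclic {H : SimpleGraph V} (hH : H.IsAcyclic) {S : Finset V} (hS : S.Nonempty) :
    e2 H S + 2 ≤ 2 * S.card := by
  have : Nonempty (S : Set V) := hS.to_subtype
  obtain ⟨T, h1, -, h3⟩ :=
    (SimpleGraph.connected_top (V := (S : Set V))).exists_isTree_le_of_le_of_isAcyclic le_top
      (hH.induce (S : Set V))
  have h4 := h3.card_edgeFinset
  have h5 : (H.induce (S : Set V)).edgeFinset.card ≤ T.edgeFinset.card :=
    card_le_card (SimpleGraph.edgeFinset_mono h1)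
  have h6 := (H.induce (S : Set V)).sum_degrees_eq_twice_card_edges
  have h7 : e2 H S = ∑ v : (S : Set V), (H.induce (S : Set V)).degree v := by
    rw [e2, ← sum_coe_sort S]
    refine sum_congr rfl fun v _ => ?_
    rw [← SimpleGraph.card_neighborFinset_eq_degree]
    refine (card_bij (fun u _ => u.1) ?_ ?_ ?_).symm
    · intro u hu
      exact mem_filter.2 ⟨u.2, by simpa using hu⟩
    · intro u _ w _ h
      exact Subtype.ext h
    · intro u hu
      exact ⟨⟨u, (mem_filter.1 hu).1⟩, by simpa using (mem_filter.1 hu).2, rfl⟩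
  have h8 : Fintype.card (S : Set V) = S.card := by simp
  omega

theorem card_le_cmp (H : SimpleGraph V) {S Y : Finset V} (hSY : S ⊆ Y)
    (hcl : ∀ x ∈ S, ∀ y ∈ Y, H.Adj x y → y ∈ S) :
    2 * S.card ≤ 2 * (S.image (cmp H Y)).card + e2 H S := by
  rcases S.eq_empty_or_nonempty with rfl | ⟨v, -⟩
  · simp
  have : Nonempty V := ⟨v⟩
  obtain ⟨R, hRS, hRc, hR⟩ : ∃ R : Finset V, R ⊆ S ∧ R.card ≤ (S.image (cmp H Y)).card ∧
      ∀ x ∈ S, ∃ r ∈ R, Rch H Y r x := by
    refine ⟨(S.image (cmp H Y)).image (Function.invFunOn (cmp H Y) S), fun r hr => ?_,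
      card_image_le, fun x hx => ⟨_, mem_image_of_mem _ (mem_image_of_mem _ hx), ?_⟩⟩
    · obtain ⟨C, hC, rfl⟩ := mem_image.1 hr
      obtain ⟨x, hx, rfl⟩ := mem_image.1 hC
      exact Function.invFunOn_apply_mem (s := (S : Set V)) hx
    · rw [← mem_cmp, Function.invFunOn_apply_eq (f := cmp H Y) (s := (S : Set V)) hx, mem_cmp]
      exact Relation.ReflTransGen.refl
  obtain ⟨T, hT, hmax⟩ := exists_max_image
    (S.powerset.filter fun T => R ⊆ T ∧ 2 * T.card ≤ 2 * R.card + e2 H T) card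
    ⟨R, mem_filter.2 ⟨mem_powerset.2 hRS, Subset.rfl, Nat.le_add_right _ _⟩⟩
  obtain ⟨hTS, hRT, hle⟩ := mem_filter.1 hT
  rw [mem_powerset] at hTS
  have hST : S ⊆ T := by
    intro x hx
    obtain ⟨r, hr, hrx⟩ := hR x hx
    clear hx
    induction hrx with
    | refl => exact hRT hr
    | @tail a b _ hab ih =>
      by_contra hb
      have hbS := hcl a (hTS ih) b hab.2.1 hab.2.2
      have h1 := ForestAux.e2_split H (singleton_subset_iff.2 (mem_insert_self b T))
      rw [insert_sdiff_of_mem _ (mem_singleton_self b), sdiff_singleton_eq_erase,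
        erase_eq_of_notMem hb, sum_singleton] at h1
      have h2 := single_le_sum (f := fun u => if H.Adj b u then 1 else 0)
        (fun _ _ => Nat.zero_le _) ih
      simp only [if_pos hab.2.2.symm] at h2
      have h3 := card_insert_of_notMem hb
      have := hmax (insert b T) (mem_filter.2 ⟨mem_powerset.2 (insert_subset hbS hTS),
        hRT.trans (subset_insert _ _), by omega⟩)
      omega
  rw [Subset.antisymm hTS hST] at hle
  omega

theorem e2_mono (H : SimpleGraph V) {S S' : Finset V} (h : S ⊆ S') : e2 H S ≤ e2 H S' := by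
  rw [ForestAux.e2_split H h]
  omega

/-- Removing `X` from a closed set `S`. -/
theorem e2_sdiff (H : SimpleGraph V) {S X : Finset V} (hX : X ⊆ S)
    (hcl : ∀ x ∈ S, ∀ y, H.Adj x y → y ∈ S) :
    e2 H (S \ X) + 2 * ∑ x ∈ X, dg H x = e2 H S + e2 H X := by
  have h : ∑ x ∈ X, dg H x =
      (∑ v ∈ X, ∑ u ∈ S \ X, if H.Adj v u then 1 else 0) + e2 H X := by
    rw [ForestAux.e2_eq, ← sum_add_distrib]
    refine sum_congr rfl fun x hx => ?_
    rw [sum_sdiff hX, ← card_filter, dg]
    congr 1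
    ext u
    simp only [mem_filter, mem_univ, true_and]
    exact ⟨fun k => ⟨hcl x (hX hx) u k, k⟩, fun k => k.2⟩
  rw [h, ForestAux.e2_split H hX]
  ring

end Pool.Agent.Lib.MP_f20cd2_co.AS
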