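import Pool.Agent.Lib.MP_f20cd2_co.AS.Rch

/-!
The graph after moving one vertex, and after adding or deleting one edge.
-/

set_option autoImplicit false
set_option linter.unusedSectionVars false

namespace Pool.Agent.Lib.MP_f20cd2_co.AS

open Finset
open Pool.Agent.Lib.MP_f20cd2_co.H83 (Conn Cells)
open Pool.Agent.Lib.MP_f20cd2_co.PL
open scoped Classical

variable {V : Type} [Fintype V] [DecidableEq V] {G : SimpleGraph V}

namespace GrowAAux

lemma dg_eq (H : SimpleGraph V) (v : V) : dg H v = ∑ u, if H.Adj v u then 1 else 0 := by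
  rw [dg, card_filter]

lemma one_eq (u : V) (q : Prop) [Decidable q] :
    (if q then 1 else 0 : ℕ) = ∑ z : V, if q ∧ z = u then 1 else 0 := by
  by_cases hq : q <;> simp [hq]

lemma grow_pt (H : SimpleGraph V) (x y : V) (p : Prop) {w : V} (h1 : w ≠ x) :
    dg (grow H x y p) w + (if H.Adj w x then 1 else 0) =
      dg H w + if p ∧ w = y then 1 else 0 := by
  rw [dg_eq, dg_eq, one_eq x (H.Adj w x), one_eq x (p ∧ w = y), ← sum_add_distrib,
    ← sum_add_distrib]
  refine sum_congr rfl fun z _ => ?_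
  by_cases hz : z = x
  · subst hz
    by_cases hy : w = y
    · subst hy
      simp [grow_adj, h1, h1.symm, add_comm]
    · simp [grow_adj, h1, hy]
  · simp [grow_adj, h1, hz]

lemma grow_at (H : SimpleGraph V) (x y : V) (p : Prop) :
    dg (grow H x y p) x = if p ∧ x ≠ y then 1 else 0 := by
  rw [dg_eq, one_eq y (p ∧ x ≠ y)]
  refine sum_congr rfl fun z _ => ?_
  by_cases hy : x = y
  · simp [grow_adj, hy]
  · simp [grow_adj, hy]

end GrowAAux

open GrowAAux

theorem grow_acyclic {H : SimpleGraph V} (hH : H.IsAcyclic) (x y : V) (p : Prop) :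
    (grow H x y p).IsAcyclic := by
  have h0 : (grow H x y False).IsAcyclic := hH.anti fun a b h => by
    rcases h with h | h
    · exact h.1
    · exact h.1.elim
  by_cases hxy : x = y
  · refine h0.anti fun a b h => ?_
    rcases h with h | h
    · exact Or.inl h
    · exact (h.2.1 hxy).elim
  · have hr : ¬ (grow H x y False).Reachable x y :=
      SimpleGraph.not_reachable_of_neighborSet_left_eq_empty hxy (by
        ext z
        simp [grow_adj])
    refine (h0.sup_edge_of_not_reachable hr).anti fun a b h => ?_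
    rcases id h with h' | h'
    · exact Or.inl (Or.inl h')
    · exact Or.inr ((SimpleGraph.edge_adj ..).2 ⟨h'.2.2, h.ne⟩)

theorem grow_dg_le (H : SimpleGraph V) (x y : V) (p : Prop) {w : V} (h1 : w ≠ x)
    (h2 : p → w ≠ y) : dg (grow H x y p) w ≤ dg H w := by
  have h := grow_pt H x y p h1
  rw [if_neg (c := p ∧ w = y) fun e => h2 e.1 e.2] at h
  omega

theorem grow_dg_y (H : SimpleGraph V) (x y : V) (p : Prop) :
    dg (grow H x y p) y ≤ dg H y + 1 := by
  by_cases hy : y = x
  · subst hy
    rw [grow_at]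
    split_ifs <;> omega
  · have h := grow_pt H x y p hy
    split_ifs at h <;> omega

theorem grow_dg_x (H : SimpleGraph V) (x y : V) (p : Prop) : dg (grow H x y p) x ≤ 1 := by
  rw [grow_at]
  split_ifs <;> omega

theorem grow_sum (H : SimpleGraph V) (x y : V) (p : Prop) (hxy : p → x ≠ y) :
    ∑ w, dg (grow H x y p) w + 2 * dg H x = ∑ w, dg H w + if p then 2 else 0 := by
  have h1 := sum_congr (rfl : univ.erase x = univ.erase x)
    fun w hw => grow_pt H x y p (ne_of_mem_erase hw)
  rw [sum_add_distrib, sum_add_distrib] at h1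
  have h2 : ∑ w ∈ univ.erase x, (if H.Adj w x then 1 else 0) = dg H x := by
    rw [dg_eq, ← add_sum_erase univ _ (mem_univ x), if_neg (H.irrefl), zero_add]
    exact sum_congr rfl fun w _ => by simp only [H.adj_comm]
  have h3 := add_sum_erase univ (dg (grow H x y p)) (mem_univ x)
  have h4 := add_sum_erase univ (dg H) (mem_univ x)
  rw [grow_at] at h3
  by_cases hp : p
  · have h5 : ∑ w ∈ univ.erase x, (if p ∧ w = y then 1 else 0) = 1 := by
      simp [hp, (hxy hp).symm]
    rw [if_pos ⟨hp, hxy hp⟩] at h3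
    rw [if_pos hp]
    omega
  · have h5 : ∑ w ∈ univ.erase x, (if p ∧ w = y then 1 else 0) = 0 := by
      simp [hp]
    rw [if_neg fun e => hp e.1] at h3
    rw [if_neg hp]
    omega

theorem grow_rch {H : SimpleGraph V} {x y : V} {p : Prop} {Y : Finset V} {s t : V}
    (h : Rch (grow H x y p) Y s t) :
    Rch H Y (if s = x then y else s) (if t = x then y else t) := by
  induction h with
  | refl => exact Relation.ReflTransGen.refl
  | @tail a b _ hab ih =>
    obtain ⟨ha, hb, ⟨h1, h2, h3⟩ | ⟨-, h2, ⟨h3, h4⟩ | ⟨h3, h4⟩⟩⟩ := hab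
    · rw [if_neg h2] at ih
      rw [if_neg h3]
      exact ih.tail ⟨ha, hb, h1⟩
    · rw [if_pos h3] at ih
      rwa [h4, if_neg (Ne.symm h2)]
    · rw [h3, if_neg (Ne.symm h2)] at ih
      rwa [if_pos h4]

theorem edge_dg (H : SimpleGraph V) {u v : V} (huv : u ≠ v) (hn : ¬ H.Adj u v) (w : V) :
    dg (H ⊔ SimpleGraph.edge u v) w = dg H w + if w = u ∨ w = v then 1 else 0 := by
  have hn' : ¬ H.Adj v u := fun e => hn e.symm
  by_cases h1 : w = u
  · subst h1
    rw [dg_eq, dg_eq, one_eq v (w = w ∨ w = v), ← sum_add_distrib]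
    refine sum_congr rfl fun z _ => ?_
    by_cases hz : z = v
    · subst hz
      simp [SimpleGraph.edge_adj, hn, huv]
    · simp [SimpleGraph.edge_adj, hz, huv]
  · by_cases h2 : w = v
    · subst h2
      rw [dg_eq, dg_eq, one_eq u (w = u ∨ w = w), ← sum_add_distrib]
      refine sum_congr rfl fun z _ => ?_
      by_cases hz : z = u
      · subst hz
        simp [SimpleGraph.edge_adj, hn', h1]
      · simp [SimpleGraph.edge_adj, hz, h1]
    · rw [dg_eq, dg_eq]
      simp [SimpleGraph.edge_adj, h1, h2]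

theorem del_dg (H : SimpleGraph V) {u v : V} (h : H.Adj u v) (w : V) :
    dg (H.deleteEdges {s(u, v)}) w + (if w = u ∨ w = v then 1 else 0) = dg H w := by
  have e : H.deleteEdges {s(u, v)} ⊔ SimpleGraph.edge u v = H := by
    ext a b
    simp only [SimpleGraph.sup_adj, SimpleGraph.deleteEdges_adj, SimpleGraph.edge_adj,
      Set.mem_singleton_iff, Sym2.eq_iff]
    constructor
    · rintro (h' | ⟨⟨rfl, rfl⟩ | ⟨rfl, rfl⟩, -⟩)
      · exact h'.1
      · exact h
      · exact h.symm
    · intro h'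
      by_cases c : a = u ∧ b = v ∨ a = v ∧ b = u
      · exact Or.inr ⟨c, h'.ne⟩
      · exact Or.inl ⟨h', c⟩
  rw [← edge_dg _ h.ne (by simp) w, e]

theorem psi_eq {χ : V → ℕ} {H : SimpleGraph V} (h : ∀ x, dg H x ≤ 7) :
    Psi χ H + ∑ x, dg H x = 2 * (univ.filter fun x => χ x ≠ 0).card + 7 * Fintype.card V := by
  rw [Psi, add_assoc, ← sum_add_distrib, sum_congr rfl fun x _ => Nat.sub_add_cancel (h x)]
  simp [mul_comm]

end Pool.Agent.Lib.MP_f20cd2_co.AS
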