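import Pool.Agent.Lib.MP_f20cd2_co.AS.Lev

/-!
Moving one vertex.
-/

set_option autoImplicit false
set_option linter.unusedSectionVars false

namespace Pool.Agent.Lib.MP_f20cd2_co.AS

open Finset
open Pool.Agent.Lib.MP_f20cd2_co.H83 (Conn Cells)
open Pool.Agent.Lib.MP_f20cd2_co.PL
open scoped Classical

variable {V : Type} [Fintype V] [DecidableEq V] {G : SimpleGraph V}

variable {b : Base V} {nu : ℕ} {χ : V → ℕ} {H : SimpleGraph V}

namespace GrowBAux

lemma c_end {L : Lv V} {w : V} (hw : w = L.u ∨ w = L.v) : L.c b w = L.j := if_pos hw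

lemma c_mid {L : Lv V} {w : V} (hw : ¬ (w = L.u ∨ w = L.v)) : L.c b w = b.c0 w := if_neg hw

/-- An admissible vertex is not an attachment. -/
lemma a_ne {B P : Finset V} {L : Lv V} (h : LV G b nu χ H B P L) {x : V} (hx : L.adm x) {w : V}
    (hw : w ∈ L.T) (hc : L.c b w ≠ 0) : L.a w ≠ x := by
  intro e
  obtain ⟨-, h2, h3, -⟩ := h.att w hw hc
  rw [e] at h2 h3
  apply h.ne x hx.1
  by_cases hxe : x = L.u ∨ x = L.v
  · rw [h2, c_end hxe, c_end (hx.2 hxe w hw)]
  · rw [c_mid hxe, h2, h3]

/-- The number of coloured vertices, split at one vertex. -/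
lemma card_split (χ : V → ℕ) (x : V) :
    (univ.filter fun z => χ z ≠ 0).card =
      ((univ.erase x).filter fun z => χ z ≠ 0).card + if χ x ≠ 0 then 1 else 0 := by
  rw [card_filter, card_filter, ← sum_erase_add _ _ (mem_univ x)]

end GrowBAux

open GrowBAux

theorem grow_si {B P : Finset V} {L : Lv V} (hs : SI G b χ H) (h : LV G b nu χ H B P L) {x : V}
    (hx : L.adm x) (hc : L.c b x ≠ 0 → dg H (L.a x) < 7) :
    SI G b (Function.update χ x (L.c b x)) (grow H x (L.a x) (L.c b x ≠ 0)) := by
  refine ⟨?_, ?_, grow_acyclic hs.acy _ _ _, ?_, ?_, ?_⟩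
  · intro s t hst
    rcases grow_adj.1 hst with ⟨h1, -, -⟩ | ⟨hp, -, ⟨rfl, rfl⟩ | ⟨rfl, rfl⟩⟩
    · exact hs.le h1
    · exact (h.att _ hx.1 hp).1
    · exact (h.att _ hx.1 hp).1.symm
  · intro s t hst
    rcases grow_adj.1 hst with ⟨h1, h2, h3⟩ | ⟨hp, hne, ⟨e1, e2⟩ | ⟨e1, e2⟩⟩
    · rw [Function.update_of_ne h2, Function.update_of_ne h3]
      exact hs.mono s t h1
    · rw [e1, e2, Function.update_self, Function.update_of_ne hne.symm]
      exact ⟨(h.att _ hx.1 hp).2.1.symm, hp⟩
    · rw [e1, e2, Function.update_self, Function.update_of_ne hne.symm, (h.att _ hx.1 hp).2.1]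
      exact ⟨rfl, hp⟩
  · intro w
    by_cases hwx : w = x
    · rw [hwx]
      exact (grow_dg_x H x _ _).trans (by norm_num)
    · by_cases hq : L.c b x ≠ 0 ∧ w = L.a x
      · rw [hq.2]
        have h1 := grow_dg_y H x (L.a x) (L.c b x ≠ 0)
        have h2 := hc hq.1
        omega
      · exact (grow_dg_le H x _ _ hwx fun hp e => hq ⟨hp, e⟩).trans (hs.deg w)
  · intro w
    by_cases hwx : w = x
    · rw [hwx, Function.update_self]
      by_cases hp : L.c b x = 0
      · rw [hp]
        exact Nat.zero_le _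
      · rw [← (h.att _ hx.1 hp).2.1]
        exact hs.rng _
    · rw [Function.update_of_ne hwx]
      exact hs.rng w
  · intro Q hQ
    by_cases hxe : (x = L.u ∨ x = L.v) ∧ x ∈ Q
    · refine le_trans (card_le_card (t := {L.u, L.v}) ?_) card_le_two
      intro z hz
      rw [mem_filter] at hz
      rw [mem_insert, mem_singleton]
      by_cases hzx : z = x
      · rw [hzx]
        exact hxe.1
      · rw [Function.update_of_ne hzx] at hz
        rcases h.dev x hx.1 hxe.1 z ⟨Q, hQ, hxe.2, hz.1⟩ hz.2 with h1 | h1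
        · exact hx.2 hxe.1 z h1
        · exact h1
    · refine le_trans (card_le_card ?_) (hs.ctl Q hQ)
      intro z hz
      rw [mem_filter] at hz ⊢
      have hzx : z ≠ x := by
        intro e
        rw [e, Function.update_self] at hz
        exact hz.2 (c_mid fun h1 => hxe ⟨h1, hz.1⟩)
      rw [Function.update_of_ne hzx] at hz
      exact hz

theorem grow_psi {B P : Finset V} {L : Lv V} (hs : SI G b χ H) (h : LV G b nu χ H B P L) {x : V}
    (hx : L.adm x) (hd : dg H x ≤ 1) (hc : L.c b x ≠ 0 → dg H (L.a x) < 7) :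
    Psi (Function.update χ x (L.c b x)) (grow H x (L.a x) (L.c b x ≠ 0)) ≤ Psi χ H := by
  have h1 := psi_eq (χ := Function.update χ x (L.c b x)) (grow_si hs h hx hc).deg
  have h2 := psi_eq (χ := χ) hs.deg
  have h3 := grow_sum H x (L.a x) (L.c b x ≠ 0) fun hp => (a_ne h hx hx.1 hp).symm
  have h4 := card_split (Function.update χ x (L.c b x)) x
  have h5 := card_split χ x
  have h6 : ((univ.erase x).filter fun z => Function.update χ x (L.c b x) z ≠ 0) =
      (univ.erase x).filter fun z => χ z ≠ 0 :=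
    filter_congr fun z hz => by rw [Function.update_of_ne (ne_of_mem_erase hz)]
  rw [h6, Function.update_self] at h4
  have h7 : χ x = 0 → dg H x = 0 := fun h0 => by
    unfold dg
    rw [card_eq_zero, filter_eq_empty_iff]
    exact fun y _ hy => (hs.mono x y hy).2 h0
  by_cases hp : L.c b x ≠ 0 <;> by_cases h0 : χ x ≠ 0
  · rw [if_pos hp] at h3 h4
    rw [if_pos h0] at h5
    omega
  · rw [if_pos hp] at h3 h4
    rw [if_neg h0] at h5
    have := h7 (not_not.1 h0)
    omega
  · rw [if_neg hp] at h3 h4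
    rw [if_pos h0] at h5
    omega
  · rw [if_neg hp] at h3 h4
    rw [if_neg h0] at h5
    have := h7 (not_not.1 h0)
    omega

theorem grow_own {B P : Finset V} {L : Lv V} (h : LV G b nu χ H B P L) {x : V} (hx : L.adm x) :
    LV G b nu (Function.update χ x (L.c b x)) (grow H x (L.a x) (L.c b x ≠ 0)) B P
      { L with T := L.T.erase x, β := ∅ } := by
  have hst : ∀ w, w = L.u ∨ w = L.v →
      (if Lv.st { L with T := L.T.erase x, β := ∅ } w = x then L.a x
        else Lv.st { L with T := L.T.erase x, β := ∅ } w) = L.st w := by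
    intro w hw
    by_cases hwx : w = x
    · have e1 : Lv.st { L with T := L.T.erase x, β := ∅ } w = x := by
        rw [hwx]
        exact if_neg (notMem_erase x L.T)
      have e2 : L.st w = L.a x := by
        rw [hwx]
        exact if_pos hx.1
      rw [if_pos e1, e2]
    · have e1 : Lv.st { L with T := L.T.erase x, β := ∅ } w = L.st w := by
        by_cases hT : w ∈ L.T
        · exact (if_pos (mem_erase.2 ⟨hwx, hT⟩)).trans (if_pos hT).symm
        · exact (if_neg fun h1 => hT (mem_of_mem_erase h1)).trans (if_neg hT).symm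
      have e2 : L.st w ≠ x := by
        by_cases hT : w ∈ L.T
        · have e3 : L.st w = L.a w := if_pos hT
          rw [e3]
          refine a_ne h hx hT ?_
          rw [c_end hw]
          exact Nat.one_le_iff_ne_zero.1 h.j1
        · have e3 : L.st w = w := if_neg hT
          rw [e3]
          exact hwx
      rw [e1, if_neg e2]
  refine ⟨h.adj, h.j1, h.jr, ?_, ?_, ?_, ?_, ?_, ?_, ?_, Or.inl rfl, card_erase_le.trans h.card⟩
  · intro w hw
    obtain ⟨h1, h2⟩ := mem_erase.1 hw
    rw [Function.update_of_ne h1]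
    exact h.ne w h2
  · intro w hw hc
    obtain ⟨-, h2⟩ := mem_erase.1 hw
    have h3 : Function.update χ x (L.c b x) (L.a w) = χ (L.a w) :=
      Function.update_of_ne (a_ne h hx h2 hc) _ _
    obtain ⟨h4, h5, h6⟩ := h.att w h2 hc
    exact ⟨h4, h3.trans h5, h6⟩
  · intro w hw
    obtain ⟨h1, h2⟩ := mem_erase.1 hw
    obtain ⟨h3, h4, h5⟩ := h.far w h2
    refine ⟨h3, h4, fun y hy hadj => ?_⟩
    rcases grow_adj.1 hadj with ⟨h6, -, -⟩ | ⟨-, -, ⟨e1, -⟩ | ⟨-, e2⟩⟩
    · exact h5 y hy h6
    · exact h1 e1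
    · exact (h.far x hx.1).1 (e2 ▸ hy)
  · intro w hw
    exact h.nnear w (mem_of_mem_erase hw)
  · intro w hw
    by_cases hwx : w = x
    · right
      rw [hwx] at hw ⊢
      rw [Function.update_self]
      exact ⟨c_end hw, (h.far x hx.1).1⟩
    · rcases h.ends w hw with h1 | h1
      · exact Or.inl (mem_erase.2 ⟨hwx, h1⟩)
      · right
        rw [Function.update_of_ne hwx]
        exact h1
  · intro w hw he z hz hd
    by_cases hzx : z = x
    · right
      by_contra hn
      rw [hzx] at hd hn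
      rw [Function.update_self] at hd
      exact hd (c_mid hn)
    · rw [Function.update_of_ne hzx] at hd
      rcases h.dev w (mem_of_mem_erase hw) he z hz hd with h1 | h1
      · exact Or.inl (mem_erase.2 ⟨hzx, h1⟩)
      · exact Or.inr h1
  · intro hr
    have h1 := grow_rch hr
    apply h.sep
    rw [← hst L.u (Or.inl rfl), ← hst L.v (Or.inr rfl)]
    exact h1

end Pool.Agent.Lib.MP_f20cd2_co.AS
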