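import Pool.Agent.Lib.MP_f20cd2_co.AS.GrowB

/-!
The step that moves one vertex.
-/

set_option autoImplicit false
set_option linter.unusedSectionVars false

namespace Pool.Agent.Lib.MP_f20cd2_co.AS

open Finset
open Pool.Agent.Lib.MP_f20cd2_co.H83 (Conn Cells)
open Pool.Agent.Lib.MP_f20cd2_co.PL
open scoped Classical

variable {V : Type} [Fintype V] [DecidableEq V] {G : SimpleGraph V}

variable {b : Base V} {nu : ℕ} {χ : V → ℕ} {H : SimpleGraph V}

theorem grow_step {i : ℕ} {F : ℕ → Lv V} (h : Val G b nu χ H i F) {m : ℕ} (hm : m < i) {x : V}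
    (hx : (F m).adm x) (hd : dg H x ≤ 1) (hc : (F m).c b x ≠ 0 → dg H ((F m).a x) < 7) :
    Imp G b nu χ H i F := by
  have hl := h.lv m hm
  have hF : ∀ k < m, Function.update F m { F m with T := (F m).T.erase x, β := ∅ } k = F k :=
    fun k hk => Function.update_of_ne hk.ne _ _
  have xB : x ∉ Bs F m := (hl.far x hx.1).1
  have xP : ∀ k < m, ∀ w ∈ (F k).prot, w ≠ x := fun k hk w hw e =>
    (hl.far x hx.1).2.1 (mem_Ps.2 ⟨k, hk, e ▸ hw⟩)
  have aB : (F m).c b x ≠ 0 → (F m).a x ∉ Bs F m := fun hp => (hl.att x hx.1 hp).2.2.2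
  have hdg : ∀ k < m, ∀ y ∈ (F k).β,
      dg (grow H x ((F m).a x) ((F m).c b x ≠ 0)) y ≤ dg H y := fun k hk y hy =>
    have h1 : y ∈ Bs F m := mem_Bs.2 ⟨k, hk, hy⟩
    grow_dg_le H x _ _ (fun e => xB (e ▸ h1)) fun hp e => aB hp (e ▸ h1)
  refine ⟨Function.update χ x ((F m).c b x), grow H x ((F m).a x) ((F m).c b x ≠ 0), m + 1,
    Function.update F m { F m with T := (F m).T.erase x, β := ∅ }, hm,
    ⟨grow_si h.si hl hx hc, fun k hk => ?_⟩,
    Or.inr ⟨grow_psi h.si hl hx hd hc, m, Nat.lt_succ_self m, hm.le, fun k hk => ?_, fun _ => ?_⟩⟩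
  · have hk' : k ≤ m := Nat.lt_succ_iff.1 hk
    rw [Bs_congr fun k' h' => hF k' (h'.trans_le hk'), Ps_congr fun k' h' => hF k' (h'.trans_le hk')]
    rcases hk'.lt_or_eq with hk' | rfl
    · have hk2 := h.lv k (hk'.trans hm)
      rw [hF k hk']
      refine hk2.keep (fun w hw => Function.update_of_ne (xP k hk' w hw) _ _) (fun z hz => ?_)
        (fun y hy w ha => ?_) (hdg k hk') fun hr => ?_
      · by_cases e : z = x
        · subst e
          rw [Function.update_self] at hz
          by_cases he : z = (F m).u ∨ z = (F m).v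
          · exact Or.inr fun p hp => hl.nnear z hx.1 he p (mem_Ps.2 ⟨k, hk', hp⟩)
          · exact (hz (if_neg he)).elim
        · rw [Function.update_of_ne e] at hz
          exact Or.inl hz
      · obtain ⟨k', h1, h2⟩ := mem_Bs.1 hy
        have h3 : y ∈ Bs F m := mem_Bs.2 ⟨k', h1.trans hk', h2⟩
        rcases grow_adj.1 ha with h4 | ⟨hp, -, ⟨-, e⟩ | ⟨-, e⟩⟩
        · exact h4.1
        · exact (aB hp (e ▸ h3)).elim
        · exact (xB (e ▸ h3)).elim
      · have h1 := grow_rch hr
        rw [if_neg (xP k hk' _ (hk2.st_mem (Or.inl rfl))),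
          if_neg (xP k hk' _ (hk2.st_mem (Or.inr rfl)))] at h1
        exact hk2.sep h1
    · rw [Function.update_self]
      exact grow_own hl hx
  · rw [hF k hk]
    exact Nat.add_le_add_left (sum_le_sum (hdg k hk)) _
  · rw [Function.update_self]
    have h1 := card_erase_add_one hx.1
    simp only [Lv.phi, card_empty, sum_empty]
    omega

end Pool.Agent.Lib.MP_f20cd2_co.AS
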