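import Pool.Agent.Lib.MP_f20cd2_co.AS.Defs

/-!
A counting form of the local lemma.
-/

set_option autoImplicit false
set_option linter.unusedSectionVars false

namespace Pool.Agent.Lib.MP_f20cd2_co.AS

open Finset
open Pool.Agent.Lib.MP_f20cd2_co.H83 (Conn Cells)
open Pool.Agent.Lib.MP_f20cd2_co.PL
open scoped Classical

variable {V : Type} [Fintype V] [DecidableEq V] {G : SimpleGraph V}

namespace LLLAux

theorem mem_pat {M : ℕ} {X : Finset V} {f : V → ℕ} :
    f ∈ pat M X ↔ (∀ v ∈ X, f v < M) ∧ ∀ v, v ∉ X → f v = 0 := by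
  simp only [pat, Fintype.mem_piFinset]
  constructor
  · intro h
    refine ⟨fun v hv => ?_, fun v hv => ?_⟩
    · have := h v
      rwa [if_pos hv, mem_range] at this
    · have := h v
      rwa [if_neg hv, mem_singleton] at this
  · rintro ⟨h1, h2⟩ v
    by_cases hv : v ∈ X
    · rw [if_pos hv, mem_range]; exact h1 v hv
    · rw [if_neg hv, mem_singleton]; exact h2 v hv

/-- Restriction of a colouring. -/
def res (X : Finset V) (f : V → ℕ) : V → ℕ := fun v => if v ∈ X then f v else 0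

theorem res_pos {X : Finset V} (f : V → ℕ) {v : V} (hv : v ∈ X) : res X f v = f v := if_pos hv

theorem res_mem {M : ℕ} {X Y : Finset V} {f : V → ℕ} (hf : f ∈ pat M Y) (hX : X ⊆ Y) :
    res X f ∈ pat M X :=
  mem_pat.2 ⟨fun v hv => by rw [res_pos f hv]; exact (mem_pat.1 hf).1 v (hX hv),
    fun _ hv => if_neg hv⟩

theorem pow_le_three {g k : ℕ} (hg : 0 < g) (hk : k ≤ g) : (g + 1) ^ k ≤ 3 * g ^ k := by
  have hg' : (0 : ℝ) < g := by exact_mod_cast hg
  have h1 : ((g : ℝ) + 1) ≤ g * Real.exp (1 / g) := by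
    have := Real.add_one_le_exp (1 / (g : ℝ))
    calc ((g : ℝ) + 1) = g * (1 / g + 1) := by field_simp; ring
      _ ≤ _ := mul_le_mul_of_nonneg_left this hg'.le
  have h2 : Real.exp (1 / (g : ℝ)) ^ k ≤ 3 := by
    rw [← Real.exp_nat_mul]
    have : (k : ℝ) * (1 / g) ≤ 1 := by
      rw [mul_one_div, div_le_one hg']; exact_mod_cast hk
    exact (Real.exp_le_exp.2 this).trans (Real.exp_one_lt_d9.le.trans (by norm_num))
  have h3 : ((g : ℝ) + 1) ^ k ≤ 3 * (g : ℝ) ^ k := by
    calc ((g : ℝ) + 1) ^ k ≤ (g * Real.exp (1 / g)) ^ k := pow_le_pow_left₀ (by positivity) h1 k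
      _ = (g : ℝ) ^ k * Real.exp (1 / g) ^ k := mul_pow _ _ _
      _ ≤ (g : ℝ) ^ k * 3 := mul_le_mul_of_nonneg_left h2 (by positivity)
      _ = _ := mul_comm _ _
  exact_mod_cast h3

section
variable {ι : Type} (M : ℕ) (I : Finset ι) (S : ι → Finset V) (bad : ι → (V → ℕ) → Prop)

/-- Colourings of `Y` that are good for all events inside `X`. -/
noncomputable def A (X Y : Finset V) : Finset (V → ℕ) :=
  (pat M Y).filter fun f => ∀ i ∈ I, S i ⊆ X → ¬ bad i f

variable {M I S bad}

theorem mem_A {X Y : Finset V} {f : V → ℕ} :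
    f ∈ A M I S bad X Y ↔ f ∈ pat M Y ∧ ∀ i ∈ I, S i ⊆ X → ¬ bad i f := by
  simp only [A, mem_filter]

theorem ext_le (hdep : ∀ i ∈ I, ∀ f f' : V → ℕ, (∀ v ∈ S i, f v = f' v) → bad i f → bad i f')
    {X : Finset V} {v : V} (hv : v ∉ X) :
    M * (A M I S bad X X).card ≤ (A M I S bad X (insert v X)).card := by
  have : M * (A M I S bad X X).card = (range M ×ˢ A M I S bad X X).card := by
    rw [card_product, card_range]
  rw [this]
  refine card_le_card_of_injOn (fun p => Function.update p.2 v p.1) ?_ ?_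
  · rintro ⟨c, f⟩ hp
    obtain ⟨hc, hf⟩ := mem_product.1 (mem_coe.1 hp)
    obtain ⟨hf1, hf2⟩ := mem_A.1 hf
    obtain ⟨h1, h2⟩ := mem_pat.1 hf1
    refine mem_coe.2 (mem_A.2 ⟨mem_pat.2 ⟨fun w hw => ?_, fun w hw => ?_⟩, fun i hi hX hb => ?_⟩)
    · by_cases e : w = v
      · subst e
        simpa using hc
      · simp only [Function.update_of_ne e]
        exact h1 w ((mem_insert.1 hw).resolve_left e)
    · have e : w ≠ v := fun e => hw (e ▸ mem_insert_self _ _)
      simp only [Function.update_of_ne e]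
      exact h2 w fun h => hw (mem_insert_of_mem h)
    · refine hf2 i hi hX (hdep i hi _ _ (fun w hw => ?_) hb)
      have e : w ≠ v := fun e => hv (e ▸ hX hw)
      simp only [Function.update_of_ne e]
  · rintro ⟨c, f⟩ hp ⟨c', f'⟩ hp' e
    have hf := (mem_pat.1 (mem_A.1 (mem_product.1 (mem_coe.1 hp)).2).1).2 v hv
    have hf' := (mem_pat.1 (mem_A.1 (mem_product.1 (mem_coe.1 hp')).2).1).2 v hv
    refine Prod.ext ?_ (funext fun w => ?_)
    · simpa using congrFun e v
    · by_cases h : w = v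
      · subst h
        exact hf.trans hf'.symm
      · simpa [Function.update_of_ne h] using congrFun e w

theorem bad_le (hdep : ∀ i ∈ I, ∀ f f' : V → ℕ, (∀ v ∈ S i, f v = f' v) → bad i f → bad i f')
    {X : Finset V} {v : V} {i : ι} (hi : i ∈ I) (hS : S i ⊆ insert v X) (hvS : v ∈ S i) :
    ((A M I S bad X (insert v X)).filter (bad i)).card ≤
      ((pat M (S i)).filter (bad i)).card * (A M I S bad (X \ S i) (X \ S i)).card := by
  rw [← card_product]
  refine card_le_card_of_injOn (fun f => (res (S i) f, res (X \ S i) f)) ?_ ?_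
  · intro f hf
    obtain ⟨hf1, hb⟩ := mem_filter.1 (mem_coe.1 hf)
    obtain ⟨hf2, hf3⟩ := mem_A.1 hf1
    refine mem_coe.2 (mem_product.2 ⟨mem_filter.2 ⟨res_mem hf2 hS, ?_⟩,
      mem_A.2 ⟨res_mem hf2 (sdiff_subset.trans (subset_insert _ _)), fun j hj hX hb' => ?_⟩⟩)
    · exact hdep i hi _ _ (fun w hw => (res_pos f hw).symm) hb
    · exact hf3 j hj (hX.trans sdiff_subset) (hdep j hj _ _ (fun w hw => res_pos f (hX hw)) hb')
  · intro f hf f' hf' e
    have h1 := (mem_pat.1 (mem_A.1 (mem_filter.1 (mem_coe.1 hf)).1).1).2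
    have h2 := (mem_pat.1 (mem_A.1 (mem_filter.1 (mem_coe.1 hf')).1).1).2
    funext w
    by_cases hw : w ∈ S i
    · have := congrFun (congrArg Prod.fst e) w
      simpa only [res_pos _ hw] using this
    · by_cases hX : w ∈ X
      · have := congrFun (congrArg Prod.snd e) w
        simpa only [res_pos _ (mem_sdiff.2 ⟨hX, hw⟩)] using this
      · have : w ∉ insert v X := fun h =>
          (mem_insert.1 h).elim (fun e => hw (e ▸ hvS)) hX
        rw [h1 w this, h2 w this]

theorem cover (X : Finset V) (v : V) :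
    (A M I S bad X (insert v X)).card ≤ (A M I S bad (insert v X) (insert v X)).card +
      ∑ i ∈ I.filter (fun i => v ∈ S i ∧ S i ⊆ insert v X),
        ((A M I S bad X (insert v X)).filter (bad i)).card := by
  refine le_trans (card_le_card ?_) ((card_union_le _ _).trans
    (Nat.add_le_add_left card_biUnion_le _))
  intro f hf
  by_cases h : f ∈ A M I S bad (insert v X) (insert v X)
  · exact mem_union_left _ h
  · refine mem_union_right _ ?_
    obtain ⟨h1, h2⟩ := mem_A.1 hf
    have h3 : ¬ ∀ i ∈ I, S i ⊆ insert v X → ¬ bad i f := fun h' => h (mem_A.2 ⟨h1, h'⟩)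
    push Not at h3
    obtain ⟨i, hi, hS, hb⟩ := h3
    refine mem_biUnion.2 ⟨i, mem_filter.2 ⟨hi, ?_, hS⟩, mem_filter.2 ⟨hf, hb⟩⟩
    by_contra hv
    exact h2 i hi (fun w hw => (mem_insert.1 (hS hw)).resolve_left fun e => hv (e ▸ hw)) hb

/-- Iteration of the growth bound. -/
theorem iter {a b : ℕ} (c : Finset V → ℕ) (X : Finset V)
    (h : ∀ Z : Finset V, Z.card < X.card → ∀ v, v ∉ Z → a * c Z ≤ b * c (insert v Z))
    (Y : Finset V) (hY : Y ⊆ X) : a ^ Y.card * c (X \ Y) ≤ b ^ Y.card * c X := by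
  induction Y using Finset.induction_on with
  | empty => simp
  | insert y Y hy ih =>
    have hyX : y ∈ X := hY (mem_insert_self _ _)
    have e : X \ Y = insert y (X \ insert y Y) := by
      ext w
      simp only [mem_sdiff, mem_insert, not_or]
      constructor
      · rintro ⟨h1, h2⟩
        by_cases e : w = y
        · exact Or.inl e
        · exact Or.inr ⟨h1, e, h2⟩
      · rintro (rfl | ⟨h1, -, h2⟩)
        · exact ⟨hyX, hy⟩
        · exact ⟨h1, h2⟩
    have h1 := h (X \ insert y Y) (card_lt_card ⟨sdiff_subset, fun h' =>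
      (mem_sdiff.1 (h' hyX)).2 (mem_insert_self _ _)⟩) y
      (fun h' => (mem_sdiff.1 h').2 (mem_insert_self _ _))
    rw [← e] at h1
    have h2 := ih ((subset_insert _ _).trans hY)
    rw [card_insert_of_notMem hy]
    calc a ^ (Y.card + 1) * c (X \ insert y Y) = a ^ Y.card * (a * c (X \ insert y Y)) := by ring
      _ ≤ a ^ Y.card * (b * c (X \ Y)) := Nat.mul_le_mul_left _ h1
      _ = b * (a ^ Y.card * c (X \ Y)) := by ring
      _ ≤ b * (b ^ Y.card * c X) := Nat.mul_le_mul_left _ h2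
      _ = _ := by ring

theorem growth {g D P : ℕ} (hM : 0 < M) (hg : 0 < g)
    (hdep : ∀ i ∈ I, ∀ f f' : V → ℕ, (∀ v ∈ S i, f v = f' v) → bad i f → bad i f')
    (hS : ∀ i ∈ I, (S i).card ≤ g) (hD : ∀ v, (I.filter fun i => v ∈ S i).card ≤ D)
    (hP : ∀ i ∈ I, P * ((pat M (S i)).filter (bad i)).card ≤ M ^ (S i).card) (h2 : 2 ≤ P)
    (h : 3 * D * (g + 1) ≤ P) (n : ℕ) : ∀ X : Finset V, X.card = n → ∀ v, v ∉ X →
      g * M * (A M I S bad X X).card ≤ (g + 1) * (A M I S bad (insert v X) (insert v X)).card := by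
  induction n using Nat.strong_induction_on with
  | _ n ih =>
    intro X hX v hv
    have hit := iter (a := g * M) (b := g + 1) (fun Z => (A M I S bad Z Z).card) X
      (fun Z hZ w hw => ih Z.card (hX ▸ hZ) Z rfl w hw)
    set c := (A M I S bad X X).card with hc
    have key : ∀ i ∈ I.filter (fun i => v ∈ S i ∧ S i ⊆ insert v X),
        P * ((A M I S bad X (insert v X)).filter (bad i)).card ≤ 3 * (M * c) := by
      intro i hi
      obtain ⟨hi, hvS, hSX⟩ := mem_filter.1 hi
      have hY : (S i).erase v ⊆ X := fun w hw =>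
        (mem_insert.1 (hSX (mem_of_mem_erase hw))).resolve_left (ne_of_mem_erase hw)
      have e : X \ (S i).erase v = X \ S i := by
        ext w
        simp only [mem_sdiff, mem_erase, not_and]
        exact ⟨fun h => ⟨h.1, h.2 fun e => hv (e ▸ h.1)⟩, fun h => ⟨h.1, fun _ => h.2⟩⟩
      have h1 := hit _ hY
      rw [e] at h1
      have hk : (S i).card = ((S i).erase v).card + 1 := (card_erase_add_one hvS).symm
      set k := ((S i).erase v).card
      have h3 := pow_le_three hg (k := k) (by have := hS i hi; omega)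
      have h4 := hP i hi
      rw [hk] at h4
      have h5 := bad_le (M := M) hdep hi hSX hvS
      set x := ((A M I S bad X (insert v X)).filter (bad i)).card
      set y := ((pat M (S i)).filter (bad i)).card
      set z := (A M I S bad (X \ S i) (X \ S i)).card
      refine Nat.le_of_mul_le_mul_left (c := (g * M) ^ k) ?_ (by positivity)
      calc (g * M) ^ k * (P * x) ≤ (g * M) ^ k * (P * (y * z)) := by gcongr
        _ = (P * y) * ((g * M) ^ k * z) := by ring
        _ ≤ M ^ (k + 1) * ((g + 1) ^ k * c) := Nat.mul_le_mul h4 h1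
        _ ≤ M ^ (k + 1) * (3 * g ^ k * c) := by gcongr
        _ = _ := by ring
    set T := ∑ i ∈ I.filter (fun i => v ∈ S i ∧ S i ⊆ insert v X),
      ((A M I S bad X (insert v X)).filter (bad i)).card with hT
    have h1 : P * T ≤ D * (3 * (M * c)) := by
      rw [hT, mul_sum]
      refine (sum_le_card_nsmul _ _ _ key).trans ?_
      rw [smul_eq_mul]
      refine Nat.mul_le_mul_right _ (le_trans (card_le_card ?_) (hD v))
      intro i hi
      exact mem_filter.2 ⟨(mem_filter.1 hi).1, (mem_filter.1 hi).2.1⟩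
    have h3 : (g + 1) * T ≤ M * c := by
      refine Nat.le_of_mul_le_mul_left (c := P) ?_ (by omega)
      calc P * ((g + 1) * T) = (g + 1) * (P * T) := by ring
        _ ≤ (g + 1) * (D * (3 * (M * c))) := Nat.mul_le_mul_left _ h1
        _ = 3 * D * (g + 1) * (M * c) := by ring
        _ ≤ _ := Nat.mul_le_mul_right _ h
    have h4 := (ext_le (M := M) hdep hv).trans (cover X v)
    rw [← hc, ← hT] at h4
    have h5 := Nat.mul_le_mul_left (g + 1) h4
    nlinarith

end

end LLLAux

open LLLAux in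
theorem lll {ι : Type} (M g D P : ℕ) (hM : 0 < M) (I : Finset ι) (S : ι → Finset V)
    (bad : ι → (V → ℕ) → Prop)
    (hdep : ∀ i ∈ I, ∀ f f' : V → ℕ, (∀ v ∈ S i, f v = f' v) → bad i f → bad i f')
    (hS : ∀ i ∈ I, (S i).card ≤ g) (hD : ∀ v, (I.filter fun i => v ∈ S i).card ≤ D)
    (hP : ∀ i ∈ I, P * ((pat M (S i)).filter (bad i)).card ≤ M ^ (S i).card) (h2 : 2 ≤ P)
    (h : 3 * D * (g + 1) ≤ P) : ∃ f : V → ℕ, (∀ v, f v < M) ∧ ∀ i ∈ I, ¬ bad i f := by
  have h0 : ∀ i ∈ I, S i ⊆ ∅ → ¬ bad i fun _ => 0 := by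
    intro i hi hS hb
    have h1 := hP i hi
    have h3 : 0 < ((pat M (S i)).filter (bad i)).card :=
      card_pos.2 ⟨_, mem_filter.2 ⟨mem_pat.2 ⟨fun _ _ => hM, fun _ _ => rfl⟩, hb⟩⟩
    rw [subset_empty.1 hS, card_empty, pow_zero] at h1
    rw [subset_empty.1 hS] at h3
    nlinarith
  rcases Nat.eq_zero_or_pos g with rfl | hg
  · exact ⟨fun _ => 0, fun _ => hM, fun i hi =>
      h0 i hi (card_eq_zero.1 (Nat.le_zero.1 (hS i hi))).subset⟩
  have h1 := iter (a := g * M) (b := g + 1) (fun Z => (A M I S bad Z Z).card) univ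
    (fun Z _ w hw => growth hM hg hdep hS hD hP h2 h _ Z rfl w hw) univ Subset.rfl
  rw [sdiff_self, bot_eq_empty] at h1
  have h3 : 0 < (A M I S bad ∅ ∅).card :=
    card_pos.2 ⟨_, mem_A.2 ⟨mem_pat.2 ⟨fun _ _ => hM, fun _ _ => rfl⟩, h0⟩⟩
  have h4 : 0 < (A M I S bad univ univ).card :=
    Nat.pos_of_mul_pos_left (lt_of_lt_of_le (by positivity) h1)
  obtain ⟨f, hf⟩ := card_pos.1 h4
  obtain ⟨h5, h6⟩ := mem_A.1 hf
  exact ⟨f, fun v => (mem_pat.1 h5).1 v (mem_univ v), fun i hi => h6 i hi (subset_univ _)⟩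

end Pool.Agent.Lib.MP_f20cd2_co.AS
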