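import Pool.Agent.Lib.MP_f20cd2_co.AS.Defs

/-!
Cutting parts out of one tree.
-/

set_option autoImplicit false
set_option linter.unusedSectionVars false

namespace Pool.Agent.Lib.MP_f20cd2_co.AS

open Finset
open Pool.Agent.Lib.MP_f20cd2_co.H83 (Conn Cells)
open Pool.Agent.Lib.MP_f20cd2_co.PL
open scoped Classical

variable {V : Type} [Fintype V] [DecidableEq V] {G : SimpleGraph V}

namespace LaneAux

/-- A subtree whose mass lies between `x` and `9 x`. -/
theorem cutv {ρ : V} {par : V → V} {rk : V → ℕ} {A : Finset V} (hT : RTree A ρ par rk 7)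
    (μ : V → ℕ) (x : ℕ) (hμ : ∀ v ∈ A, μ v ≤ 2 * x) (hx : x ≤ ∑ v ∈ A, μ v) :
    ∃ v ∈ A, x ≤ ∑ u ∈ sub A ρ par v, μ u ∧ ∑ u ∈ sub A ρ par v, μ u ≤ 9 * x := by
  obtain ⟨v, hv, hmax⟩ := exists_max_image (A.filter fun v => x ≤ ∑ u ∈ sub A ρ par v, μ u) rk
    ⟨ρ, mem_filter.2 ⟨hT.root, by rw [hT.sub_root]; exact hx⟩⟩
  obtain ⟨hvA, hva⟩ := mem_filter.1 hv
  refine ⟨v, hvA, hva, ?_⟩
  have h2 : ∑ c ∈ ch A ρ par v, ∑ u ∈ sub A ρ par c, μ u ≤ (ch A ρ par v).card * x := by
    rw [← smul_eq_mul]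
    refine sum_le_card_nsmul _ _ _ fun c hc => ?_
    obtain ⟨c1, c2, c3⟩ := mem_ch.1 hc
    by_contra hcon
    have h3 := hmax c (mem_filter.2 ⟨c1, by omega⟩)
    have h4 := hT.lt c c1 c2
    rw [c3] at h4
    omega
  have h3 : (ch A ρ par v).card * x ≤ 7 * x := Nat.mul_le_mul_right _ (hT.ch_card v)
  have h4 := hμ v hvA
  rw [hT.sum_sub hvA μ]
  omega

/-- What is left after a subtree is removed. -/
theorem rest {ρ : V} {par : V → V} {rk : V → ℕ} {A : Finset V} {Δ : ℕ} (hT : RTree A ρ par rk Δ)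
    {v : V} (hr : ρ ∉ sub A ρ par v) : RTree (A \ sub A ρ par v) ρ par rk Δ := by
  refine ⟨mem_sdiff.2 ⟨hT.root, hr⟩, fun u hu hne => ?_,
    fun u hu hne => hT.lt u (mem_sdiff.1 hu).1 hne, fun u => le_trans (card_le_card ?_) (hT.deg u)⟩
  · obtain ⟨h1, h2⟩ := mem_sdiff.1 hu
    exact mem_sdiff.2 ⟨hT.mem u h1 hne, fun h3 => h2 (mem_sub_of_par h1 hne h3)⟩
  · intro x hx
    simp only [mem_filter, mem_sdiff] at hx ⊢
    exact ⟨hx.1.1, hx.2⟩

theorem wpack_empty {ι : Type} (w : V → ℕ) (A : Finset V) (a : ι → ℕ) :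
    WPack G w A ∅ a fun _ => ∅ :=
  ⟨fun _ h => absurd h (notMem_empty _), fun _ h => absurd h (notMem_empty _)⟩

theorem wpack_mono {ι : Type} {w : V → ℕ} {A B : Finset V} {I : Finset ι} {a : ι → ℕ}
    {p : ι → Finset V} (h : WPack G w A I a p) (hAB : A ⊆ B) : WPack G w B I a p :=
  ⟨fun i hi => ⟨(h.1 i hi).1.trans hAB, (h.1 i hi).2⟩, h.2⟩

theorem wpack_insert {ι : Type} [DecidableEq ι] {w : V → ℕ} {A B Q : Finset V} {I : Finset ι}
    {a : ι → ℕ} {p : ι → Finset V} (h : WPack G w A I a p) (hAB : A ⊆ B) (i : ι) (hQ : Q ⊆ B)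
    (hd : Disjoint Q A) (hw : ∑ v ∈ Q, w v = a i) (hc : Conn G Q) :
    WPack G w B (insert i I) a fun j => if j = i then Q else p j := by
  have hdis : ∀ j ∈ I, Disjoint Q (p j) := fun j hj => hd.mono_right (h.1 j hj).1
  refine ⟨fun j hj => ?_, fun j hj k hk hjk => ?_⟩
  · by_cases hji : j = i
    · subst hji
      simp only [if_true]
      exact ⟨hQ, hw, hc⟩
    · simp only [if_neg hji]
      obtain ⟨h1, h2, h3⟩ := h.1 j ((mem_insert.1 hj).resolve_left hji)
      exact ⟨h1.trans hAB, h2, h3⟩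
  · by_cases hji : j = i
    · have hki : k ≠ i := fun h => hjk (hji.trans h.symm)
      simp only [if_pos hji, if_neg hki]
      exact hdis k ((mem_insert.1 hk).resolve_left hki)
    · have hj' := (mem_insert.1 hj).resolve_left hji
      by_cases hki : k = i
      · simp only [if_neg hji, if_pos hki]
        exact (hdis j hj').symm
      · simp only [if_neg hji, if_neg hki]
        exact h.2 j hj' k ((mem_insert.1 hk).resolve_left hki) hjk

end LaneAux

theorem lane {ι : Type} [DecidableEq ι] (w : V → ℕ) (K s : ℕ) (π : V → V) (a : ι → ℕ)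
    {ρ : V} {par : V → V} {rk : V → ℕ} {A : Finset V} (hT : RTree A ρ par rk 7)
    (hadj : ∀ v ∈ A, v ≠ ρ → G.Adj v (par v)) (F : Finset V) (hFA : Disjoint F A)
    (hw : ∀ v ∈ A, w v ≤ K) (hF : ∀ v ∈ F, w v = 1 ∧ π v ∈ A ∧ G.Adj v (π v))
    (hload : ∀ y, (F.filter fun v => π v = y).card ≤ K) (I : Finset ι)
    (ha : ∀ i ∈ I, K < a i ∧ a i ≤ s) :
    ∃ I' ⊆ I, ∃ p, WPack G w (A ∪ F) I' a p ∧
      (I' = I ∨ F.card ≤ 9 * (∑ i ∈ I', a i + ∑ v ∈ A, w v) + s) := by
  induction hn : A.card using Nat.strong_induction_on generalizing A F I with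
  | _ n ih =>
    rcases I.eq_empty_or_nonempty with rfl | ⟨i, hi⟩
    · exact ⟨∅, Subset.refl _, _, LaneAux.wpack_empty w _ a, Or.inl rfl⟩
    obtain ⟨hKi, his⟩ := ha i hi
    have hμ : ∀ S : Finset V, ∑ u ∈ S, (w u + (F.filter fun v => π v = u).card) =
        ∑ u ∈ S, w u + (F.filter fun v => π v ∈ S).card := fun S => by
      rw [sum_add_distrib, sum_card_fiberwise_eq_card_filter]
    by_cases hx : a i ≤ ∑ u ∈ A, (w u + (F.filter fun v => π v = u).card)
    swap
    · by_cases hF0 : F.card ≤ s + ∑ v ∈ A, w v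
      · exact ⟨∅, empty_subset _, _, LaneAux.wpack_empty w _ a, Or.inr (by omega)⟩
      · rw [hμ, filter_true_of_mem fun v hv => (hF v hv).2.1] at hx
        omega
    obtain ⟨v, hvA, h1, h2⟩ := LaneAux.cutv hT _ (a i)
      (fun u hu => by have := hw u hu; have := hload u; omega) hx
    rw [hμ] at h1 h2
    obtain ⟨S, hS⟩ : ∃ S, S = sub A ρ par v := ⟨_, rfl⟩
    have hSA : S ⊆ A := fun u hu => (mem_sub.1 (hS ▸ hu)).1
    have hvS : v ∈ S := hS ▸ self_mem_sub hvA
    have hconn : Conn G S := by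
      refine conn_of_rank _ v hvS rk fun u hu hne => ?_
      obtain ⟨h1, h2⟩ := hT.par_mem_sub (hS ▸ hu) hne
      exact ⟨par u, hS ▸ h2, hadj u (hSA hu) h1, hT.lt u (hSA hu) h1⟩
    rw [← hS] at h1 h2
    have hsplit := card_filter_add_card_filter_not (s := F) fun v => π v ∈ S
    have hws := sum_sdiff (f := w) hSA
    have hrest : ∀ J ⊆ I, ∃ I' ⊆ J, ∃ p, WPack G w ((A \ S) ∪ F.filter fun v => π v ∉ S) I' a p ∧
        (I' = J ∨ (F.filter fun v => π v ∉ S).card ≤
          9 * (∑ i ∈ I', a i + ∑ v ∈ A \ S, w v) + s) := by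
      intro J hJ
      by_cases hr : ρ ∈ sub A ρ par v
      · have hrv : ρ = v := by
          by_contra hne
          exact (hT.par_mem_sub hr hne).1 rfl
        refine ⟨∅, empty_subset _, _, LaneAux.wpack_empty w _ a, Or.inr ?_⟩
        rw [filter_false_of_mem, card_empty]
        · exact Nat.zero_le _
        · intro u hu
          rw [hS, ← hrv, hT.sub_root]
          exact not_not.2 (hF u hu).2.1
      · refine ih (A \ S).card ?_ (hS ▸ LaneAux.rest hT hr)
          (fun u hu hne => hadj u (mem_sdiff.1 hu).1 hne) _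
          (hFA.mono (filter_subset _ _) sdiff_subset) (fun u hu => hw u (mem_sdiff.1 hu).1)
          (fun u hu => ?_) (fun y => le_trans (card_le_card ?_) (hload y)) J
          (fun j hj => ha j (hJ hj)) rfl
        · rw [← hn]
          exact card_lt_card ⟨sdiff_subset, fun h => (mem_sdiff.1 (h hvA)).2 hvS⟩
        · obtain ⟨h3, h4⟩ := mem_filter.1 hu
          obtain ⟨h5, h6, h7⟩ := hF u h3
          exact ⟨h5, mem_sdiff.2 ⟨h6, h4⟩, h7⟩
        · exact filter_subset_filter _ (filter_subset _ _)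
    have hsub : ((A \ S) ∪ F.filter fun v => π v ∉ S) ⊆ A ∪ F :=
      union_subset_union sdiff_subset (filter_subset _ _)
    by_cases hwS : ∑ u ∈ S, w u ≤ a i
    · obtain ⟨Q, hQ, hQc⟩ := exists_subset_card_eq (s := F.filter fun v => π v ∈ S)
        (n := a i - ∑ u ∈ S, w u) (by omega)
      have hQF : Q ⊆ F := hQ.trans (filter_subset _ _)
      obtain ⟨I', hI', p, hp, hor⟩ := hrest (I.erase i) (erase_subset _ _)
      have hiI : i ∉ I' := fun h => (mem_erase.1 (hI' h)).1 rfl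
      refine ⟨insert i I', insert_subset hi (hI'.trans (erase_subset _ _)), _,
        LaneAux.wpack_insert hp hsub i (union_subset_union hSA hQF) ?_ ?_
          (conn_attach hconn Q fun u hu => ⟨π u, (mem_filter.1 (hQ hu)).2, (hF u (hQF hu)).2.2⟩),
        hor.imp (fun h => by rw [h, insert_erase hi]) fun h => ?_⟩
      · refine disjoint_left.2 fun u hu hu' => ?_
        rcases mem_union.1 hu with h3 | h3 <;> rcases mem_union.1 hu' with h4 | h4
        · exact (mem_sdiff.1 h4).2 h3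
        · exact disjoint_left.1 hFA (mem_filter.1 h4).1 (hSA h3)
        · exact disjoint_left.1 hFA (hQF h3) (mem_sdiff.1 h4).1
        · exact (mem_filter.1 h4).2 (mem_filter.1 (hQ h3)).2
      · rw [sum_union (hFA.mono hQF hSA).symm,
          sum_congr rfl fun u hu => (hF u (hQF hu)).1, sum_const, smul_eq_mul, mul_one, hQc]
        omega
      · rw [sum_insert hiI]
        omega
    · obtain ⟨I', hI', p, hp, hor⟩ := hrest I (Subset.refl _)
      exact ⟨I', hI', p, LaneAux.wpack_mono hp hsub, hor.imp_right fun h => by omega⟩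

end Pool.Agent.Lib.MP_f20cd2_co.AS
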