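import Pool.Agent.Lib.MP_f20cd2_co.AS.Base
import Pool.Agent.Lib.MP_f20cd2_co.AS.Exch

/-!
Disjoint connected dominating sets.
-/

set_option autoImplicit false
set_option linter.unusedSectionVars false

namespace Pool.Agent.Lib.MP_f20cd2_co.AS

open Finset
open Pool.Agent.Lib.MP_f20cd2_co.H83 (Conn Cells)
open Pool.Agent.Lib.MP_f20cd2_co.PL
open scoped Classical

variable {V : Type} [Fintype V] [DecidableEq V] {G : SimpleGraph V}

theorem lanes [Nonempty V] {κ : Type} [DecidableEq κ] (M L r : ℕ) (hr : r < M) (hL : 0 < L)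
    (hP : 3 * (6 * (M * L) * r + 1) * (M * L + 1) ≤ 2 ^ L) (grp : V → κ)
    (hg : ∀ y, (univ.filter fun v => grp v = y).card ≤ M * L)
    (hE : Expd G ((2 * (3 * (M * L)) : ℕ) : ℝ)) {t : ℝ} (hT : RT G univ t)
    (ht : ((2 * r * Cst (6 * (M * L)) (19 * (M * L)) : ℕ) : ℝ) < t) :
    ∃ (D : ℕ → Finset V) (π : ℕ → V → V), Lanes G r (6 * (M * L)) D π ∧
      ∀ y, (((range r).biUnion D).filter fun v => grp v = y).card ≤ (2 * r + 1) * L + 2 := by
  obtain ⟨b, hbr, hb, hK⟩ := base (G := G) M L r hr hL hP grp hg hE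
  obtain ⟨χ, H, hSI, hC⟩ := exch (G := G) hb hT (by rw [hbr]; exact ht)
  have hA : ∀ j, ∀ u, ∃ w, j < r → w ∈ b.O (j + 1) u ∧ G.Adj u w ∧ χ w = j + 1 := by
    intro j u
    by_cases hj : j < r
    · obtain ⟨w, h1, h2, h3, -⟩ := SI.anchor hb hSI (j := j + 1) (by omega) (by omega) u
      exact ⟨w, fun _ => ⟨h1, h2, h3⟩⟩
    · exact ⟨u, fun h => absurd h hj⟩
  choose π hπ using hA
  refine ⟨fun j => univ.filter fun x => χ x = j + 1, π, ⟨?_, ?_, ?_, ?_⟩, ?_⟩
  · intro j _ j' _ hne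
    refine disjoint_left.2 fun x h1 h2 => hne ?_
    have h3 := (mem_filter.1 h1).2
    have h4 := (mem_filter.1 h2).2
    omega
  · intro j hj
    obtain ⟨ρ, par, rk, h1, h2⟩ := tree_of_conn (hC (j + 1) (by omega) (by omega)) 7 hSI.deg
    exact ⟨ρ, par, rk, h1, fun v hv hne => hSI.le (h2 v hv hne)⟩
  · intro j hj u
    exact ⟨mem_filter.2 ⟨mem_univ _, (hπ j u hj).2.2⟩, (hπ j u hj).2.1⟩
  · intro j hj w
    refine le_trans (card_le_card fun u hu => ?_) (hb.load w)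
    have h1 := (mem_filter.1 hu).2
    refine mem_filter.2 ⟨mem_univ _, j + 1, by omega, by omega, ?_⟩
    rw [← h1]
    exact (hπ j u hj).1
  · intro y
    by_cases hy : ∃ v, grp v = y
    · obtain ⟨v, rfl⟩ := hy
      obtain ⟨h1, h2⟩ := hK v
      have h3 := hSI.ctl _ h1
      refine le_trans (card_le_card (t := (univ.filter fun w => grp w = grp v ∧ b.c0 w ≠ 0) ∪
        ((univ.filter fun w => grp w = grp v).filter fun x => χ x ≠ b.c0 x)) fun x hx => ?_)
        ((card_union_le _ _).trans (Nat.add_le_add h2 h3))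
      obtain ⟨h4, h5⟩ := mem_filter.1 hx
      obtain ⟨j, -, h6⟩ := mem_biUnion.1 h4
      have h7 := (mem_filter.1 h6).2
      by_cases h8 : χ x = b.c0 x
      · exact mem_union_left _ (mem_filter.2 ⟨mem_univ _, h5, by omega⟩)
      · exact mem_union_right _ (mem_filter.2 ⟨mem_filter.2 ⟨mem_univ _, h5⟩, h8⟩)
    · rw [filter_false_of_mem fun v _ e => hy ⟨v, e⟩, card_empty]
      exact Nat.zero_le _

end Pool.Agent.Lib.MP_f20cd2_co.AS
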