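import Pool.Agent.Lib.MP_f20cd2_co.AS.Defs

/-!
Quotients.
-/

set_option autoImplicit false
set_option linter.unusedSectionVars false

namespace Pool.Agent.Lib.MP_f20cd2_co.AS

open Finset
open Pool.Agent.Lib.MP_f20cd2_co.H83 (Conn Cells)
open Pool.Agent.Lib.MP_f20cd2_co.PL
open scoped Classical

variable {V : Type} [Fintype V] [DecidableEq V] {G : SimpleGraph V}

variable {W : Type} [Fintype W] [DecidableEq W]

theorem exists_phi (w : W → ℕ) (h : Pack G univ (univ : Finset W) w)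
    (hsum : ∑ p, w p = Fintype.card V) :
    ∃ φ : V → W, ∀ p, Conn G (univ.filter fun x => φ x = p) ∧
      (univ.filter fun x => φ x = p).card = w p := by
  obtain ⟨q, h1, h2⟩ := h
  have hc : (univ.biUnion q).card = Fintype.card V := by
    rw [card_biUnion fun i hi j hj hne => h2 i (mem_coe.1 hi) j (mem_coe.1 hj) hne, ← hsum]
    exact sum_congr rfl fun i hi => (h1 i hi).2.1
  have hu : univ.biUnion q = univ := eq_univ_of_card _ hc
  have hx : ∀ x : V, ∃ p, x ∈ q p := by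
    intro x
    have h3 : x ∈ univ.biUnion q := by rw [hu]; exact mem_univ x
    obtain ⟨p, -, hp⟩ := mem_biUnion.1 h3
    exact ⟨p, hp⟩
  choose φ hφ using hx
  refine ⟨φ, fun p => ?_⟩
  have e : (univ.filter fun x => φ x = p) = q p := by
    ext x
    rw [mem_filter]
    constructor
    · rintro ⟨-, rfl⟩
      exact hφ x
    · intro hxp
      refine ⟨mem_univ _, ?_⟩
      by_contra hne
      exact disjoint_left.1 (h2 _ (mem_univ _) _ (mem_univ _) hne) (hφ x) hxp
  rw [e]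
  exact ⟨(h1 p (mem_univ _)).2.2, (h1 p (mem_univ _)).2.1⟩

theorem quo_rt {φ : V → W} {K : ℕ} {t : ℝ} (hK : 0 < K) (hT : RT G univ (K * t))
    (h1 : ∀ p, (univ.filter fun x => φ x = p).Nonempty)
    (h2 : ∀ p, (univ.filter fun x => φ x = p).card ≤ K) : RT (quo G φ) univ t := by
  intro B c hB hc
  obtain ⟨l, hl1, hl2⟩ := hB
  have hC : Cells G (univ.filter fun x => φ x ∈ B) c := by
    refine ⟨fun x => l (φ x), fun j hj => ?_, fun x hx y hy hxy => ?_⟩
    · obtain ⟨p, hp, e⟩ := hl1 j hj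
      obtain ⟨x, hx⟩ := h1 p
      have h3 := (mem_filter.1 hx).2
      refine ⟨x, mem_filter.2 ⟨mem_univ _, by rw [h3]; exact hp⟩, ?_⟩
      show l (φ x) = j
      rw [h3, e]
    · show l (φ x) = l (φ y)
      by_cases e : φ x = φ y
      · rw [e]
      · exact hl2 _ (mem_filter.1 hx).2 _ (mem_filter.1 hy).2
          (quo_adj.2 ⟨e, x, y, rfl, rfl, hxy⟩)
  have h3 := hT _ c hC hc
  have h4 : (univ \ (univ.filter fun x => φ x ∈ B)).card ≤ (univ \ B).card * K := by
    refine le_trans (card_le_card (t := (univ \ B).biUnion fun p => univ.filter fun x => φ x = p)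
      fun x hx => ?_) (card_biUnion_le_card_mul _ _ _ fun p _ => h2 p)
    refine mem_biUnion.2 ⟨φ x, mem_sdiff.2 ⟨mem_univ _, fun h5 => ?_⟩,
      mem_filter.2 ⟨mem_univ _, rfl⟩⟩
    exact (mem_sdiff.1 hx).2 (mem_filter.2 ⟨mem_univ _, h5⟩)
  have h5 : (((univ \ (univ.filter fun x => φ x ∈ B)).card : ℕ) : ℝ) ≤
      ((univ \ B).card : ℝ) * K := by exact_mod_cast h4
  have h6 : (0 : ℝ) < K := by exact_mod_cast hK
  refine le_of_mul_le_mul_left ?_ h6
  calc (K : ℝ) * (t * c) = K * t * c := by ring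
    _ ≤ ((univ \ B).card : ℝ) * K := h3.trans h5
    _ = K * ((univ \ B).card : ℝ) := mul_comm _ _

theorem quo_lift {ι : Type} {φ : V → W} {w : W → ℕ}
    (h1 : ∀ p, Conn G (univ.filter fun x => φ x = p) ∧ (univ.filter fun x => φ x = p).card = w p)
    {I : Finset ι} {a : ι → ℕ} {p : ι → Finset W} (h : WPack (quo G φ) w univ I a p) :
    Pack G univ I a := by
  obtain ⟨h2, h3⟩ := h
  refine ⟨fun i => univ.filter fun x => φ x ∈ p i, fun i hi => ⟨subset_univ _, ?_, ?_⟩, ?_⟩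
  · obtain ⟨-, h4, -⟩ := h2 i hi
    rw [← h4, card_eq_sum_card_fiberwise (f := φ) (t := p i)
      fun x hx => mem_coe.2 (mem_filter.1 (mem_coe.1 hx)).2]
    refine sum_congr rfl fun y hy => ?_
    rw [← (h1 y).2]
    congr 1
    ext x
    simp only [mem_filter, mem_univ, true_and]
    constructor
    · exact fun h5 => h5.2
    · intro h5
      exact ⟨by rw [h5]; exact hy, h5⟩
  · obtain ⟨-, -, h4⟩ := h2 i hi
    obtain ⟨y, hy⟩ := h4.1
    obtain ⟨r, hr⟩ := (h1 y).1.1
    have hry := (mem_filter.1 hr).2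
    have hrm : r ∈ univ.filter fun x => φ x ∈ p i :=
      mem_filter.2 ⟨mem_univ _, by rw [hry]; exact hy⟩
    refine BasicAux.of_const hrm fun A hA v hv => ?_
    have hf : ∀ x x', φ x ∈ p i → φ x' = φ x → (A x ↔ A x') := by
      intro x x' hx e
      refine BasicAux.const (h1 (φ x)).1 A (fun a ha b hb hab => hA a ?_ b ?_ hab) x
        (mem_filter.2 ⟨mem_univ _, rfl⟩) x' (mem_filter.2 ⟨mem_univ _, e⟩)
      · exact mem_filter.2 ⟨mem_univ _, by rw [(mem_filter.1 ha).2]; exact hx⟩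
      · exact mem_filter.2 ⟨mem_univ _, by rw [(mem_filter.1 hb).2]; exact hx⟩
    have hd : ∀ x, φ x ∈ p i → ((∃ z, φ z = φ x ∧ A z) ↔ A x) := by
      intro x hx
      exact ⟨fun ⟨z, hz, hAz⟩ => (hf x z hx hz).2 hAz, fun hAx => ⟨x, rfl, hAx⟩⟩
    have h5 := BasicAux.const h4 (fun q => ∃ z, φ z = q ∧ A z) (fun a ha b hb hab => by
      obtain ⟨-, x, x', rfl, rfl, hxx⟩ := quo_adj.1 hab
      exact (hd x ha).trans ((hA x (mem_filter.2 ⟨mem_univ _, ha⟩) x'
        (mem_filter.2 ⟨mem_univ _, hb⟩) hxx).trans (hd x' hb).symm))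
      (φ v) (mem_filter.1 hv).2 (φ r) (mem_filter.1 hrm).2
    exact (hd v (mem_filter.1 hv).2).symm.trans (h5.trans (hd r (mem_filter.1 hrm).2))
  · intro i hi j hj hne
    exact disjoint_left.2 fun x hx hx' =>
      disjoint_left.1 (h3 i hi j hj hne) (mem_filter.1 hx).2 (mem_filter.1 hx').2

theorem expd_of_rt {t : ℝ} (hT : RT G univ t) (ht : 0 ≤ t) (hn : t < Fintype.card V - 1) :
    Expd G t := by
  by_cases hnc : ∃ u v, u ≠ v ∧ ¬ G.Adj u v
  · exact hT.expd ht hnc
  have hadj : ∀ u v, u ≠ v → G.Adj u v := fun u v hne => by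
    by_contra h
    exact hnc ⟨u, v, hne, h⟩
  intro I hI
  rcases I.eq_empty_or_nonempty with rfl | ⟨x, hx⟩
  · simp
  have h1 : I.card ≤ 1 := card_le_one.2 fun a ha b hb => by
    by_contra hne
    exact hI a ha b hb (hadj a b hne)
  have h2 : univ.erase x ⊆ nbr G I := fun v hv =>
    mem_nbr.2 ⟨x, hx, hadj x v (ne_of_mem_erase hv).symm⟩
  have h3 := card_le_card h2
  have h4 := card_erase_add_one (mem_univ x)
  rw [card_univ] at h4
  have h5 : (Fintype.card V : ℝ) ≤ (nbr G I).card + 1 := by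
    exact_mod_cast (by omega : Fintype.card V ≤ (nbr G I).card + 1)
  have h6 : (I.card : ℝ) ≤ 1 := by exact_mod_cast h1
  have h7 := mul_le_mul_of_nonneg_left h6 ht
  linarith

end Pool.Agent.Lib.MP_f20cd2_co.AS
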