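import Pool.Agent.Lib.MP_f20cd2_co.AS.Num
import Pool.Agent.Lib.MP_f20cd2_co.AS.Lanes
import Pool.Agent.Lib.MP_f20cd2_co.AS.Quo

/-!
The partition theorem.
-/

set_option autoImplicit false
set_option linter.unusedSectionVars false

namespace Pool.Agent.Lib.MP_f20cd2_co.AS

open Finset
open Pool.Agent.Lib.MP_f20cd2_co.H83 (Conn Cells)
open Pool.Agent.Lib.MP_f20cd2_co.PL
open scoped Classical

variable {V : Type} [Fintype V] [DecidableEq V] {G : SimpleGraph V}

theorem big_pack (m g : ℕ) (hm : 100 ≤ m) (hg : g = 10000 * m ^ 2 * m)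
    (hT : RT G univ ((6 * g : ℕ) * ((300000 * m * g ^ 2 + 1 : ℕ) : ℝ)))
    (hn : 6 * g * (300000 * m * g ^ 2 + 1) < Fintype.card V)
    {ι : Type} [Fintype ι] [DecidableEq ι] (a : ι → ℕ) (hpos : ∀ i, 0 < a i)
    (hsum : ∑ i, a i = Fintype.card V) {i0 : ι} (h0 : Fintype.card V ≤ m * a i0) :
    Pack G univ univ a := by
  obtain ⟨n, hn'⟩ : ∃ n, n = Fintype.card V := ⟨_, rfl⟩
  obtain ⟨Q, hQ⟩ : ∃ Q, Q = (2 * (72 * m) + 1) * m + 2 := ⟨_, rfl⟩
  obtain ⟨τ, hτ⟩ : ∃ τ, τ = 300000 * m * g ^ 2 + 1 := ⟨_, rfl⟩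
  rw [← hn'] at hn hsum h0
  rw [← hτ] at hT hn
  have hQ1 : Q ≤ 147 * m ^ 2 := by nlinarith
  have hQ2 : 68 * m * Q ≤ g := by nlinarith
  have hmg : 100 * m ≤ g := by nlinarith
  have hgg : g ≤ g ^ 2 := by nlinarith
  have hτ1 : m * g ^ 2 ≤ τ := by nlinarith
  have hτ2 : 100 * g ^ 2 ≤ τ := le_trans (Nat.mul_le_mul_right _ hm) hτ1
  have hτ3 : τ ≤ 6 * g * τ := Nat.le_mul_of_pos_left _ (by omega)
  have hK0 : 6 * g < a i0 := by
    by_contra hc
    have h1 : m * a i0 ≤ τ * (6 * g) := Nat.mul_le_mul (by omega) (by omega)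
    rw [mul_comm τ] at h1
    omega
  have h2 : 32 * m * (2 * Q + 1) * (6 * g) ^ 2 ≤ n := by
    have h3 : 32 * m * (2 * Q + 1) ≤ 2 * g := by nlinarith
    calc 32 * m * (2 * Q + 1) * (6 * g) ^ 2 ≤ 2 * g * (6 * g) ^ 2 := Nat.mul_le_mul_right _ h3
      _ = 6 * g * (12 * g ^ 2) := by ring
      _ ≤ 6 * g * τ := Nat.mul_le_mul_left _ (by omega)
      _ ≤ n := hn.le
  obtain ⟨N, hN1, hN2⟩ := exists_N a m g (6 * g) Q n (by omega) (by omega) (by omega) hQ2
    (by omega) h2 hsum h0 hK0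
  have hwK : ∀ p : At (6 * g) N, p.w ≤ 6 * g := fun p => (mem_Icc.1 p.w_mem).2
  have hw1 : ∀ p : At (6 * g) N, 0 < p.w := fun p => (mem_Icc.1 p.w_mem).1
  have hW : ∑ p : At (6 * g) N, p.w = n := by
    rw [At.sum_w, ← hN1]
    exact sum_congr rfl fun b hb => by rw [At.card_w hb]
  have hτR : (1 : ℝ) ≤ τ := by exact_mod_cast (by omega : 1 ≤ τ)
  have hgR : (0 : ℝ) < (6 * g : ℕ) := by exact_mod_cast (by omega : 0 < 6 * g)
  obtain ⟨φ, hφ⟩ := exists_phi (G := G) (At.w (K := 6 * g) (N := N))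
    (small_unit hT (by positivity) (Subset.refl _) univ _ (fun p _ => hw1 p)
      (fun p _ => le_trans (by exact_mod_cast hwK p) (le_mul_of_one_le_right hgR.le hτR))
      (by rw [hW, hn', card_univ])) (hW.trans hn')
  have hT' : RT (quo G φ) univ (τ : ℝ) :=
    quo_rt (by omega) hT (fun p => (hφ p).1.1) fun p => (hφ p).2.trans_le (hwK p)
  have hcard : τ < Fintype.card (At (6 * g) N) := by
    by_contra hc
    have h3 : n ≤ Fintype.card (At (6 * g) N) * (6 * g) := by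
      rw [← hW, ← card_univ, ← smul_eq_mul]
      exact sum_le_card_nsmul _ _ _ fun p _ => hwK p
    have h4 : Fintype.card (At (6 * g) N) * (6 * g) ≤ τ * (6 * g) :=
      Nat.mul_le_mul_right _ (by omega)
    rw [mul_comm τ] at h4
    omega
  have : Nonempty (At (6 * g) N) := Fintype.card_pos_iff.1 (by omega)
  have hE : Expd (quo G φ) ((2 * (3 * (10000 * m ^ 2 * m)) : ℕ) : ℝ) := by
    rw [← hg]
    refine expd_of_rt (hT'.mono (Subset.refl _) ?_) (by positivity) ?_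
    · exact_mod_cast (by omega : 2 * (3 * g) ≤ τ)
    · rw [lt_sub_iff_add_lt]
      exact_mod_cast (by omega : 2 * (3 * g) + 1 < Fintype.card (At (6 * g) N))
  obtain ⟨D, π, hL, hD⟩ := lanes (G := quo G φ) (10000 * m ^ 2) m (72 * m) (by nlinarith)
    (by omega) (lll_num hm) (At.grp g) (fun y => by rw [← hg]; exact At.card_grp (by omega) y)
    hE hT' (by
      rw [← hg]
      have := cst_num (m := m) (g := g) (by omega)
      exact_mod_cast (by omega : 2 * (72 * m) * Cst (6 * g) (19 * g) < τ))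
  rw [← hg] at hL
  rw [← hQ] at hD
  obtain ⟨E, hE'⟩ : ∃ E, E = (range (72 * m)).biUnion D := ⟨_, rfl⟩
  rw [← hE'] at hD
  obtain ⟨h3, h4⟩ := hN2 (fun b => (E.filter fun p => p.w = b).card) (At.used E hD)
  obtain ⟨Sm, hSm⟩ : ∃ Sm : Finset ι, ∀ i, i ∈ Sm ↔ a i ≤ 6 * g :=
    ⟨univ.filter fun i => a i ≤ 6 * g, fun i => by simp⟩
  have hSf : ∀ b ∈ Icc 1 (6 * g), (Sm.filter fun j => a j = b) = univ.filter fun j => a j = b := by
    intro b hb
    ext j
    simp only [mem_filter, mem_univ, true_and, hSm]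
    exact ⟨fun h => h.2, fun h => ⟨h ▸ (mem_Icc.1 hb).2, h⟩⟩
  have hsplit : ∀ (X : Finset (At (6 * g) N)), ∀ b ∈ Icc 1 (6 * g),
      ((univ \ X).filter fun p => p.w = b).card + (X.filter fun p => p.w = b).card = N b := by
    intro X b hb
    rw [← At.card_w (N := N) hb, ← card_union_of_disjoint (disjoint_filter_filter sdiff_disjoint),
      ← filter_union, sdiff_union_of_subset (subset_univ X)]
  obtain ⟨σ, hσ1, hσ2⟩ := assign Sm a (univ \ E) At.w fun i hi => by
    have hb : a i ∈ Icc 1 (6 * g) := mem_Icc.2 ⟨hpos i, (hSm i).1 hi⟩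
    have h5 := h3 _ hb
    have h6 := hsplit E _ hb
    rw [hSf _ hb]
    omega
  have himg : ∀ b ∈ Icc 1 (6 * g), ((Sm.image σ).filter fun p => p.w = b).card =
      (univ.filter fun j => a j = b).card := by
    intro b hb
    rw [← hSf b hb, filter_image, card_image_of_injOn (hσ2.mono (coe_subset.2 (filter_subset _ _)))]
    congr 1
    exact filter_congr fun i hi => by rw [(hσ1 i hi).2]
  obtain ⟨p, hp⟩ := top_pack hL At.w (6 * g) n le_rfl hwK a hW hsum h0 hK0 σ Sm hSm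
    (fun i hi => ⟨hE' ▸ (mem_sdiff.1 (hσ1 i hi).1).2, (hσ1 i hi).2⟩) hσ2
    (((univ \ Sm.image σ).filter fun p => p.w = 1) \ E)
    (sdiff_subset.trans (filter_subset _ _))
    (fun v hv => (mem_filter.1 (mem_sdiff.1 hv).1).2)
    (fun j hj => disjoint_left.2 fun v hv h => (mem_sdiff.1 hv).2
      (hE' ▸ mem_biUnion.2 ⟨j, mem_range.2 hj, h⟩)) (by
      rw [At.sum_w, sum_Icc_one (by omega), one_mul]
      have e : ∑ b ∈ Icc 2 (6 * g), b * ((univ \ Sm.image σ).filter fun p => p.w = b).card =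
          ∑ b ∈ Icc 2 (6 * g), b * (N b - (univ.filter fun i => a i = b).card) := by
        refine sum_congr rfl fun b hb => ?_
        have hb' : b ∈ Icc 1 (6 * g) := by
          rw [mem_Icc] at hb ⊢
          omega
        have h5 := hsplit (Sm.image σ) b hb'
        rw [himg b hb'] at h5
        congr 1
        omega
      rw [e]
      have h5 : ((univ \ Sm.image σ).filter fun p => p.w = 1).card ≤
          (((univ \ Sm.image σ).filter fun p => p.w = 1) \ E).card +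
            (E.filter fun p => p.w = 1).card := by
        refine le_trans (card_le_card fun v hv => ?_) (card_union_le _ _)
        by_cases h : v ∈ E
        · exact mem_union_right _ (mem_filter.2 ⟨h, (mem_filter.1 hv).2⟩)
        · exact mem_union_left _ (mem_sdiff.2 ⟨hv, h⟩)
      have h6 := (Nat.le_div_iff_mul_le (by omega : 0 < 8 * m)).2 ((mul_comm _ _).trans_le h4)
      omega)
  exact quo_lift hφ hp

theorem main_pack (m : ℕ) (hm : 100 ≤ m) (hT : RT G univ ((2 * 10 ^ 18 * m ^ 10 : ℕ) : ℝ))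
    {ι : Type} [Fintype ι] [DecidableEq ι] (a : ι → ℕ) (hpos : ∀ i, 0 < a i)
    (hsum : ∑ i, a i = Fintype.card V) {i0 : ι} (h0 : Fintype.card V ≤ m * a i0) :
    Pack G univ univ a := by
  obtain ⟨g, hg⟩ : ∃ g, g = 10000 * m ^ 2 * m := ⟨_, rfl⟩
  have hp : 0 < m ^ 10 := by positivity
  have h1 : 6 * g * (300000 * m * g ^ 2 + 1) ≤ 2 * 10 ^ 18 * m ^ 10 := by
    have h2 : m ^ 3 ≤ m ^ 10 := Nat.pow_le_pow_right (by omega) (by norm_num)
    have e : 6 * g * (300000 * m * g ^ 2 + 1) = 18 * 10 ^ 17 * m ^ 10 + 60000 * m ^ 3 := by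
      rw [hg]; ring
    omega
  rcases le_or_gt (Fintype.card V) (2 * 10 ^ 18 * m ^ 10) with h | h
  · refine small_unit hT (by exact_mod_cast (by omega : 0 < 2 * 10 ^ 18 * m ^ 10)) (Subset.refl _)
      univ a (fun i _ => hpos i) (fun i _ => ?_) (by rw [hsum, card_univ])
    have : a i ≤ ∑ i, a i := single_le_sum (f := a) (fun _ _ => Nat.zero_le _) (mem_univ i)
    exact_mod_cast (by omega : a i ≤ 2 * 10 ^ 18 * m ^ 10)
  · refine big_pack m g hm hg (hT.mono (Subset.refl _) ?_) (by omega) a hpos hsum h0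
    exact_mod_cast h1

theorem asym (m : ℕ) (V : Type) [Finite V] (G : SimpleGraph V)
    (hG : ∀ S : Set V, 1 < Nat.card (G.induce Sᶜ).ConnectedComponent →
      2 * 10 ^ 38 * m ^ 10 * Nat.card (G.induce Sᶜ).ConnectedComponent ≤ S.ncard)
    (k : ℕ) (a : Fin k → ℕ) (hpos : ∀ i, 0 < a i) (hsum : ∑ i, a i = Nat.card V)
    (h0 : ∃ i, Nat.card V ≤ m * a i) :
    ∃ f : V → Fin k, ∀ i, (f ⁻¹' {i}).ncard = a i ∧ (G.induce (f ⁻¹' {i})).Connected := by
  have := Fintype.ofFinite V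
  obtain ⟨i0, h0⟩ := h0
  rw [Nat.card_eq_fintype_card] at hsum h0
  have h1 : a i0 ≤ ∑ i, a i := single_le_sum (f := a) (fun _ _ => Nat.zero_le _) (mem_univ i0)
  have hm : 1 ≤ m := by
    rcases Nat.eq_zero_or_pos m with rfl | h
    · have := hpos i0
      omega
    · exact h
  refine fun_of_pack a hsum (main_pack (100 * m) (by omega) (rt_of_tough (by positivity) ?_) a hpos
    hsum (i0 := i0) (h0.trans (Nat.mul_le_mul_right _ (by omega))))
  intro S hS
  have e : 2 * 10 ^ 18 * (100 * m) ^ 10 = 2 * 10 ^ 38 * m ^ 10 := by ring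
  rw [e]
  exact_mod_cast hG S hS

end Pool.Agent.Lib.MP_f20cd2_co.AS
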