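import Pool.Agent.Lib.MP_f20cd2_co.AS.Lane

/-!
Cutting parts out of many trees.
-/

set_option autoImplicit false
set_option linter.unusedSectionVars false

namespace Pool.Agent.Lib.MP_f20cd2_co.AS

open Finset
open Pool.Agent.Lib.MP_f20cd2_co.H83 (Conn Cells)
open Pool.Agent.Lib.MP_f20cd2_co.PL
open scoped Classical

variable {V : Type} [Fintype V] [DecidableEq V] {G : SimpleGraph V}

namespace MedAux

variable {ι : Type} [DecidableEq ι]

lemma mono {w : V → ℕ} {A B : Finset V} {I : Finset ι} {a : ι → ℕ} {p : ι → Finset V}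
    (h : WPack G w A I a p) (hAB : A ⊆ B) : WPack G w B I a p :=
  ⟨fun i hi => ⟨(h.1 i hi).1.trans hAB, (h.1 i hi).2⟩, h.2⟩

lemma wsum {w : V → ℕ} {A : Finset V} {I : Finset ι} {a : ι → ℕ} {p : ι → Finset V}
    (h : WPack G w A I a p) : ∑ v ∈ I.biUnion p, w v = ∑ i ∈ I, a i := by
  rw [sum_biUnion (fun i hi j hj hij => h.2 i hi j hj hij)]
  exact sum_congr rfl fun i hi => (h.1 i hi).2.1

lemma usub {w : V → ℕ} {A : Finset V} {I : Finset ι} {a : ι → ℕ} {p : ι → Finset V}
    (h : WPack G w A I a p) : I.biUnion p ⊆ A :=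
  biUnion_subset.2 fun i hi => (h.1 i hi).1

lemma merge {w : V → ℕ} {A : Finset V} {I J : Finset ι} {a : ι → ℕ} {p q : ι → Finset V}
    (hp : WPack G w A I a p) (hq : WPack G w A J a q)
    (hd : ∀ i ∈ I, ∀ j ∈ J, j ∉ I → Disjoint (p i) (q j)) :
    WPack G w A (I ∪ J) a fun i => if i ∈ I then p i else q i := by
  refine ⟨fun i hi => ?_, fun i hi j hj hij => ?_⟩
  · by_cases h : i ∈ I
    · simp only [if_pos h]
      exact hp.1 i h
    · simp only [if_neg h]
      exact hq.1 i ((mem_union.1 hi).resolve_left h)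
  · by_cases h : i ∈ I
    · by_cases h' : j ∈ I
      · simp only [if_pos h, if_pos h']
        exact hp.2 i h j h' hij
      · simp only [if_pos h, if_neg h']
        exact hd i h j ((mem_union.1 hj).resolve_left h') h'
    · by_cases h' : j ∈ I
      · simp only [if_neg h, if_pos h']
        exact (hd j h' i ((mem_union.1 hi).resolve_left h) h).symm
      · simp only [if_neg h, if_neg h']
        exact hq.2 i ((mem_union.1 hi).resolve_left h) j ((mem_union.1 hj).resolve_left h') hij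

lemma merge_union {I J : Finset ι} (hIJ : Disjoint I J) (p q : ι → Finset V) :
    (I ∪ J).biUnion (fun i => if i ∈ I then p i else q i) = I.biUnion p ∪ J.biUnion q := by
  ext v
  simp only [mem_biUnion, mem_union]
  constructor
  · rintro ⟨i, hi, hv⟩
    by_cases h : i ∈ I
    · rw [if_pos h] at hv
      exact Or.inl ⟨i, h, hv⟩
    · rw [if_neg h] at hv
      exact Or.inr ⟨i, hi.resolve_left h, hv⟩
  · rintro (⟨i, hi, hv⟩ | ⟨i, hi, hv⟩)
    · exact ⟨i, Or.inl hi, by rw [if_pos hi]; exact hv⟩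
    · exact ⟨i, Or.inr hi, by rw [if_neg (disjoint_right.1 hIJ hi)]; exact hv⟩

lemma wcard {w : V → ℕ} {F : Finset V} (hF : ∀ v ∈ F, w v = 1) : ∑ v ∈ F, w v = F.card := by
  rw [sum_congr rfl hF, sum_const, smul_eq_mul, mul_one]

/-- The weight of a subset of `A ∪ F` is paid by `A` and by the vertices taken from `F`. -/
lemma pay {w : V → ℕ} {A F Q : Finset V} (hF : ∀ v ∈ F, w v = 1) (hQ : Q ⊆ A ∪ F) :
    ∑ v ∈ Q, w v + (F \ Q).card ≤ ∑ v ∈ A, w v + F.card := by
  have h1 : ∑ v ∈ Q ∪ F \ Q, w v = ∑ v ∈ Q, w v + ∑ v ∈ F \ Q, w v :=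
    sum_union disjoint_sdiff
  have h2 : ∑ v ∈ F \ Q, w v = (F \ Q).card := wcard fun v hv => hF v (mem_sdiff.1 hv).1
  have h3 : ∑ v ∈ Q ∪ F \ Q, w v ≤ ∑ v ∈ A ∪ F, w v :=
    sum_le_sum_of_subset (union_subset hQ (sdiff_subset.trans subset_union_right))
  have h4 := sum_union_inter (s₁ := A) (s₂ := F) (f := w)
  have h5 := wcard hF
  omega

lemma lane_disj {r lam : ℕ} {D : ℕ → Finset V} {π : ℕ → V → V} (hL : Lanes G r lam D π) {k j : ℕ}
    (hkj : k ≤ j) (hj : j < r) : Disjoint ((range k).biUnion D) (D j) := by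
  rw [disjoint_biUnion_left]
  intro i hi
  have := mem_range.1 hi
  exact hL.disj i (by omega) j hj (by omega)

end MedAux

theorem med {ι : Type} [DecidableEq ι] {r lam : ℕ} {D : ℕ → Finset V} {π : ℕ → V → V}
    (hL : Lanes G r lam D π) (w : V → ℕ) (K s : ℕ) (hlam : lam ≤ K) (hw : ∀ v, w v ≤ K)
    (F : Finset V) (hF : ∀ v ∈ F, w v = 1) (hFD : ∀ j < r, Disjoint F (D j)) (I : Finset ι)
    (a : ι → ℕ) (ha : ∀ i ∈ I, K < a i ∧ a i ≤ s) (k : ℕ) (hk : k ≤ r) :
    ∃ I' ⊆ I, ∃ p, WPack G w ((range k).biUnion D ∪ F) I' a p ∧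
      (I' = I ∨ 9 ^ k * (F \ I'.biUnion p).card ≤
        8 ^ k * F.card + 9 ^ k * (2 * ∑ v ∈ (range k).biUnion D, w v + s)) := by
  induction k with
  | zero =>
    refine ⟨∅, empty_subset _, fun _ => ∅, ⟨by simp, by simp⟩, Or.inr ?_⟩
    simp
  | succ k ih =>
    have hkr : k < r := hk
    obtain ⟨I', hI', p, hp, hor⟩ := ih hkr.le
    have hun : (range (k + 1)).biUnion D = (range k).biUnion D ∪ D k := by
      rw [range_add_one, biUnion_insert, union_comm]
    have hsub : (range k).biUnion D ∪ F ⊆ (range (k + 1)).biUnion D ∪ F := by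
      rw [hun]
      exact union_subset_union_left subset_union_left
    rcases hor with hor | hor
    · exact ⟨I', hI', p, MedAux.mono hp hsub, Or.inl hor⟩
    obtain ⟨ρ, par, rk, hT, hadj⟩ := hL.tree k hkr
    have hF' : ∀ v ∈ F \ I'.biUnion p, w v = 1 := fun v hv => hF v (mem_sdiff.1 hv).1
    obtain ⟨J, hJ, q, hq, hor'⟩ := lane (G := G) w K s (π k) a hT hadj (F \ I'.biUnion p)
      (Disjoint.mono_left sdiff_subset (hFD k hkr)) (fun v _ => hw v)
      (fun v hv => ⟨hF' v hv, hL.dom k hkr v⟩)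
      (fun y => by
        refine le_trans (card_le_card fun v hv => ?_) ((hL.load k hkr y).trans hlam)
        simp only [mem_filter] at hv ⊢
        exact ⟨mem_univ _, hv.2⟩)
      (I \ I') fun i hi => ha i (mem_sdiff.1 hi).1
    have hIJ : Disjoint I' J := Disjoint.mono_right hJ disjoint_sdiff
    have hsub' : D k ∪ F \ I'.biUnion p ⊆ (range (k + 1)).biUnion D ∪ F := by
      rw [hun]
      exact union_subset_union subset_union_right sdiff_subset
    have hdk := MedAux.lane_disj hL le_rfl hkr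
    refine ⟨I' ∪ J, union_subset hI' (hJ.trans sdiff_subset), _,
      MedAux.merge (MedAux.mono hp hsub) (MedAux.mono hq hsub') fun i hi j hj _ => ?_, ?_⟩
    · refine Disjoint.mono_right (hq.1 j hj).1 (disjoint_union_right.2 ⟨?_, ?_⟩)
      · exact Disjoint.mono_left (hp.1 i hi).1 (disjoint_union_left.2 ⟨hdk, hFD k hkr⟩)
      · exact Disjoint.mono_left (subset_biUnion_of_mem p hi) disjoint_sdiff
    · rcases hor' with hor' | hor'
      · left
        rw [hor', union_sdiff_of_subset hI']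
      · right
        have h0 : F \ (I'.biUnion p ∪ J.biUnion q) = (F \ I'.biUnion p) \ J.biUnion q := by
          ext v
          simp only [mem_sdiff, mem_union, not_or, and_assoc]
        rw [MedAux.merge_union hIJ, h0, hun, sum_union hdk]
        have h1 := MedAux.pay hF' (MedAux.usub hq)
        rw [MedAux.wsum hq] at h1
        have h2 : 9 * ((F \ I'.biUnion p) \ J.biUnion q).card ≤
            8 * (F \ I'.biUnion p).card + 18 * ∑ v ∈ D k, w v + s := by omega
        have h3 := Nat.mul_le_mul_left (9 ^ k) h2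
        rw [pow_succ, pow_succ]
        nlinarith [Nat.zero_le (9 ^ k * ∑ v ∈ (range k).biUnion D, w v)]

end Pool.Agent.Lib.MP_f20cd2_co.AS
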