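import Pool.Agent.Lib.MP_f20cd2_co.AS.Atom
import Pool.Agent.Lib.MP_f20cd2_co.AS.Fin

/-!
The numbers of atoms, and the packing in the quotient.
-/

set_option autoImplicit false
set_option linter.unusedSectionVars false

namespace Pool.Agent.Lib.MP_f20cd2_co.AS

open Finset
open Pool.Agent.Lib.MP_f20cd2_co.H83 (Conn Cells)
open Pool.Agent.Lib.MP_f20cd2_co.PL
open scoped Classical

theorem sum_Icc_one {K : ℕ} (hK : 1 ≤ K) (f : ℕ → ℕ) :
    ∑ b ∈ Icc 1 K, f b = f 1 + ∑ b ∈ Icc 2 K, f b := by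
  have e : Icc 1 K = insert 1 (Icc 2 K) := by
    ext b
    simp only [mem_Icc, mem_insert]
    omega
  rw [e, sum_insert (by simp)]

theorem exists_N {ι : Type} [Fintype ι] (a : ι → ℕ) (m g K Q n : ℕ) (hm : 1 ≤ m) (hK : 1 ≤ K)
    (hQ : 0 < Q) (h1 : 68 * m * Q ≤ g) (hg : g ≤ n) (h2 : 32 * m * (2 * Q + 1) * K ^ 2 ≤ n)
    (hsum : ∑ i, a i = n) {i0 : ι} (h0 : n ≤ m * a i0) (hK0 : K < a i0) :
    ∃ N : ℕ → ℕ, ∑ b ∈ Icc 1 K, b * N b = n ∧ ∀ u : ℕ → ℕ, (∀ b, g * u b ≤ Q * (N b + g)) →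
      (∀ b ∈ Icc 1 K, (univ.filter fun i => a i = b).card + u b ≤ N b) ∧
      8 * m * (∑ b ∈ Icc 2 K, b * (N b - (univ.filter fun i => a i = b).card) + u 1) ≤ n := by
  obtain ⟨q, hq⟩ : ∃ q : ℕ → ℕ, ∀ b, q b = (univ.filter fun i => a i = b).card := ⟨_, fun _ => rfl⟩
  simp only [← hq]
  obtain ⟨sp, hsp⟩ : ∃ sp : ℕ → ℕ, ∀ b, sp b = q b / (32 * m) + 2 * Q + 1 := ⟨_, fun _ => rfl⟩
  have hA : q 1 + ∑ b ∈ Icc 2 K, b * q b + a i0 ≤ n := by
    have e1 : ∑ b ∈ Icc 1 K, b * q b = ∑ i ∈ univ.filter (fun i => a i ∈ Icc 1 K), a i := by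
      rw [← sum_fiberwise_of_maps_to (g := a) (t := Icc 1 K) fun i hi => (mem_filter.1 hi).2]
      refine sum_congr rfl fun b hb => ?_
      rw [sum_congr rfl fun p hp => (mem_filter.1 hp).2, sum_const, smul_eq_mul, mul_comm, hq]
      congr 2
      ext i
      simp only [mem_filter, mem_univ, true_and]
      exact ⟨fun h => ⟨h ▸ hb, h⟩, fun h => h.2⟩
    have e2 : ∑ i ∈ insert i0 (univ.filter fun i => a i ∈ Icc 1 K), a i ≤ ∑ i, a i :=
      sum_le_sum_of_subset (subset_univ _)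
    rw [sum_insert (by simp only [mem_filter, mem_Icc]; omega), ← e1, sum_Icc_one hK] at e2
    omega
  have hB : 32 * m * ∑ b ∈ Icc 2 K, b * sp b ≤
      ∑ b ∈ Icc 2 K, b * q b + 32 * m * (2 * Q + 1) * K ^ 2 := by
    have e1 : ∀ b ∈ Icc 2 K, 32 * m * (b * sp b) ≤ b * q b + 32 * m * (2 * Q + 1) * K := by
      intro b hb
      have h3 : 32 * m * (q b / (32 * m)) ≤ q b := Nat.mul_div_le _ _
      have h4 := (mem_Icc.1 hb).2
      calc 32 * m * (b * sp b) = b * (32 * m * (q b / (32 * m))) + 32 * m * (2 * Q + 1) * b := by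
            rw [hsp]; ring
        _ ≤ _ := add_le_add (Nat.mul_le_mul_left _ h3) (Nat.mul_le_mul_left _ h4)
    rw [mul_sum]
    refine le_trans (sum_le_sum e1) ?_
    rw [sum_add_distrib, sum_const, smul_eq_mul, Nat.card_Icc]
    refine Nat.add_le_add_left ?_ _
    calc (K + 1 - 2) * (32 * m * (2 * Q + 1) * K) ≤ K * (32 * m * (2 * Q + 1) * K) :=
          Nat.mul_le_mul_right _ (by omega)
      _ = _ := by ring
  obtain ⟨S1, hS1⟩ : ∃ S1, S1 = ∑ b ∈ Icc 2 K, b * q b := ⟨_, rfl⟩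
  obtain ⟨S2, hS2⟩ : ∃ S2, S2 = ∑ b ∈ Icc 2 K, b * sp b := ⟨_, rfl⟩
  rw [← hS1] at hA hB
  rw [← hS2] at hB
  have hC : 16 * (m * S2) ≤ n := by nlinarith
  have hD : S2 ≤ a i0 := by
    refine Nat.le_of_mul_le_mul_left (c := m) ?_ hm
    omega
  refine ⟨fun b => if b = 1 then n - (S1 + S2) else q b + sp b, ?_, fun u hu => ?_⟩
  · rw [sum_Icc_one hK]
    simp only [if_true, one_mul]
    have e : ∑ b ∈ Icc 2 K, b * (if b = 1 then n - (S1 + S2) else q b + sp b) = S1 + S2 := by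
      rw [hS1, hS2, ← sum_add_distrib]
      refine sum_congr rfl fun b hb => ?_
      rw [if_neg (by have := (mem_Icc.1 hb).1; omega), mul_add]
    rw [e]
    omega
  · have hu1 := used_le hQ h1 (hu 1)
    simp only [if_true] at hu1
    have hE : 8 * m * (S2 + u 1) ≤ n := by
      have e1 : 68 * m * u 1 = 68 * (m * u 1) := by ring
      have e2 : 8 * m * (S2 + u 1) = 8 * (m * S2) + 8 * (m * u 1) := by ring
      omega
    refine ⟨fun b hb => ?_, ?_⟩
    · by_cases h : b = 1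
      · subst h
        simp only [if_true]
        have : S2 + u 1 ≤ a i0 := by
          refine Nat.le_of_mul_le_mul_left (c := m) ?_ hm
          have e2 : 8 * m * (S2 + u 1) = 8 * (m * (S2 + u 1)) := by ring
          omega
        omega
      · have hub := used_le hQ h1 (hu b)
        simp only [if_neg h] at hub ⊢
        rw [hsp] at hub ⊢
        have := spare_ok hm hub
        omega
    · have e : ∑ b ∈ Icc 2 K, b * ((if b = 1 then n - (S1 + S2) else q b + sp b) - q b) = S2 := by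
        rw [hS2]
        refine sum_congr rfl fun b hb => ?_
        rw [if_neg (by have := (mem_Icc.1 hb).1; omega), Nat.add_sub_cancel_left]
      rw [e]
      exact hE

theorem top_pack {W ι : Type} [Fintype W] [DecidableEq W] [Fintype ι] [DecidableEq ι]
    {Γ : SimpleGraph W} {m lam : ℕ} {D : ℕ → Finset W} {π : ℕ → W → W}
    (hL : Lanes Γ (72 * m) lam D π) (w : W → ℕ) (K n : ℕ) (hlam : lam ≤ K) (hw : ∀ v, w v ≤ K)
    (a : ι → ℕ) (hn : ∑ p, w p = n) (hsum : ∑ i, a i = n) {i0 : ι} (h0 : n ≤ m * a i0)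
    (hK : K < a i0) (σ : ι → W) (Sm : Finset ι) (hSm : ∀ i, i ∈ Sm ↔ a i ≤ K)
    (hσ : ∀ i ∈ Sm, σ i ∉ (range (72 * m)).biUnion D ∧ w (σ i) = a i) (hinj : Set.InjOn σ Sm)
    (F : Finset W) (hFU : F ⊆ univ \ Sm.image σ) (hF : ∀ v ∈ F, w v = 1)
    (hFD : ∀ j < 72 * m, Disjoint F (D j))
    (hθ : ∑ v ∈ univ \ Sm.image σ, w v ≤ F.card + n / (8 * m)) :
    ∃ p, WPack Γ w univ univ a p := by
  have ha0 : a i0 ≤ n := hsum ▸ single_le_sum (f := a) (fun _ _ => Nat.zero_le _) (mem_univ i0)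
  have hm : 0 < m := by
    rcases Nat.eq_zero_or_pos m with rfl | h
    · omega
    · exact h
  have hdiv : 8 * m * (n / (8 * m)) ≤ n := Nat.mul_div_le _ _
  have h8 : 8 * (n / (8 * m)) ≤ a i0 := by
    refine Nat.le_of_mul_le_mul_left (c := m) ?_ hm
    calc m * (8 * (n / (8 * m))) = 8 * m * (n / (8 * m)) := by ring
      _ ≤ _ := hdiv.trans h0
  obtain ⟨Im, hIm⟩ : ∃ Im : Finset ι, ∀ i, i ∈ Im ↔ K < a i ∧ 8 * m * a i < n :=
    ⟨univ.filter fun i => K < a i ∧ 8 * m * a i < n, fun i => by simp⟩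
  obtain ⟨Ih, hIh⟩ : ∃ Ih : Finset ι, ∀ i, i ∈ Ih ↔ K < a i ∧ n ≤ 8 * m * a i :=
    ⟨univ.filter fun i => K < a i ∧ n ≤ 8 * m * a i, fun i => by simp⟩
  have hI : Disjoint Im Ih := disjoint_left.2 fun i h1 h2 => by
    have := (hIm i).1 h1
    have := (hIh i).1 h2
    omega
  have hI2 : Disjoint Sm (Im ∪ Ih) := disjoint_left.2 fun i h1 h2 => by
    rw [mem_union, hIm, hIh] at h2
    have := (hSm i).1 h1
    omega
  have hall : Sm ∪ (Im ∪ Ih) = univ := by
    ext i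
    simp only [mem_union, hSm, hIm, hIh, mem_univ, iff_true]
    omega
  have hs1 : ∑ i ∈ Sm, a i + (∑ i ∈ Im, a i + ∑ i ∈ Ih, a i) = n := by
    rw [← sum_union hI, ← sum_union hI2, hall, hsum]
  have hs2 : ∑ v ∈ univ \ Sm.image σ, w v + ∑ i ∈ Sm, a i = n := by
    rw [← hn, ← sum_sdiff (subset_univ (Sm.image σ)), sum_image hinj]
    congr 1
    exact sum_congr rfl fun i hi => (hσ i hi).2.symm
  have hc : Ih.card ≤ 8 * m := by
    refine Nat.le_of_mul_le_mul_right (c := n) ?_ (by omega)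
    calc Ih.card * n ≤ ∑ i ∈ Ih, 8 * m * a i := by
          rw [← smul_eq_mul]
          exact card_nsmul_le_sum _ _ _ fun i hi => ((hIh i).1 hi).2
      _ = 8 * m * ∑ i ∈ Ih, a i := by rw [mul_sum]
      _ ≤ 8 * m * n := Nat.mul_le_mul_left _ (by omega)
  have hFn : F.card ≤ m * a i0 := by
    refine le_trans ?_ h0
    rw [← hn, card_eq_sum_ones, ← sum_congr rfl hF]
    exact sum_le_sum_of_subset (subset_univ _)
  obtain ⟨p, hp1, hp2⟩ := fin_pack hL w K (n / (8 * m)) (n / (8 * m)) hlam hw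
    (univ \ Sm.image σ) F hFU
    (fun j hj v hv => mem_sdiff.2 ⟨mem_univ _, fun h => by
      obtain ⟨i, hi, rfl⟩ := mem_image.1 h
      exact (hσ i hi).1 (mem_biUnion.2 ⟨j, mem_range.2 hj, hv⟩)⟩)
    hF hFD Im Ih hI a
    (fun i hi => ⟨((hIm i).1 hi).1, (Nat.le_div_iff_mul_le (by omega)).2 (by
      have := ((hIm i).1 hi).2
      rw [mul_comm]
      omega)⟩)
    (fun i hi => Nat.div_le_of_le_mul ((hIh i).1 hi).2) hc (i0 := i0)
    ((hIh i0).2 ⟨hK, h0.trans (Nat.mul_le_mul_right _ (by omega))⟩) (by omega) (by omega)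
    hθ hFn h8 h8
  have hout : ∀ i, i ∉ Sm → i ∈ Im ∪ Ih := fun i hi =>
    (mem_union.1 (hall ▸ mem_univ i)).resolve_left hi
  have hdis : ∀ i ∈ Sm, ∀ j, j ∉ Sm → Disjoint {σ i} (p j) := fun i hi j hj =>
    disjoint_singleton_left.2 fun h =>
      (mem_sdiff.1 ((hp1 j (hout j hj)).1 h)).2 (mem_image_of_mem σ hi)
  refine ⟨fun i => if i ∈ Sm then {σ i} else p i, fun i _ => ⟨subset_univ _, ?_⟩,
    fun i _ j _ hij => ?_⟩
  · by_cases hi : i ∈ Sm
    · simp only [if_pos hi]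
      exact ⟨by rw [sum_singleton, (hσ i hi).2], Conn.single _⟩
    · simp only [if_neg hi]
      exact (hp1 i (hout i hi)).2
  · by_cases hi : i ∈ Sm <;> by_cases hj : j ∈ Sm
    · simp only [if_pos hi, if_pos hj]
      exact disjoint_singleton.2 fun e => hij (hinj hi hj e)
    · simp only [if_pos hi, if_neg hj]
      exact hdis i hi j hj
    · simp only [if_neg hi, if_pos hj]
      exact (hdis j hj i hi).symm
    · simp only [if_neg hi, if_neg hj]
      exact hp2 i (hout i hi) j (hout j hj) hij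

end Pool.Agent.Lib.MP_f20cd2_co.AS
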