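import Pool.Agent.Lib.MP_f20cd2_co.AS.Defs

/-!
Reachability inside a set and the path cutting lemma.
-/

set_option autoImplicit false
set_option linter.unusedSectionVars false

namespace Pool.Agent.Lib.MP_f20cd2_co.AS

open Finset
open Pool.Agent.Lib.MP_f20cd2_co.H83 (Conn Cells)
open Pool.Agent.Lib.MP_f20cd2_co.PL
open scoped Classical

variable {V : Type} [Fintype V] [DecidableEq V] {G : SimpleGraph V}

theorem rch_symm {H : SimpleGraph V} {Y : Finset V} {p q : V} (h : Rch H Y p q) : Rch H Y q p := by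
  unfold Rch at h ⊢
  induction h with
  | refl => exact Relation.ReflTransGen.refl
  | tail _ h2 ih => exact Relation.ReflTransGen.head ⟨h2.2.1, h2.1, h2.2.2.symm⟩ ih

theorem rch_mono {H H' : SimpleGraph V} (hH : H ≤ H') {Y Y' : Finset V} (hY : Y ⊆ Y') {p q : V}
    (h : Rch H Y p q) : Rch H' Y' p q := by
  unfold Rch at h ⊢
  induction h with
  | refl => exact Relation.ReflTransGen.refl
  | tail _ h2 ih => exact ih.tail ⟨hY h2.1, hY h2.2.1, hH h2.2.2⟩

theorem rch_univ {H : SimpleGraph V} {p q : V} : Rch H univ p q ↔ H.Reachable p q := by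
  rw [SimpleGraph.reachable_iff_reflTransGen]
  unfold Rch
  constructor
  · intro h
    induction h with
    | refl => exact Relation.ReflTransGen.refl
    | tail _ h2 ih => exact ih.tail h2.2.2
  · intro h
    induction h with
    | refl => exact Relation.ReflTransGen.refl
    | tail _ h2 ih => exact ih.tail ⟨mem_univ _, mem_univ _, h2⟩

theorem cmp_eq_iff {H : SimpleGraph V} {Y : Finset V} {p q : V} :
    cmp H Y p = cmp H Y q ↔ Rch H Y p q := by
  constructor
  · intro h
    have h1 : q ∈ cmp H Y q := mem_cmp.2 Relation.ReflTransGen.refl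
    rw [← h] at h1
    exact mem_cmp.1 h1
  · intro h
    ext w
    rw [mem_cmp, mem_cmp]
    exact ⟨fun h1 => Relation.ReflTransGen.trans (rch_symm h) h1,
      fun h1 => Relation.ReflTransGen.trans h h1⟩

/-- A new edge between two joined vertices does not change reachability. -/
theorem rch_edge {H H' : SimpleGraph V} {Y : Finset V} {u v : V}
    (hH : ∀ x y, H'.Adj x y → H.Adj x y ∨ (x = u ∧ y = v) ∨ (x = v ∧ y = u))
    (huv : Rch H Y u v) {p q : V} (h : Rch H' Y p q) : Rch H Y p q := by
  have hvu := rch_symm huv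
  unfold Rch at h huv hvu ⊢
  induction h with
  | refl => exact Relation.ReflTransGen.refl
  | tail _ h2 ih =>
    rcases hH _ _ h2.2.2 with h3 | ⟨h3, h4⟩ | ⟨h3, h4⟩
    · exact ih.tail ⟨h2.1, h2.2.1, h3⟩
    · rw [h3] at ih
      rw [h4]
      exact ih.trans huv
    · rw [h3] at ih
      rw [h4]
      exact ih.trans hvu

namespace RchAux

/-- A chain inside `Y` between different vertices gives a walk inside `Y`. -/
theorem walk_of_rch {H : SimpleGraph V} {Y : Finset V} {u v : V} (h : Rch H Y u v) :
    u = v ∨ ∃ p : H.Walk u v, ∀ x ∈ p.support, x ∈ Y := by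
  unfold Rch at h
  induction h using Relation.ReflTransGen.head_induction_on with
  | refl => exact Or.inl rfl
  | head h1 _ ih =>
    right
    rcases ih with rfl | ⟨p, hp⟩
    · refine ⟨SimpleGraph.Walk.cons h1.2.2 SimpleGraph.Walk.nil, fun x hx => ?_⟩
      rw [SimpleGraph.Walk.support_cons, SimpleGraph.Walk.support_nil, List.mem_cons,
        List.mem_singleton] at hx
      rcases hx with rfl | rfl
      · exact h1.1
      · exact h1.2.1
    · refine ⟨SimpleGraph.Walk.cons h1.2.2 p, fun x hx => ?_⟩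
      rw [SimpleGraph.Walk.support_cons, List.mem_cons] at hx
      rcases hx with rfl | hx
      · exact h1.1
      · exact hp x hx

/-- A walk inside `Y` gives a chain inside `Y`. -/
theorem rch_of_walk {H : SimpleGraph V} {Y : Finset V} {u v : V} (p : H.Walk u v)
    (hp : ∀ x ∈ p.support, x ∈ Y) : Rch H Y u v := by
  unfold Rch
  induction p with
  | nil => exact Relation.ReflTransGen.refl
  | cons h q ih =>
    have h1 : ∀ x ∈ q.support, x ∈ Y := fun x hx => hp x (by
      rw [SimpleGraph.Walk.support_cons]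
      exact List.mem_cons_of_mem _ hx)
    exact Relation.ReflTransGen.head
      ⟨hp _ (SimpleGraph.Walk.start_mem_support _), h1 _ q.start_mem_support, h⟩ (ih h1)

end RchAux

/-- In a forest the path from `u` to `v` can be cut at a vertex of a separating set. -/
theorem cut_path {H : SimpleGraph V} (hH : H.IsAcyclic) {Y β : Finset V} {u v : V}
    (h1 : Rch H Y u v) (h2 : ¬ Rch H (Y \ β) u v) :
    ∃ w ∈ β, ∃ w', H.Adj w w' ∧ ¬ (H.deleteEdges {s(w, w')}).Reachable u v := by
  have huv : u ≠ v := by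
    rintro rfl
    exact h2 Relation.ReflTransGen.refl
  obtain ⟨p, hp⟩ := (RchAux.walk_of_rch h1).resolve_left huv
  have h3 : ∃ w ∈ p.bypass.support, w ∈ β := by
    by_contra hc
    refine h2 (RchAux.rch_of_walk p.bypass fun x hx => mem_sdiff.2 ⟨?_, fun hb => hc ⟨x, hx, hb⟩⟩)
    exact hp x (p.support_bypass_subset_support hx)
  obtain ⟨w, hw, hwb⟩ := h3
  have hnil : ¬ p.bypass.Nil := SimpleGraph.Walk.not_nil_of_ne huv
  obtain ⟨e, he, hwe⟩ := (SimpleGraph.Walk.mem_support_iff_exists_mem_edges_of_not_nil hnil).1 hw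
  obtain ⟨w', rfl⟩ := Sym2.mem_iff_exists.1 hwe
  refine ⟨w, hwb, w', p.bypass.adj_of_mem_edges he, fun hr => ?_⟩
  obtain ⟨q, hq⟩ := SimpleGraph.reachable_deleteEdges_iff_exists_walk.1 hr
  have h4 : p.toPath = q.toPath := (hH.subsingleton_path u v).elim _ _
  have h5 : p.bypass = q.bypass := congrArg Subtype.val h4
  rw [h5] at he
  exact hq (q.edges_bypass_subset_edges he)

/-- A set is connected if all its vertices lie in one component. -/
theorem conn_of_cmp {H : SimpleGraph V} {A : Finset V} (hA : A.Nonempty)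
    (hcl : ∀ x ∈ A, ∀ y, H.Adj x y → y ∈ A) (h : (A.image (cmp H univ)).card ≤ 1) : Conn H A := by
  obtain ⟨r, hr⟩ := hA
  refine BasicAux.of_const hr fun P hP v hv => ?_
  have h1 : Rch H univ r v :=
    cmp_eq_iff.1 (card_le_one.1 h _ (mem_image_of_mem _ hr) _ (mem_image_of_mem _ hv))
  have key : ∀ w, Rch H univ r w → w ∈ A ∧ (P w ↔ P r) := by
    intro w hw
    unfold Rch at hw
    induction hw with
    | refl => exact ⟨hr, Iff.rfl⟩
    | tail _ h2 ih =>
      have h3 := hcl _ ih.1 _ h2.2.2
      exact ⟨h3, (hP _ ih.1 _ h3 h2.2.2).symm.trans ih.2⟩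
  exact (key v h1).2

end Pool.Agent.Lib.MP_f20cd2_co.AS
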